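import Pool.Agent.N606.ST.FDefs

/-!
# Sharply 2-transitive sets and planes close to the Desarguesian ones

Over the field with `q ^ 2` elements: the affine maps `x ↦ a x + b`, and the set obtained from them
by replacing the maps with `a ^ (q + 1) = e` by the maps `x ↦ a x ^ q + b`.
-/

set_option autoImplicit false

namespace Pool.Agent.N606.ST

open Equiv Finset

section

variable {F : Type} [Field F] [Fintype F] {q : ℕ} {e : F}

/-- The affine maps. -/
def aff (F : Type) [Field F] : Set (Perm F) :=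
  {σ | ∃ a b : F, a ≠ 0 ∧ ∀ x, σ x = a * x + b}

/-- The affine maps with multiplier of norm `e`. -/
def afe (q : ℕ) (e : F) : Set (Perm F) :=
  {σ | ∃ a b : F, a ^ (q + 1) = e ∧ ∀ x, σ x = a * x + b}

/-- The twisted maps with multiplier of norm `e`. -/
def twi (q : ℕ) (e : F) : Set (Perm F) :=
  {σ | ∃ a b : F, a ^ (q + 1) = e ∧ ∀ x, σ x = a * x ^ q + b}

/-- The affine maps with `a ^ (q + 1) ≠ e`, and the twisted maps. -/
def mix (q : ℕ) (e : F) : Set (Perm F) :=
  {σ | ∃ a b : F, a ≠ 0 ∧ a ^ (q + 1) ≠ e ∧ ∀ x, σ x = a * x + b} ∪ twi q e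

omit [Fintype F] in
theorem exists_aff {a : F} (ha : a ≠ 0) (b : F) : ∃ σ : Perm F, ∀ x, σ x = a * x + b :=
  ⟨(Equiv.mulLeft₀ a ha).trans (Equiv.addRight b), fun x => by simp⟩

omit [Fintype F] in
theorem aff_sharp : Sharp (aff F) := by
  classical
  intro x y c d hxy hcd
  have h1 : y - x ≠ 0 := sub_ne_zero.2 hxy.symm
  have h2 : d - c ≠ 0 := sub_ne_zero.2 hcd.symm
  set a := (d - c) / (y - x) with ha
  have ha0 : a ≠ 0 := div_ne_zero h2 h1
  have hay : a * (y - x) = d - c := div_mul_cancel₀ _ h1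
  obtain ⟨σ, hσ⟩ := exists_aff ha0 (c - a * x)
  refine ⟨σ, ⟨⟨a, c - a * x, ha0, hσ⟩, ?_, ?_⟩, ?_⟩
  · rw [hσ]; ring
  · rw [hσ]
    linear_combination hay
  · rintro τ ⟨⟨a', b', ha', h⟩, hx, hy⟩
    rw [h] at hx hy
    have h3 : a' * (y - x) = d - c := by linear_combination hy - hx
    have h4 : a' = a := by
      apply mul_right_cancel₀ h1
      rw [h3, hay]
    ext z
    rw [h, hσ, ← hx, h4]
    ring

variable (hq : Fintype.card F = q ^ 2) (hadd : ∀ x y : F, (x - y) ^ q = x ^ q - y ^ q)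
  (he : e ≠ 0)

include hq in
theorem pow_q_q (x : F) : (x ^ q) ^ q = x := by
  rw [← pow_mul, ← sq, ← hq, FiniteField.pow_card]

include hq in
theorem q_pos : 2 ≤ q := by
  have h := Fintype.one_lt_card (α := F)
  rw [hq] at h
  by_contra hlt
  interval_cases q <;> simp at h

omit [Fintype F] in
include he in
theorem ne_zero_of_norm {a : F} (ha : a ^ (q + 1) = e) : a ≠ 0 := by
  rintro rfl
  simp at ha
  exact he ha.symm

include hq he in
/-- The permutation `x ↦ a x ^ q + b`. -/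
theorem exists_twi {a : F} (ha : a ^ (q + 1) = e) (b : F) :
    ∃ σ : Perm F, ∀ x, σ x = a * x ^ q + b := by
  have ha0 : a ≠ 0 := ne_zero_of_norm he ha
  have hinj : Function.Injective fun x : F => a * x ^ q + b := by
    intro x y hxy
    simp only at hxy
    have h1 : a * x ^ q = a * y ^ q := by linear_combination hxy
    have h2 : x ^ q = y ^ q := mul_left_cancel₀ ha0 h1
    have h3 : (x ^ q) ^ q = (y ^ q) ^ q := by rw [h2]
    rwa [pow_q_q hq, pow_q_q hq] at h3
  exact ⟨Equiv.ofBijective _ ⟨hinj, (Finite.injective_iff_surjective.1 hinj)⟩, fun x => rfl⟩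

include hq hadd he in
theorem mix_sharp : Sharp (mix q e) := by
  classical
  intro x y c d hxy hcd
  have hq2 := q_pos hq
  have h1 : y - x ≠ 0 := sub_ne_zero.2 hxy.symm
  have h2 : d - c ≠ 0 := sub_ne_zero.2 hcd.symm
  have h1q : (y - x) ^ q ≠ 0 := pow_ne_zero _ h1
  set a := (d - c) / (y - x) with ha
  have ha0 : a ≠ 0 := div_ne_zero h2 h1
  have hay : a * (y - x) = d - c := div_mul_cancel₀ _ h1
  set f := (d - c) / (y - x) ^ q with hf
  have hey : f * (y - x) ^ q = d - c := div_mul_cancel₀ _ h1q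
  have hnorm : f ^ (q + 1) = a ^ (q + 1) := by
    rw [hf, ha, div_pow, div_pow]
    congr 1
    rw [pow_succ ((y - x) ^ q) q, pow_q_q hq, pow_succ, mul_comm]
  -- the coefficient of an affine member
  have haff : ∀ (τ : Perm F) (a' b' : F), (∀ z, τ z = a' * z + b') → τ x = c → τ y = d →
      a' = a ∧ ∀ z, τ z = a * z + (c - a * x) := by
    intro τ a' b' h hx hy
    rw [h] at hx hy
    have h3 : a' * (y - x) = d - c := by linear_combination hy - hx
    have h4 : a' = a := by
      apply mul_right_cancel₀ h1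
      rw [h3, hay]
    refine ⟨h4, fun z => ?_⟩
    rw [h, ← hx, h4]
    ring
  have htwi : ∀ (τ : Perm F) (a' b' : F), (∀ z, τ z = a' * z ^ q + b') → τ x = c → τ y = d →
      a' = f ∧ ∀ z, τ z = f * z ^ q + (c - f * x ^ q) := by
    intro τ a' b' h hx hy
    rw [h] at hx hy
    have h3 : a' * (y - x) ^ q = d - c := by
      rw [hadd]
      linear_combination hy - hx
    have h4 : a' = f := by
      apply mul_right_cancel₀ h1q
      rw [h3, hey]
    refine ⟨h4, fun z => ?_⟩
    rw [h, ← hx, h4]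
    ring
  by_cases hN : a ^ (q + 1) = e
  · have hNe : f ^ (q + 1) = e := by rw [hnorm, hN]
    obtain ⟨σ, hσ⟩ := exists_twi hq he hNe (c - f * x ^ q)
    refine ⟨σ, ⟨Or.inr ⟨f, _, hNe, hσ⟩, ?_, ?_⟩, ?_⟩
    · rw [hσ]; ring
    · rw [hσ]
      have := hey
      rw [hadd] at this
      linear_combination this
    · rintro τ ⟨hτ | hτ, hx, hy⟩
      · obtain ⟨a', b', -, h5, h6⟩ := hτ
        have h7 := (haff τ a' b' h6 hx hy).1
        rw [h7] at h5
        exact absurd hN h5
      · obtain ⟨a', b', h5, h6⟩ := hτ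
        have h7 := (htwi τ a' b' h6 hx hy).2
        ext z
        rw [h7, hσ]
  · obtain ⟨σ, hσ⟩ := exists_aff ha0 (c - a * x)
    refine ⟨σ, ⟨Or.inl ⟨a, c - a * x, ha0, hN, hσ⟩, ?_, ?_⟩, ?_⟩
    · rw [hσ]; ring
    · rw [hσ]
      linear_combination hay
    · rintro τ ⟨hτ | hτ, hx, hy⟩
      · obtain ⟨a', b', -, h5, h6⟩ := hτ
        have h7 := (haff τ a' b' h6 hx hy).2
        ext z
        rw [h7, hσ]
      · obtain ⟨a', b', h5, h6⟩ := hτ
        have h7 := (htwi τ a' b' h6 hx hy).1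
        rw [h7, hnorm] at h5
        exact absurd h5 hN

include hq in
/-- The number of solutions of `a ^ (q + 1) = 1`. -/
theorem card_norm_one [DecidableEq F] :
    (univ.filter fun a : F => a ^ (q + 1) = 1).card = q + 1 := by
  have hq2 := q_pos hq
  obtain ⟨g, hg⟩ := IsCyclic.exists_generator (α := Fˣ)
  have hord : orderOf g = q ^ 2 - 1 := by
    rw [orderOf_eq_card_of_forall_mem_zpowers hg, Nat.card_eq_fintype_card, Fintype.card_units, hq]
  have hfac : q ^ 2 - 1 = (q - 1) * (q + 1) := by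
    obtain ⟨m, rfl⟩ : ∃ m, q = m + 1 := ⟨q - 1, by omega⟩
    have : (m + 1) ^ 2 - 1 = m * (m + 2) := by
      have : (m + 1) ^ 2 = m * (m + 2) + 1 := by ring
      omega
    rw [this]
    simp
  have h1 : orderOf (g ^ (q - 1)) = q + 1 := by
    rw [orderOf_pow_of_dvd (by omega) (by rw [hord, hfac]; exact Dvd.intro _ rfl), hord, hfac]
    exact Nat.mul_div_cancel_left _ (by omega)
  have h2 : IsPrimitiveRoot (g ^ (q - 1)) (q + 1) := by
    rw [← h1]
    exact IsPrimitiveRoot.orderOf _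
  have h3 : IsPrimitiveRoot ((g ^ (q - 1) : Fˣ) : F) (q + 1) :=
    IsPrimitiveRoot.coe_units_iff.2 h2
  have h4 := h3.card_nthRootsFinset
  refine Eq.trans ?_ h4
  refine congrArg Finset.card ?_
  ext a
  simp [Polynomial.mem_nthRootsFinset (Nat.succ_pos q)]

include hq he in
/-- The number of solutions of `a ^ (q + 1) = e`, if there is one. -/
theorem card_norm [DecidableEq F] {a₀ : F} (ha₀ : a₀ ^ (q + 1) = e) :
    (univ.filter fun a : F => a ^ (q + 1) = e).card = q + 1 := by
  have h0 : a₀ ≠ 0 := ne_zero_of_norm he ha₀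
  refine Eq.trans ?_ (card_norm_one hq)
  refine card_bij (fun a _ => a / a₀) ?_ ?_ ?_
  · intro a ha
    rw [mem_filter] at ha ⊢
    refine ⟨mem_univ _, ?_⟩
    rw [div_pow, ha.2, ha₀, div_self he]
  · intro a _ b _ hab
    field_simp at hab
    exact hab
  · intro b hb
    rw [mem_filter] at hb
    refine ⟨b * a₀, ?_, by field_simp⟩
    rw [mem_filter, mul_pow, hb.2, ha₀, one_mul]
    exact ⟨mem_univ _, rfl⟩

include hq in
/-- Not all elements satisfy `x ^ q = x`. -/
theorem exists_pow_ne : ∃ x : F, x ^ q ≠ x := by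
  classical
  have hq2 := q_pos hq
  by_contra hcon
  push Not at hcon
  have h0 : (Polynomial.X ^ q - Polynomial.X : Polynomial F) ≠ 0 :=
    FiniteField.X_pow_card_sub_X_ne_zero F (by omega)
  have h1 : (univ : Finset F) ⊆ (Polynomial.X ^ q - Polynomial.X : Polynomial F).roots.toFinset := by
    intro x _
    rw [Multiset.mem_toFinset, Polynomial.mem_roots h0]
    simp [hcon x]
  have h2 := card_le_card h1
  have h3 := Multiset.toFinset_card_le (Polynomial.X ^ q - Polynomial.X : Polynomial F).roots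
  have h4 := Polynomial.card_roots' (Polynomial.X ^ q - Polynomial.X : Polynomial F)
  rw [FiniteField.X_pow_card_sub_X_natDegree_eq F (by omega)] at h4
  rw [card_univ, hq] at h2
  nlinarith

include hq in
theorem mix_diff : mix q e \ aff F = twi q e := by
  have hq2 := q_pos hq
  ext σ
  constructor
  · rintro ⟨h | h, h2⟩
    · obtain ⟨a, b, h3, -, h4⟩ := h
      exact absurd ⟨a, b, h3, h4⟩ h2
    · exact h
  · intro h
    refine ⟨Or.inr h, ?_⟩
    rintro ⟨a', b', ha', h'⟩
    obtain ⟨a, b, ha, hσ⟩ := h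
    have e0 : b = b' := by
      have h1 := hσ 0
      rw [h' 0, zero_pow (by omega)] at h1
      linear_combination -h1
    have e1 : a = a' := by
      have h1 := hσ 1
      rw [h' 1, one_pow, e0] at h1
      linear_combination -h1
    obtain ⟨x, hx⟩ := exists_pow_ne hq
    apply hx
    have h1 := hσ x
    rw [h' x, e0, e1] at h1
    have h2 : a' * x ^ q = a' * x := by linear_combination -h1
    exact mul_left_cancel₀ ha' h2

include hq he in
theorem card_twi {a₀ : F} (ha₀ : a₀ ^ (q + 1) = e) : (twi q e).ncard = (q + 1) * q ^ 2 := by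
  classical
  have hq2 := q_pos hq
  have hex : ∀ p : {a : F // a ^ (q + 1) = e} × F, ∃ σ : Perm F, ∀ x, σ x = p.1.1 * x ^ q + p.2 :=
    fun p => exists_twi hq he p.1.2 p.2
  choose f hf using hex
  have hinj : Function.Injective f := by
    rintro ⟨⟨a, ha⟩, b⟩ ⟨⟨a', ha'⟩, b'⟩ h
    have h0 := hf ⟨⟨a, ha⟩, b⟩ 0
    have h0' := hf ⟨⟨a', ha'⟩, b'⟩ 0
    rw [← h, h0, zero_pow (by omega)] at h0'
    have e0 : b = b' := by
      simp only at h0'
      linear_combination h0'
    have h1 := hf ⟨⟨a, ha⟩, b⟩ 1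
    have h1' := hf ⟨⟨a', ha'⟩, b'⟩ 1
    rw [← h, h1, one_pow] at h1'
    have e1 : a = a' := by
      simp only at h1'
      linear_combination h1' - e0
    subst e0 e1
    rfl
  have hran : twi q e = Set.range f := by
    ext σ
    constructor
    · rintro ⟨a, b, ha, hσ⟩
      refine ⟨⟨⟨a, ha⟩, b⟩, ?_⟩
      ext x
      rw [hf, hσ]
    · rintro ⟨⟨⟨a, ha⟩, b⟩, rfl⟩
      exact ⟨a, b, ha, fun x => hf _ x⟩
  rw [hran, ← Set.image_univ, Set.ncard_image_of_injective _ hinj, Set.ncard_univ,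
    Nat.card_eq_fintype_card, Fintype.card_prod, hq, Fintype.card_subtype, card_norm hq he ha₀]

include hq he in
theorem card_afe {a₀ : F} (ha₀ : a₀ ^ (q + 1) = e) : (afe q e).ncard = (q + 1) * q ^ 2 := by
  classical
  have hex : ∀ p : {a : F // a ^ (q + 1) = e} × F, ∃ σ : Perm F, ∀ x, σ x = p.1.1 * x + p.2 :=
    fun p => exists_aff (ne_zero_of_norm he p.1.2) p.2
  choose f hf using hex
  have hinj : Function.Injective f := by
    rintro ⟨⟨a, ha⟩, b⟩ ⟨⟨a', ha'⟩, b'⟩ h
    have h0 := hf ⟨⟨a, ha⟩, b⟩ 0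
    have h0' := hf ⟨⟨a', ha'⟩, b'⟩ 0
    rw [← h, h0] at h0'
    have e0 : b = b' := by
      simp only at h0'
      linear_combination h0'
    have h1 := hf ⟨⟨a, ha⟩, b⟩ 1
    have h1' := hf ⟨⟨a', ha'⟩, b'⟩ 1
    rw [← h, h1] at h1'
    have e1 : a = a' := by
      simp only at h1'
      linear_combination h1' - e0
    subst e0 e1
    rfl
  have hran : afe q e = Set.range f := by
    ext σ
    constructor
    · rintro ⟨a, b, ha, hσ⟩
      refine ⟨⟨⟨a, ha⟩, b⟩, ?_⟩
      ext x
      rw [hf, hσ]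
    · rintro ⟨⟨⟨a, ha⟩, b⟩, rfl⟩
      exact ⟨a, b, ha, fun x => hf _ x⟩
  rw [hran, ← Set.image_univ, Set.ncard_image_of_injective _ hinj, Set.ncard_univ,
    Nat.card_eq_fintype_card, Fintype.card_prod, hq, Fintype.card_subtype, card_norm hq he ha₀]

include hq he in
/-- Few products of members of `mix` are not in `mix`. -/
theorem bad_mix_le {a₀ : F} (ha₀ : a₀ ^ (q + 1) = e) :
    (bad (mix q e)).ncard ≤ 3 * ((q + 1) * q ^ 2) * (mix q e).ncard := by
  classical
  have h1 : bad (mix q e) ⊆ (twi q e ×ˢ mix q e) ∪ ((mix q e ×ˢ twi q e) ∪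
      ((fun p : Perm F × Perm F => (p.1, p.1⁻¹ * p.2)) '' (mix q e ×ˢ afe q e))) := by
    rintro ⟨α, β⟩ ⟨h1, h2, h3⟩
    rw [Set.mem_union, Set.mem_union]
    by_cases hα : α ∈ twi q e
    · exact Or.inl ⟨hα, h2⟩
    by_cases hβ : β ∈ twi q e
    · exact Or.inr (Or.inl ⟨h1, hβ⟩)
    refine Or.inr (Or.inr ⟨(α, α * β), ⟨h1, ?_⟩, ?_⟩)
    · rcases h1 with h1 | h1
      · rcases h2 with h2 | h2
        · obtain ⟨a, b, ha, hae, hα'⟩ := h1
          obtain ⟨c, d, hc, hce, hβ'⟩ := h2
          refine ⟨a * c, a * d + b, ?_, ?_⟩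
          · by_contra hne
            apply h3
            refine Or.inl ⟨a * c, a * d + b, mul_ne_zero ha hc, hne, ?_⟩
            intro x
            change α (β x) = _
            rw [hβ', hα']
            ring
          · intro x
            change α (β x) = _
            rw [hβ', hα']
            ring
        · exact absurd h2 hβ
      · exact absurd h1 hα
    · simp
  refine (Set.ncard_le_ncard h1 (Set.toFinite _)).trans ?_
  refine (Set.ncard_union_le _ _).trans ?_
  have h2 := Set.ncard_union_le (mix q e ×ˢ twi q e)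
    ((fun p : Perm F × Perm F => (p.1, p.1⁻¹ * p.2)) '' (mix q e ×ˢ afe q e))
  have h3 := Set.ncard_image_le (f := fun p : Perm F × Perm F => (p.1, p.1⁻¹ * p.2))
    (Set.toFinite (mix q e ×ˢ afe q e))
  rw [Set.ncard_prod] at h3
  rw [Set.ncard_prod] at h2 ⊢
  rw [card_twi hq he ha₀] at h2 ⊢
  rw [card_afe hq he ha₀] at h3
  have h4 : (q + 1) * q ^ 2 * (mix q e).ncard + (mix q e).ncard * ((q + 1) * q ^ 2) +
      (mix q e).ncard * ((q + 1) * q ^ 2) = 3 * ((q + 1) * q ^ 2) * (mix q e).ncard := by ring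
  omega

end

/-- Transport of sharply 2-transitive sets. -/
theorem Sharp.congr {Ω Ω' : Type} (e : Ω ≃ Ω') {S : Set (Perm Ω)} (hS : Sharp S) :
    Sharp (e.permCongr '' S) := by
  intro a b c d hab hcd
  obtain ⟨σ, ⟨h1, h2, h3⟩, h4⟩ := hS (e.symm a) (e.symm b) (e.symm c) (e.symm d)
    (fun h => hab (e.symm.injective h)) (fun h => hcd (e.symm.injective h))
  refine ⟨e.permCongr σ, ⟨⟨σ, h1, rfl⟩, ?_, ?_⟩, ?_⟩
  · simp [Equiv.permCongr_apply, h2]
  · simp [Equiv.permCongr_apply, h3]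
  · rintro _ ⟨⟨τ, hτ, rfl⟩, h5, h6⟩
    congr 1
    apply h4
    refine ⟨hτ, ?_, ?_⟩
    · rw [← h5]; simp [Equiv.permCongr_apply]
    · rw [← h6]; simp [Equiv.permCongr_apply]

/-- The field with `q ^ 2` elements. -/
theorem exists_field {q : ℕ} (hq : IsPrimePow q) :
    ∃ (F : Type) (_ : Field F) (_ : Fintype F), Fintype.card F = q ^ 2 ∧
      ∀ x y : F, (x - y) ^ q = x ^ q - y ^ q := by
  obtain ⟨p, k, hp, hk, rfl⟩ := hq
  have hp' : p.Prime := Nat.prime_iff.2 hp
  have : Fact p.Prime := ⟨hp'⟩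
  have : Fintype (GaloisField p (2 * k)) := Fintype.ofFinite _
  refine ⟨GaloisField p (2 * k), inferInstance, inferInstance, ?_, ?_⟩
  · rw [← Nat.card_eq_fintype_card, GaloisField.card p (2 * k) (by omega), ← pow_mul]
    ring_nf
  · intro x y
    exact sub_pow_char_pow x y k

end Pool.Agent.N606.ST
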