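import Pool.Agent.N606.ST.Defs

/-!
# The distance of two sharply 2-transitive sets
-/

set_option autoImplicit false

namespace Pool.Agent.N606.ST

open Equiv Finset

open scoped Classical

set_option linter.unusedSectionVars false

variable {Ω : Type} [Fintype Ω]

/-- the members of `U` which map `a` to `c` -/
noncomputable def thr (U : Finset (Perm Ω)) (p : Ω × Ω) : Finset (Perm Ω) :=
  U.filter fun σ => σ p.1 = p.2

theorem mem_thr {U : Finset (Perm Ω)} {p : Ω × Ω} {σ : Perm Ω} :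
    σ ∈ thr U p ↔ σ ∈ U ∧ σ p.1 = p.2 := by
  simp [thr]

/-- the points where two permutations agree -/
noncomputable def agr (σ τ : Perm Ω) : Finset Ω := univ.filter fun a => σ a = τ a

theorem mem_agr {σ τ : Perm Ω} {a : Ω} : a ∈ agr σ τ ↔ σ a = τ a := by simp [agr]

theorem Sharp.eq {S : Finset (Perm Ω)} (hS : Sharp (S : Set (Perm Ω))) {σ τ : Perm Ω} (h1 : σ ∈ S)
    (h2 : τ ∈ S) {a b : Ω} (hab : a ≠ b) (ha : σ a = τ a) (hb : σ b = τ b) : σ = τ := by
  obtain ⟨ρ, _, hρ⟩ := hS a b (τ a) (τ b) hab (fun h => hab (τ.injective h))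
  rw [hρ σ ⟨by exact_mod_cast h1, ha, hb⟩, hρ τ ⟨by exact_mod_cast h2, rfl, rfl⟩]

theorem card_thr {S : Finset (Perm Ω)} (hS : Sharp (S : Set (Perm Ω))) (hn : 2 ≤ Fintype.card Ω)
    (p : Ω × Ω) : (thr S p).card = Fintype.card Ω - 1 := by
  obtain ⟨b, hb⟩ : ∃ b, b ≠ p.1 := by
    have : Nontrivial Ω := Fintype.one_lt_card_iff_nontrivial.1 (by omega)
    exact exists_ne p.1
  have h1 : (thr S p).card = (univ.erase p.2).card := by
    refine card_bij (fun σ _ => σ b) ?_ ?_ ?_
    · intro σ hσ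
      rw [mem_thr] at hσ
      simp only [mem_erase, mem_univ, and_true]
      rw [← hσ.2]
      exact fun h => hb (σ.injective h)
    · intro σ hσ τ hτ h
      rw [mem_thr] at hσ hτ
      exact hS.eq hσ.1 hτ.1 hb h (hσ.2.trans hτ.2.symm)
    · intro d hd
      simp only [mem_erase, mem_univ, and_true] at hd
      obtain ⟨σ, ⟨h1, h2, h3⟩, _⟩ := hS p.1 b p.2 d hb.symm (Ne.symm hd)
      exact ⟨σ, mem_thr.2 ⟨by exact_mod_cast h1, h2⟩, h3⟩
  rw [h1, card_erase_of_mem (mem_univ _), card_univ]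

theorem card_eq {S : Finset (Perm Ω)} (hS : Sharp (S : Set (Perm Ω))) (hn : 2 ≤ Fintype.card Ω) :
    S.card = Fintype.card Ω * (Fintype.card Ω - 1) := by
  have hne : Nonempty Ω := Fintype.card_pos_iff.1 (by omega)
  obtain ⟨a⟩ := hne
  have h1 : S = univ.biUnion fun c : Ω => thr S (a, c) := by
    ext σ
    simp [mem_thr]
  have h2 : (univ.biUnion fun c : Ω => thr S (a, c)).card = ∑ c : Ω, (thr S (a, c)).card := by
    apply card_biUnion
    intro c _ d _ hcd
    rw [Function.onFun, Finset.disjoint_left]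
    intro σ h1 h2
    rw [mem_thr] at h1 h2
    exact hcd (h1.2.symm.trans h2.2)
  conv_lhs => rw [h1]
  rw [h2]
  simp only [card_thr hS hn, sum_const, card_univ, smul_eq_mul]

section two

variable {S S' : Finset (Perm Ω)} (hS : Sharp (S : Set (Perm Ω))) (hS' : Sharp (S' : Set (Perm Ω)))

include hS hS'

theorem thr_sdiff (hn : 2 ≤ Fintype.card Ω) (p : Ω × Ω) :
    (thr (S \ S') p).card = (thr (S' \ S) p).card := by
  have h1 : thr (S \ S') p = thr S p \ thr S' p := by
    ext σ
    simp only [mem_thr, mem_sdiff]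
    tauto
  have h2 : thr (S' \ S) p = thr S' p \ thr S p := by
    ext σ
    simp only [mem_thr, mem_sdiff]
    tauto
  rw [h1, h2]
  exact card_sdiff_comm ((card_thr hS hn p).trans (card_thr hS' hn p).symm)

/-- The member of `S` through two points of a member of `S' \ S` is not in `S'`. -/
theorem exists_join {T : Perm Ω} (hT : T ∈ S' \ S) {a b : Ω} (hab : a ≠ b) :
    ∃ σ ∈ S \ S', σ a = T a ∧ σ b = T b := by
  rw [mem_sdiff] at hT
  obtain ⟨σ, ⟨h1, h2, h3⟩, _⟩ := hS a b (T a) (T b) hab (fun h => hab (T.injective h))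
  refine ⟨σ, mem_sdiff.2 ⟨by exact_mod_cast h1, fun h => ?_⟩, h2, h3⟩
  have := hS'.eq h hT.1 hab h2 h3
  rw [this] at h1
  exact hT.2 (by exact_mod_cast h1)

/-- The first inequality. -/
theorem ineq1 {T : Perm Ω} (hT : T ∈ S' \ S) {M : ℕ} (hM : ∀ σ ∈ S \ S', (agr σ T).card ≤ M)
    (a : Ω) : Fintype.card Ω - 1 ≤ (thr (S \ S') (a, T a)).card * (M - 1) := by
  have h1 : (univ.erase a : Finset Ω) ⊆
      (thr (S \ S') (a, T a)).biUnion fun σ => (agr σ T).erase a := by
    intro b hb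
    simp only [mem_erase, mem_univ, and_true] at hb
    obtain ⟨σ, h2, h3, h4⟩ := exists_join hS hS' hT (Ne.symm hb)
    rw [mem_biUnion]
    exact ⟨σ, mem_thr.2 ⟨h2, h3⟩, mem_erase.2 ⟨hb, mem_agr.2 h4⟩⟩
  calc Fintype.card Ω - 1 = (univ.erase a : Finset Ω).card := by
        rw [card_erase_of_mem (mem_univ _), card_univ]
    _ ≤ _ := card_le_card h1
    _ ≤ ∑ σ ∈ thr (S \ S') (a, T a), ((agr σ T).erase a).card := card_biUnion_le
    _ ≤ ∑ σ ∈ thr (S \ S') (a, T a), (M - 1) := by
        apply sum_le_sum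
        intro σ hσ
        rw [mem_thr] at hσ
        rw [card_erase_of_mem (mem_agr.2 hσ.2)]
        have := hM σ hσ.1
        omega
    _ = _ := by rw [sum_const, smul_eq_mul]

/-- The second inequality. -/
theorem ineq2 {T m : Perm Ω} (hT : T ∈ S' \ S) (hm : m ∈ S \ S') {a : Ω} (ha : a ∉ agr m T) :
    (agr m T).card ≤ (thr (S \ S') (a, T a)).card := by
  rw [mem_agr] at ha
  have hj : ∀ b ∈ agr m T, ∃ σ ∈ S \ S', σ a = T a ∧ σ b = T b := by
    intro b hb
    apply exists_join hS hS' hT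
    rintro rfl
    exact ha (mem_agr.1 hb)
  choose! f hf1 hf2 hf3 using hj
  refine card_le_card_of_injOn f ?_ ?_
  · intro b hb
    exact_mod_cast mem_thr.2 ⟨hf1 b (by exact_mod_cast hb), hf2 b (by exact_mod_cast hb)⟩
  · intro b hb c hc hbc
    by_contra hne
    have hb' : b ∈ agr m T := by exact_mod_cast hb
    have hc' : c ∈ agr m T := by exact_mod_cast hc
    have h1 : f b = m := by
      refine hS.eq (mem_sdiff.1 (hf1 b hb')).1 (mem_sdiff.1 hm).1 hne ?_ ?_
      · rw [hf3 b hb', mem_agr.1 hb']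
      · rw [hbc, hf3 c hc', mem_agr.1 hc']
    apply ha
    rw [← h1, hf2 b hb']

/-- The third inequality. -/
theorem ineq3 (hn : 2 ≤ Fintype.card Ω) {T : Perm Ω} (hT : T ∈ S' \ S) :
    1 + ∑ a : Ω, ((thr (S \ S') (a, T a)).card - 1) ≤ (S' \ S).card := by
  have h1 : (univ.biUnion fun a : Ω => (thr (S' \ S) (a, T a)).erase T) ⊆ (S' \ S).erase T := by
    intro σ hσ
    simp only [mem_biUnion, mem_univ, true_and, mem_erase, mem_thr] at hσ ⊢
    obtain ⟨a, h1, h2, _⟩ := hσ
    exact ⟨h1, h2⟩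
  have h2 : (univ.biUnion fun a : Ω => (thr (S' \ S) (a, T a)).erase T).card =
      ∑ a : Ω, ((thr (S' \ S) (a, T a)).erase T).card := by
    apply card_biUnion
    intro a _ b _ hab
    rw [Function.onFun, Finset.disjoint_left]
    intro σ h1 h2
    rw [mem_erase, mem_thr] at h1 h2
    exact h1.1 (hS'.eq (mem_sdiff.1 h1.2.1).1 (mem_sdiff.1 hT).1 hab h1.2.2 h2.2.2)
  have h3 := card_le_card h1
  rw [h2, card_erase_of_mem hT] at h3
  have h4 : 0 < (S' \ S).card := card_pos.2 ⟨T, hT⟩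
  have h5 : ∑ a : Ω, ((thr (S' \ S) (a, T a)).erase T).card =
      ∑ a : Ω, ((thr (S \ S') (a, T a)).card - 1) := by
    apply sum_congr rfl
    intro a _
    rw [card_erase_of_mem (mem_thr.2 ⟨hT, rfl⟩), thr_sdiff hS hS' hn]
  rw [h5] at h3
  omega

/-- The number `n (√n - 1)` is a lower bound if no member of `S \ S'` agrees with `T` at more than
`n - √n` points. -/
theorem bound12 (hn : 4 ≤ Fintype.card Ω) {T m : Perm Ω} (hT : T ∈ S' \ S) (hm : m ∈ S \ S')
    (hM : ∀ σ ∈ S \ S', (agr σ T).card ≤ (agr m T).card) {r : ℝ} (hr : 0 ≤ r)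
    (hr2 : r * r = Fintype.card Ω) (hMr : ((agr m T).card : ℝ) ≤ Fintype.card Ω - r) :
    (Fintype.card Ω : ℝ) * (r - 1) ≤ (S' \ S).card := by
  set M := (agr m T).card with hMdef
  set n := Fintype.card Ω with hndef
  have hn' : (4 : ℝ) ≤ n := by exact_mod_cast hn
  have hr1 : 2 ≤ r := by nlinarith
  have i1 : ∀ a, n - 1 ≤ (thr (S \ S') (a, T a)).card * (M - 1) := ineq1 hS hS' hT hM
  have hM2 : 2 ≤ M := by
    have hne : Nonempty Ω := Fintype.card_pos_iff.1 (by omega)
    obtain ⟨a⟩ := hne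
    have h1 := i1 a
    by_contra h2
    have h3 : M - 1 = 0 := by omega
    rw [h3, Nat.mul_zero] at h1
    omega
  have hM2' : (2 : ℝ) ≤ M := by exact_mod_cast hM2
  have hd1 : ∀ a, 1 ≤ (thr (S \ S') (a, T a)).card := by
    intro a
    have h1 := i1 a
    rcases Nat.eq_zero_or_pos (thr (S \ S') (a, T a)).card with h0 | h0
    · rw [h0, Nat.zero_mul] at h1
      omega
    · exact h0
  have i1r : ∀ a, (n : ℝ) - 1 ≤ (thr (S \ S') (a, T a)).card * ((M : ℝ) - 1) := by
    intro a
    have h1 : ((n - 1 : ℕ) : ℝ) ≤ (((thr (S \ S') (a, T a)).card * (M - 1) : ℕ) : ℝ) := by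
      exact_mod_cast i1 a
    rw [Nat.cast_sub (by omega), Nat.cast_mul, Nat.cast_sub (by omega)] at h1
    exact_mod_cast h1
  have i3 : 1 + ∑ a : Ω, (((thr (S \ S') (a, T a)).card : ℝ) - 1) ≤ (S' \ S).card := by
    have h1 := ineq3 hS hS' (by omega) hT
    have h2 : ((1 + ∑ a : Ω, ((thr (S \ S') (a, T a)).card - 1) : ℕ) : ℝ) ≤ (S' \ S).card := by
      exact_mod_cast h1
    rw [Nat.cast_add, Nat.cast_one, Nat.cast_sum] at h2
    refine le_trans (le_of_eq ?_) h2
    congr 1
    apply sum_congr rfl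
    intro a _
    rw [Nat.cast_sub (hd1 a), Nat.cast_one]
  rcases le_total (M : ℝ) r with hcase | hcase
  · have h1 : ∀ a ∈ (univ : Finset Ω), r - 1 ≤ ((thr (S \ S') (a, T a)).card : ℝ) - 1 := by
      intro a _
      have h2 := i1r a
      by_contra h3
      push Not at h3
      have h4 : ((thr (S \ S') (a, T a)).card : ℝ) < r := by linarith
      nlinarith
    have h2 := card_nsmul_le_sum univ _ _ h1
    rw [card_univ, nsmul_eq_mul] at h2
    linarith
  · have h1 : ∑ a : Ω, (((thr (S \ S') (a, T a)).card : ℝ) - 1) =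
        ∑ a ∈ agr m T, (((thr (S \ S') (a, T a)).card : ℝ) - 1) +
        ∑ a ∈ (agr m T)ᶜ, (((thr (S \ S') (a, T a)).card : ℝ) - 1) :=
      (sum_add_sum_compl _ _).symm
    have h2 : ((n : ℝ) - M) * (M - 1) ≤
        ∑ a ∈ (agr m T)ᶜ, (((thr (S \ S') (a, T a)).card : ℝ) - 1) := by
      have h3 : ∀ a ∈ (agr m T)ᶜ, (M : ℝ) - 1 ≤ ((thr (S \ S') (a, T a)).card : ℝ) - 1 := by
        intro a ha
        rw [mem_compl] at ha
        have : (M : ℝ) ≤ (thr (S \ S') (a, T a)).card := by
          exact_mod_cast ineq2 hS hS' hT hm ha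
        linarith
      have h4 := card_nsmul_le_sum _ _ _ h3
      rw [card_compl, nsmul_eq_mul, Nat.cast_sub (by
        rw [← card_univ]; exact card_le_univ _)] at h4
      exact h4
    have h5 : (n : ℝ) - M ≤ ∑ a ∈ agr m T, (((thr (S \ S') (a, T a)).card : ℝ) - 1) := by
      have h6 : ∀ a ∈ agr m T, ((n : ℝ) - M) / (M - 1) ≤
          ((thr (S \ S') (a, T a)).card : ℝ) - 1 := by
        intro a _
        rw [div_le_iff₀ (by linarith)]
        have := i1r a
        linarith
      have h7 := card_nsmul_le_sum _ _ _ h6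
      rw [nsmul_eq_mul] at h7
      refine le_trans ?_ h7
      rw [mul_div_assoc', le_div_iff₀ (by linarith)]
      have : (M : ℝ) ≤ n := by
        have : M ≤ n := card_le_univ _
        exact_mod_cast this
      nlinarith
    have h8 : 0 ≤ ((M : ℝ) - r) * (n - r - M) := mul_nonneg (by linarith) (by linarith)
    nlinarith

/-- Every member of `S' \ S` contains two points outside its largest intersection. -/
theorem two_points {T m : Perm Ω} (hT : T ∈ S' \ S) (hm : m ∈ S \ S') (c : Ω) :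
    ∃ b, b ≠ c ∧ b ∉ agr m T := by
  have h1 : m ≠ T := by
    rintro rfl
    exact (mem_sdiff.1 hT).2 (mem_sdiff.1 hm).1
  obtain ⟨a, ha⟩ : ∃ a, m a ≠ T a := by
    by_contra h
    push Not at h
    exact h1 (Equiv.ext h)
  by_cases hac : a = c
  · refine ⟨T.symm (m a), ?_, ?_⟩
    · rintro h
      rw [← hac] at h
      apply ha
      rw [Equiv.symm_apply_eq] at h
      exact h
    · rw [mem_agr, Equiv.apply_symm_apply]
      intro h
      have h2 := m.injective h
      apply ha
      rw [Equiv.symm_apply_eq] at h2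
      exact h2
  · exact ⟨a, hac, fun h => ha (mem_agr.1 h)⟩

omit hS in
/-- Bonferroni's inequality for the members of `S' \ S` through the points of `K`. -/
theorem bonf (K : Finset (Ω × Ω)) (x : ℝ)
    (hK : ∀ p ∈ K, x ≤ (thr (S' \ S) p).card) :
    (K.card : ℝ) * x - K.card * (K.card - 1) / 2 ≤ ((K.biUnion fun p => thr (S' \ S) p).card : ℝ) := by
  induction K using Finset.induction_on with
  | empty => simp
  | insert p K hp ih =>
    have ih' := ih (fun q hq => hK q (mem_insert_of_mem hq))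
    rw [biUnion_insert, card_insert_of_notMem hp]
    have h1 : (thr (S' \ S) p ∩ K.biUnion fun p => thr (S' \ S) p).card ≤ K.card := by
      have h2 : (thr (S' \ S) p ∩ K.biUnion fun p => thr (S' \ S) p) ⊆
          K.biUnion fun q => thr (S' \ S) p ∩ thr (S' \ S) q := by
        intro σ hσ
        rw [mem_inter, mem_biUnion] at hσ
        obtain ⟨h3, q, h4, h5⟩ := hσ
        exact mem_biUnion.2 ⟨q, h4, mem_inter.2 ⟨h3, h5⟩⟩
      refine (card_le_card h2).trans (card_biUnion_le.trans ?_)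
      have h3 : ∀ q ∈ K, (thr (S' \ S) p ∩ thr (S' \ S) q).card ≤ 1 := by
        intro q hq
        rw [card_le_one]
        intro σ hσ τ hτ
        rw [mem_inter, mem_thr, mem_thr, mem_sdiff] at hσ hτ
        have hne : p.1 ≠ q.1 := by
          intro h
          apply hp
          have : p = q := Prod.ext h (by rw [← hσ.1.2, ← hσ.2.2, h])
          rwa [this]
        exact hS'.eq hσ.1.1.1 hτ.1.1.1 hne (hσ.1.2.trans hτ.1.2.symm) (hσ.2.2.trans hτ.2.2.symm)
      calc ∑ q ∈ K, (thr (S' \ S) p ∩ thr (S' \ S) q).card ≤ ∑ q ∈ K, 1 := sum_le_sum h3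
        _ = K.card := by simp
    have h4 := card_union_add_card_inter (thr (S' \ S) p) (K.biUnion fun p => thr (S' \ S) p)
    have h5 : ((thr (S' \ S) p ∪ K.biUnion fun p => thr (S' \ S) p).card : ℝ) +
        (thr (S' \ S) p ∩ K.biUnion fun p => thr (S' \ S) p).card =
        (thr (S' \ S) p).card + (K.biUnion fun p => thr (S' \ S) p).card := by exact_mod_cast h4
    have h6 : ((thr (S' \ S) p ∩ K.biUnion fun p => thr (S' \ S) p).card : ℝ) ≤ K.card := by
      exact_mod_cast h1
    have h7 := hK p (mem_insert_self _ _)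
    push_cast
    linarith

/-- The case where every member of `S' \ S` nearly agrees with a member of `S \ S'`. -/
theorem bound3 (hn : 9 ≤ Fintype.card Ω) {r : ℝ} (hr : 0 ≤ r)
    (hr2 : r * r = Fintype.card Ω) (hne : (S' \ S).Nonempty)
    (hall : ∀ T ∈ S' \ S, ∃ m ∈ S \ S', (Fintype.card Ω : ℝ) - r < (agr m T).card) :
    (Fintype.card Ω : ℝ) * (r - 1) ≤ (S' \ S).card := by
  set n := Fintype.card Ω with hndef
  have hn' : (9 : ℝ) ≤ n := by exact_mod_cast hn
  have hr3 : 3 ≤ r := by nlinarith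
  set H : Finset (Ω × Ω) := univ.filter fun p => (n : ℝ) - r < (thr (S' \ S) p).card with hH
  have hpt : ∀ T ∈ S' \ S, ∀ c, ∃ b, b ≠ c ∧ (b, T b) ∈ H := by
    intro T hT c
    obtain ⟨m, hm, hMm⟩ := hall T hT
    obtain ⟨b, hb1, hb2⟩ := two_points hS hS' hT hm c
    refine ⟨b, hb1, ?_⟩
    simp only [hH, mem_filter, mem_univ, true_and]
    have h1 := ineq2 hS hS' hT hm hb2
    rw [thr_sdiff hS hS' (by omega)] at h1
    have h2 : ((agr m T).card : ℝ) ≤ (thr (S' \ S) (b, T b)).card := by exact_mod_cast h1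
    linarith
  obtain ⟨T0, hT0⟩ := hne
  have hne' : Nonempty Ω := Fintype.card_pos_iff.1 (by omega)
  obtain ⟨c0⟩ := id hne'
  obtain ⟨a, _, ha⟩ := hpt T0 hT0 c0
  have hHc : (n : ℝ) - r + 1 < H.card := by
    have h1 : (thr (S' \ S) (a, T0 a)).card ≤ (H.erase (a, T0 a)).card := by
      have hch : ∀ T ∈ thr (S' \ S) (a, T0 a), ∃ b, b ≠ a ∧ (b, T b) ∈ H := by
        intro T hT
        exact hpt T (mem_thr.1 hT).1 a
      choose! f hf1 hf2 using hch
      refine card_le_card_of_injOn (fun T => (f T, T (f T))) ?_ ?_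
      · intro T hT
        have hT' : T ∈ thr (S' \ S) (a, T0 a) := by exact_mod_cast hT
        have : (f T, T (f T)) ∈ H.erase (a, T0 a) := by
          refine mem_erase.2 ⟨fun h => hf1 T hT' ?_, hf2 T hT'⟩
          exact congrArg Prod.fst h
        exact_mod_cast this
      · intro T hT U hU hTU
        have hT' : T ∈ thr (S' \ S) (a, T0 a) := by exact_mod_cast hT
        have hU' : U ∈ thr (S' \ S) (a, T0 a) := by exact_mod_cast hU
        have e1 : f T = f U := congrArg Prod.fst hTU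
        have e2 : T (f T) = U (f U) := congrArg Prod.snd hTU
        rw [← e1] at e2
        have hT2 := mem_thr.1 hT'
        have hU2 := mem_thr.1 hU'
        exact hS'.eq (mem_sdiff.1 hT2.1).1 (mem_sdiff.1 hU2.1).1 (hf1 T hT').symm
          (hT2.2.trans hU2.2.symm) e2
    rw [card_erase_of_mem ha] at h1
    have h2 := (mem_filter.1 ha).2
    have h3 : 0 < H.card := card_pos.2 ⟨_, ha⟩
    have h4 : ((thr (S' \ S) (a, T0 a)).card : ℝ) ≤ (H.card : ℝ) - 1 := by
      have h5 : ((thr (S' \ S) (a, T0 a)).card : ℝ) ≤ ((H.card - 1 : ℕ) : ℝ) := by exact_mod_cast h1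
      rwa [Nat.cast_sub (by omega), Nat.cast_one] at h5
    linarith
  set h := ⌊r⌋₊ + 2 with hh
  have hfl1 : (⌊r⌋₊ : ℝ) ≤ r := Nat.floor_le hr
  have hfl2 : r < ⌊r⌋₊ + 1 := Nat.lt_floor_add_one r
  have hh1 : (h : ℝ) ≤ r + 2 := by rw [hh]; push_cast; linarith
  have hh2 : r + 1 < h := by rw [hh]; push_cast; linarith
  have hle : h ≤ H.card := by
    have h1 : (h : ℝ) < H.card := by nlinarith
    exact_mod_cast h1.le
  obtain ⟨K, hK1, hK2⟩ := exists_subset_card_eq hle
  have h1 := bonf hS' (S := S) K ((n : ℝ) - r) (fun p hp => (mem_filter.1 (hK1 hp)).2.le)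
  rw [hK2] at h1
  have h2 : ((K.biUnion fun p => thr (S' \ S) p).card : ℝ) ≤ (S' \ S).card := by
    have : (K.biUnion fun p => thr (S' \ S) p).card ≤ (S' \ S).card := by
      apply card_le_card
      intro σ hσ
      rw [mem_biUnion] at hσ
      obtain ⟨p, _, hp⟩ := hσ
      exact (mem_thr.1 hp).1
    exact_mod_cast this
  refine le_trans ?_ (h1.trans h2)
  have h3 : 0 ≤ ((h : ℝ) - (r + 1)) * (n - r - (h + r) / 2) := by
    apply mul_nonneg (by linarith)
    nlinarith
  nlinarith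

/-- Two distinct sharply 2-transitive sets of permutations of `n ≥ 9` points differ in at least
`n (√n - 1)` members. -/
theorem dist_bound (hn : 9 ≤ Fintype.card Ω) (hne : S ≠ S') :
    (Fintype.card Ω : ℝ) * (Real.sqrt (Fintype.card Ω) - 1) ≤ (S' \ S).card := by
  have hcard : S.card = S'.card :=
    (card_eq hS (by omega)).trans (card_eq hS' (by omega)).symm
  have hne' : (S' \ S).Nonempty := by
    rw [sdiff_nonempty]
    intro h
    exact hne (eq_of_subset_of_card_le h hcard.le).symm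
  have hr : 0 ≤ Real.sqrt (Fintype.card Ω) := Real.sqrt_nonneg _
  have hr2 : Real.sqrt (Fintype.card Ω) * Real.sqrt (Fintype.card Ω) = (Fintype.card Ω : ℝ) :=
    Real.mul_self_sqrt (by positivity)
  have hne'' : (S \ S').Nonempty := by
    rw [sdiff_nonempty]
    intro h
    exact hne (eq_of_subset_of_card_le h hcard.ge)
  by_cases hall : ∀ T ∈ S' \ S, ∃ m ∈ S \ S',
      (Fintype.card Ω : ℝ) - Real.sqrt (Fintype.card Ω) < (agr m T).card
  · exact bound3 hS hS' hn hr hr2 hne' hall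
  · push Not at hall
    obtain ⟨T, hT, hT2⟩ := hall
    obtain ⟨m, hm, hmax⟩ := exists_max_image (S \ S') (fun σ => (agr σ T).card) hne''
    exact bound12 hS hS' (by omega) hT hm hmax hr hr2 (hT2 m hm)

end two

end Pool.Agent.N606.ST
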