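import Pool.Agent.N606.ST.Andre
import Pool.Agent.N606.ST.Dist

/-!
# A sharply 2-transitive set which is not a group but nearly closed under multiplication
-/

set_option autoImplicit false

namespace Pool.Agent.N606.ST

open Equiv Finset

theorem Sharp.ncard {Ω : Type} [Fintype Ω] {S : Set (Perm Ω)} (hS : Sharp S)
    (hn : 2 ≤ Fintype.card Ω) : S.ncard = Fintype.card Ω * (Fintype.card Ω - 1) := by
  classical
  have h1 : Sharp (((Set.toFinite S).toFinset : Finset (Perm Ω)) : Set (Perm Ω)) := by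
    rw [Set.Finite.coe_toFinset]
    exact hS
  have h2 := card_eq h1 hn
  rw [← h2, ← Set.ncard_coe_finset, Set.Finite.coe_toFinset]

section

variable {F : Type} [Field F] [Fintype F] {q : ℕ} {e : F}

variable (hq : Fintype.card F = q ^ 2) (hadd : ∀ x y : F, (x - y) ^ q = x ^ q - y ^ q)

include hq in
/-- There are three different norms. -/
theorem exists_norms (h4 : 4 ≤ q) : ∃ a c : F, a ≠ 0 ∧ c ≠ 0 ∧ a ^ (q + 1) ≠ 1 ∧
    c ^ (q + 1) ≠ 1 ∧ c ^ (q + 1) ≠ a ^ (q + 1) := by
  classical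
  have h16 : 4 * q ≤ q ^ 2 := by nlinarith
  obtain ⟨a, ha0, ha1⟩ : ∃ a : F, a ≠ 0 ∧ a ^ (q + 1) ≠ 1 := by
    by_contra hcon
    push Not at hcon
    have h1 : (univ : Finset F) ⊆ insert 0 (univ.filter fun a : F => a ^ (q + 1) = 1) := by
      intro x _
      rw [mem_insert, mem_filter]
      by_cases hx : x = 0
      · exact Or.inl hx
      · exact Or.inr ⟨mem_univ _, hcon x hx⟩
    have h2 := (card_le_card h1).trans (card_insert_le _ _)
    rw [card_norm_one hq, card_univ, hq] at h2
    omega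
  obtain ⟨c, hc0, hc1, hc2⟩ : ∃ c : F, c ≠ 0 ∧ c ^ (q + 1) ≠ 1 ∧ c ^ (q + 1) ≠ a ^ (q + 1) := by
    by_contra hcon
    push Not at hcon
    have h1 : (univ : Finset F) ⊆ insert 0 ((univ.filter fun c : F => c ^ (q + 1) = 1) ∪
        (univ.filter fun c : F => c ^ (q + 1) = a ^ (q + 1))) := by
      intro x _
      rw [mem_insert, mem_union, mem_filter, mem_filter]
      by_cases hx : x = 0
      · exact Or.inl hx
      · by_cases hx1 : x ^ (q + 1) = 1
        · exact Or.inr (Or.inl ⟨mem_univ _, hx1⟩)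
        · exact Or.inr (Or.inr ⟨mem_univ _, hcon x hx hx1⟩)
    have h2 := (card_le_card h1).trans (card_insert_le _ _)
    have h3 := card_union_le (univ.filter fun c : F => c ^ (q + 1) = 1)
      (univ.filter fun c : F => c ^ (q + 1) = a ^ (q + 1))
    rw [card_norm_one hq, card_norm hq (pow_ne_zero _ ha0) (a₀ := a) rfl] at h3
    rw [card_univ, hq] at h2
    omega
  exact ⟨a, c, ha0, hc0, ha1, hc1, hc2⟩

include hq hadd in
theorem mix_spec (h4 : 4 ≤ q) : ∃ e : F, Sharp (mix q e) ∧ 1 ∈ mix q e ∧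
    (¬ ∃ G : Subgroup (Perm F), (G : Set (Perm F)) = mix q e) ∧
    (bad (mix q e)).ncard ≤ 3 * ((q + 1) * q ^ 2) * (q ^ 2 * (q ^ 2 - 1)) := by
  classical
  obtain ⟨a, c, ha0, hc0, ha1, hc1, hc2⟩ := exists_norms hq h4
  have he : a ^ (q + 1) ≠ 0 := pow_ne_zero _ ha0
  have hS := mix_sharp hq hadd he
  refine ⟨a ^ (q + 1), hS, ?_, ?_, ?_⟩
  · refine Or.inl ⟨1, 0, one_ne_zero, ?_, ?_⟩
    · rw [one_pow]
      exact ha1.symm
    · intro x
      simp
  · rintro ⟨G, hG⟩
    obtain ⟨α, hα⟩ := exists_twi hq he (a := a) rfl 0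
    obtain ⟨β, hβ⟩ := exists_aff hc0 (0 : F)
    have h1 : α ∈ G := by
      have : α ∈ (G : Set (Perm F)) := by
        rw [hG]
        exact Or.inr ⟨a, 0, rfl, hα⟩
      exact this
    have h2 : β ∈ G := by
      have : β ∈ (G : Set (Perm F)) := by
        rw [hG]
        exact Or.inl ⟨c, 0, hc0, hc2, hβ⟩
      exact this
    have h3 : α * β ∈ mix q (a ^ (q + 1)) := by
      rw [← hG]
      exact G.mul_mem h1 h2
    have h5 : ∀ x, (α * β) x = (a * c ^ q) * x ^ q := by
      intro x
      change α (β x) = _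
      rw [hβ, hα, add_zero, add_zero, mul_pow]
      ring
    rcases h3 with h3 | h3
    · obtain ⟨a', b', ha', -, h6⟩ := h3
      have h0 := h6 0
      rw [h5, zero_pow (by omega)] at h0
      have h1' := h6 1
      rw [h5, one_pow] at h1'
      obtain ⟨x, hx⟩ := exists_pow_ne hq
      apply hx
      have h7 := h6 x
      rw [h5] at h7
      have h8 : a' = a * c ^ q := by linear_combination -h1' + h0
      have h9 : a' * x ^ q = a' * x := by
        rw [h8] at h7 ⊢
        linear_combination h7 - h0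
      exact mul_left_cancel₀ ha' h9
    · obtain ⟨a', b', ha', h6⟩ := h3
      have h0 := h6 0
      rw [h5, zero_pow (by omega)] at h0
      have h1' := h6 1
      rw [h5, one_pow] at h1'
      have h8 : a' = a * c ^ q := by linear_combination -h1' + h0
      rw [h8, mul_pow] at ha'
      have h9 : (c ^ q) ^ (q + 1) = c ^ (q + 1) := by
        rw [pow_succ (c ^ q) q, pow_q_q hq, pow_succ, mul_comm]
      rw [h9] at ha'
      apply hc1
      exact mul_left_cancel₀ he (by rw [ha', mul_one])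
  · have h5 := bad_mix_le hq he (a₀ := a) rfl
    rw [hS.ncard (by rw [hq]; nlinarith), hq] at h5
    exact h5

end

/-- For every prime power `q ≥ 4` there is a sharply 2-transitive set of permutations of `q ^ 2`
points which contains `1` and is not a group, although only few products of its members are not
in it. -/
theorem exists_near_group {q : ℕ} (hq : IsPrimePow q) (h4 : 4 ≤ q) :
    ∃ (Ω : Type) (_ : Fintype Ω) (S : Set (Perm Ω)), Fintype.card Ω = q ^ 2 ∧ Sharp S ∧ 1 ∈ S ∧
      (¬ ∃ G : Subgroup (Perm Ω), (G : Set (Perm Ω)) = S) ∧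
      (bad S).ncard ≤ 3 * ((q + 1) * q ^ 2) * (q ^ 2 * (q ^ 2 - 1)) := by
  obtain ⟨F, hF, hF2, hc, hadd⟩ := exists_field hq
  obtain ⟨e, h1, h2, h3, h5⟩ := mix_spec hc hadd h4
  exact ⟨F, hF2, mix q e, hc, h1, h2, h3, h5⟩

end Pool.Agent.N606.ST
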