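import Mathlib

/-!
# Sharply 2-transitive sets of bijections
-/

set_option autoImplicit false

namespace Pool.Agent.N606.ST

open Equiv

/-- The set `S` of bijections is sharply 2-transitive: for all `a ≠ b` and `c ≠ d` exactly one
member of `S` maps `a` to `c` and `b` to `d`. -/
def Sharp {X Y : Type} (S : Set (X ≃ Y)) : Prop :=
  ∀ (a b : X) (c d : Y), a ≠ b → c ≠ d → ∃! σ : X ≃ Y, σ ∈ S ∧ σ a = c ∧ σ b = d

end Pool.Agent.N606.ST
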