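import Pool.Agent.N606.ST.PDefs
import Pool.Agent.N606.ST.Defs

/-!
# Perspectivities between the lines through a point
-/

set_option autoImplicit false

namespace Pool.Agent.N606.ST

open Equiv

/-- The points `x`, `y`, `z` lie on a common block. -/
def Col {V : Type} (B : Finset (Finset V)) (x y z : V) : Prop :=
  ∃ b ∈ B, x ∈ b ∧ y ∈ b ∧ z ∈ b

/-- The points of the block `l` other than `Z`. -/
abbrev Pnt {V : Type} (Z : V) (l : Finset V) : Type := {p : V // p ∈ l ∧ p ≠ Z}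

/-- The perspectivities from `l` to `l'`, as bijections of the points other than `Z`: the
bijections `σ` for which there is a point `C` on neither `l` nor `l'` such that `C`, `p` and `σ(p)`
are collinear for all `p`. -/
def persp {V : Type} (B : Finset (Finset V)) (Z : V) (l l' : Finset V) :
    Set (Pnt Z l ≃ Pnt Z l') :=
  {σ | ∃ C : V, C ∉ l ∧ C ∉ l' ∧ ∀ p : Pnt Z l, Col B C p (σ p)}

/-- The pairs of a perspectivity from `l₁` to `l₂` and a perspectivity from `l₂` to `l₃` whose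
product is not a perspectivity. -/
def nonPersp {V : Type} (B : Finset (Finset V)) (Z : V) (l₁ l₂ l₃ : Finset V) :
    Set ((Pnt Z l₁ ≃ Pnt Z l₂) × (Pnt Z l₂ ≃ Pnt Z l₃)) :=
  {p | p.1 ∈ persp B Z l₁ l₂ ∧ p.2 ∈ persp B Z l₂ l₃ ∧ p.1.trans p.2 ∉ persp B Z l₁ l₃}

/-- `l₁`, `l₂`, `l₃` are three distinct blocks through `Z`. -/
def Three {V : Type} (B : Finset (Finset V)) (Z : V) (l₁ l₂ l₃ : Finset V) : Prop :=
  l₁ ∈ B ∧ l₂ ∈ B ∧ l₃ ∈ B ∧ l₁ ≠ l₂ ∧ l₂ ≠ l₃ ∧ l₁ ≠ l₃ ∧ Z ∈ l₁ ∧ Z ∈ l₂ ∧ Z ∈ l₃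

/-- The pairs of members of `S` whose product is not in `S`. -/
def bad {Ω : Type} (S : Set (Perm Ω)) : Set (Perm Ω × Perm Ω) :=
  {p | p.1 ∈ S ∧ p.2 ∈ S ∧ p.1 * p.2 ∉ S}

end Pool.Agent.N606.ST
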