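import Pool.Agent.N606.ST.Dist

/-!
# Sharply 2-transitive groups, and the number of products outside a sharply 2-transitive set
-/

set_option autoImplicit false

namespace Pool.Agent.N606.ST

open Equiv Finset

open scoped Classical

set_option linter.unusedSectionVars false

variable {Ω : Type} [Fintype Ω]

section group

variable {G : Subgroup (Perm Ω)} (hG : Sharp (G : Set (Perm Ω)))

include hG

theorem eq_one {g : Perm Ω} (hg : g ∈ G) {a b : Ω} (hab : a ≠ b) (ha : g a = a) (hb : g b = b) :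
    g = 1 := by
  obtain ⟨ρ, _, hρ⟩ := hG a b a b hab hab
  rw [hρ g ⟨hg, ha, hb⟩, hρ 1 ⟨G.one_mem, rfl, rfl⟩]

theorem fpf_unique (hn : 2 ≤ Fintype.card Ω) {g₁ g₂ : Perm Ω} (h₁ : g₁ ∈ G) (h₂ : g₂ ∈ G)
    (f₁ : ∀ a, g₁ a ≠ a) (f₂ : ∀ a, g₂ a ≠ a) {x : Ω} (hx : g₁ x = g₂ x) : g₁ = g₂ := by
  by_contra hne
  set y := g₁ x with hy
  have hxy : x ≠ y := (f₁ x).symm
  set S : Finset (Perm Ω) := univ.filter fun g => g ∈ G with hSdef
  have hS : Sharp (S : Set (Perm Ω)) := by
    have : (S : Set (Perm Ω)) = G := by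
      ext g
      simp [hSdef]
    rw [this]
    exact hG
  have hex : ∀ z, z ≠ x → z ≠ y → ∃ g ∈ S, g x = y ∧ g z = z := by
    intro z hzx hzy
    obtain ⟨g, ⟨h3, h4, h5⟩, _⟩ := hS x z y z (Ne.symm hzx) (Ne.symm hzy)
    exact ⟨g, by exact_mod_cast h3, h4, h5⟩
  choose! f hf1 hf2 hf3 using hex
  have hcard : ((univ.erase x).erase y).card ≤ (((thr S (x, y)).erase g₁).erase g₂).card := by
    refine card_le_card_of_injOn f ?_ ?_
    · intro z hz
      have hz' : z ∈ (univ.erase x).erase y := by exact_mod_cast hz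
      simp only [mem_erase, mem_univ, and_true] at hz'
      have h3 : f z ∈ ((thr S (x, y)).erase g₁).erase g₂ := by
        simp only [mem_erase, mem_thr]
        refine ⟨?_, ?_, hf1 z hz'.2 hz'.1, hf2 z hz'.2 hz'.1⟩
        · intro h
          apply f₂ z
          rw [← h]
          exact hf3 z hz'.2 hz'.1
        · intro h
          apply f₁ z
          rw [← h]
          exact hf3 z hz'.2 hz'.1
      exact_mod_cast h3
    · intro z hz w hw hzw
      have hz' : z ∈ (univ.erase x).erase y := by exact_mod_cast hz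
      have hw' : w ∈ (univ.erase x).erase y := by exact_mod_cast hw
      simp only [mem_erase, mem_univ, and_true] at hz' hw'
      by_contra hne2
      have h3 : f z = 1 := by
        apply eq_one hG (by simpa [hSdef] using hf1 z hz'.2 hz'.1) hne2 (hf3 z hz'.2 hz'.1)
        rw [hzw]
        exact hf3 w hw'.2 hw'.1
      have h4 := hf2 z hz'.2 hz'.1
      rw [h3] at h4
      exact hxy h4
  have e1 : g₁ ∈ thr S (x, y) := mem_thr.2 ⟨by simpa [hSdef] using h₁, rfl⟩
  have e2 : g₂ ∈ (thr S (x, y)).erase g₁ :=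
    mem_erase.2 ⟨Ne.symm hne, mem_thr.2 ⟨by simpa [hSdef] using h₂, hx.symm⟩⟩
  rw [card_erase_of_mem e2, card_erase_of_mem e1, card_thr hS hn,
    card_erase_of_mem (by simp [hxy.symm]), card_erase_of_mem (mem_univ _), card_univ] at hcard
  have h5 : 0 < (((thr S (x, y)).erase g₁)).card := card_pos.2 ⟨_, e2⟩
  rw [card_erase_of_mem e1, card_thr hS hn] at h5
  omega

theorem fpf_conj (hn : 2 ≤ Fintype.card Ω) {g g' : Perm Ω} (h₁ : g ∈ G) (h₂ : g' ∈ G)
    (f₁ : ∀ a, g a ≠ a) (f₂ : ∀ a, g' a ≠ a) : orderOf g = orderOf g' := by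
  have hne : Nonempty Ω := Fintype.card_pos_iff.1 (by omega)
  obtain ⟨x⟩ := hne
  obtain ⟨h, ⟨h3, h4, h5⟩, _⟩ := hG x (g' x) x (g x) (f₂ x).symm (f₁ x).symm
  have h3' : h ∈ G := h3
  have h6 : h * g' * h⁻¹ ∈ G := G.mul_mem (G.mul_mem h3' h₂) (G.inv_mem h3')
  have h7 : g = h * g' * h⁻¹ := by
    refine fpf_unique hG hn h₁ h6 f₁ ?_ (x := x) ?_
    · intro a ha
      apply f₂ (h⁻¹ a)
      have h8 : h (g' (h⁻¹ a)) = a := ha
      rw [Perm.eq_inv_iff_eq]
      exact h8
    · have h8 : h⁻¹ x = x := by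
        rw [Perm.inv_eq_iff_eq]
        exact h4.symm
      show g x = h (g' (h⁻¹ x))
      rw [h8, h5]
  rw [h7]
  refine (SemiconjBy.orderOf_eq h ?_).symm
  show h * g' = h * g' * h⁻¹ * h
  rw [inv_mul_cancel_right]

theorem exists_fpf (hn : 2 ≤ Fintype.card Ω) {p : ℕ} (hp : p.Prime) (hpn : p ∣ Fintype.card Ω) :
    ∃ g ∈ G, orderOf g = p ∧ ∀ a, g a ≠ a := by
  have : Fact p.Prime := ⟨hp⟩
  set S : Finset (Perm Ω) := univ.filter fun g => g ∈ G with hSdef
  have hS : Sharp (S : Set (Perm Ω)) := by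
    have : (S : Set (Perm Ω)) = G := by
      ext g
      simp [hSdef]
    rw [this]
    exact hG
  have h1 : Nat.card G = Fintype.card Ω * (Fintype.card Ω - 1) := by
    rw [← card_eq hS hn, Nat.card_eq_fintype_card, hSdef, ← Fintype.card_subtype]
  obtain ⟨g, hg⟩ := exists_prime_orderOf_dvd_card' (G := G) p (by
    rw [h1]; exact Dvd.dvd.mul_right hpn _)
  refine ⟨g, g.2, ?_, ?_⟩
  · rw [Subgroup.orderOf_coe]
    exact hg
  · intro a ha
    have hpow : (g : Perm Ω) ^ p ^ 1 = 1 := by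
      rw [pow_one, ← hg, ← Subgroup.orderOf_coe]
      exact pow_orderOf_eq_one _
    obtain ⟨b, hb1, hb2⟩ := Perm.exists_fixed_point_of_prime' hpn hpow ha
    have h2 := eq_one hG g.2 hb2 hb1 ha
    have h3 : orderOf (g : Perm Ω) = p := by
      rw [Subgroup.orderOf_coe]
      exact hg
    rw [h2, orderOf_one] at h3
    exact hp.one_lt.ne h3

/-- The degree of a sharply 2-transitive group is a prime power. -/
theorem isPrimePow_of_group (hn : 2 ≤ Fintype.card Ω) : IsPrimePow (Fintype.card Ω) := by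
  rw [isPrimePow_iff_unique_prime_dvd]
  refine ⟨(Fintype.card Ω).minFac, ⟨Nat.minFac_prime (by omega), Nat.minFac_dvd _⟩, ?_⟩
  rintro p ⟨hp, hpn⟩
  obtain ⟨g, hg1, hg2, hg3⟩ := exists_fpf hG hn hp hpn
  obtain ⟨g', hg1', hg2', hg3'⟩ := exists_fpf hG hn (Nat.minFac_prime (by omega))
    (Nat.minFac_dvd (Fintype.card Ω))
  rw [← hg2, ← hg2']
  exact fpf_conj hG hn hg1 hg1' hg3 hg3'

end group

/-- The translate of a sharply 2-transitive set. -/
noncomputable def lmul (α : Perm Ω) (S : Finset (Perm Ω)) : Finset (Perm Ω) :=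
  S.image fun β => α * β

theorem mem_lmul {α σ : Perm Ω} {S : Finset (Perm Ω)} : σ ∈ lmul α S ↔ α⁻¹ * σ ∈ S := by
  unfold lmul
  rw [mem_image]
  constructor
  · rintro ⟨β, hβ, rfl⟩
    simpa using hβ
  · intro h
    exact ⟨_, h, by simp⟩

theorem card_lmul (α : Perm Ω) (S : Finset (Perm Ω)) : (lmul α S).card = S.card :=
  card_image_of_injective _ (mul_right_injective α)

theorem Sharp.lmul {S : Finset (Perm Ω)} (hS : Sharp (S : Set (Perm Ω))) (α : Perm Ω) :
    Sharp (lmul α S : Set (Perm Ω)) := by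
  intro a b c d hab hcd
  obtain ⟨σ, ⟨h1, h2, h3⟩, h4⟩ := hS a b (α⁻¹ c) (α⁻¹ d) hab (fun h => hcd (α⁻¹.injective h))
  refine ⟨α * σ, ⟨?_, ?_, ?_⟩, ?_⟩
  · have : α * σ ∈ ST.lmul α S := by
      rw [mem_lmul]
      simpa using h1
    exact_mod_cast this
  · rw [Perm.mul_apply, h2]
    exact α.apply_symm_apply c
  · rw [Perm.mul_apply, h3]
    exact α.apply_symm_apply d
  · rintro τ ⟨h5, h6, h7⟩
    have h5' : α⁻¹ * τ ∈ S := mem_lmul.1 (by exact_mod_cast h5)
    have h8 := h4 (α⁻¹ * τ) ⟨by exact_mod_cast h5', by rw [Perm.mul_apply, h6],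
      by rw [Perm.mul_apply, h7]⟩
    rw [← h8, mul_inv_cancel_left]

/-- The pairs of members of `S` whose product is not in `S`. -/
noncomputable def badPairs (S : Finset (Perm Ω)) : Finset (Perm Ω × Perm Ω) :=
  (S ×ˢ S).filter fun p => p.1 * p.2 ∉ S

theorem card_bad (S : Finset (Perm Ω)) :
    (badPairs S).card = ∑ α ∈ S, (lmul α S \ S).card := by
  unfold badPairs
  rw [card_filter, sum_product]
  apply sum_congr rfl
  intro α _
  rw [← card_filter]
  refine card_bij (fun β _ => α * β) ?_ ?_ ?_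
  · intro β hβ
    rw [mem_filter] at hβ
    rw [mem_sdiff, mem_lmul]
    exact ⟨by simpa using hβ.1, hβ.2⟩
  · intro β _ γ _ h
    exact mul_left_cancel h
  · intro σ hσ
    rw [mem_sdiff, mem_lmul] at hσ
    refine ⟨α⁻¹ * σ, ?_, by simp⟩
    rw [mem_filter]
    exact ⟨hσ.1, by simpa using hσ.2⟩

/-- If `S` is a sharply 2-transitive set which contains `1` and is not a group, then many products
are not in `S`. -/
theorem bad_bound {S : Finset (Perm Ω)} (hS : Sharp (S : Set (Perm Ω))) (h1 : 1 ∈ S)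
    (hn : 9 ≤ Fintype.card Ω) (hng : ¬ ∃ G : Subgroup (Perm Ω), (G : Set (Perm Ω)) = S) :
    ((Fintype.card Ω : ℝ) * (Fintype.card Ω - 1) / 2) *
      ((Fintype.card Ω : ℝ) * (Real.sqrt (Fintype.card Ω) - 1)) ≤ (badPairs S).card := by
  set G : Subgroup (Perm Ω) :=
    { carrier := {α | lmul α S = S}
      mul_mem' := by
        intro α β hα hβ
        simp only [Set.mem_ofPred_eq] at hα hβ ⊢
        ext σ
        rw [mem_lmul]
        rw [Finset.ext_iff] at hα hβ
        have h2 := hβ (α⁻¹ * σ)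
        have h3 := hα σ
        rw [mem_lmul] at h2 h3
        rw [← h3, ← h2, mul_inv_rev, mul_assoc]
      one_mem' := by
        simp only [Set.mem_ofPred_eq]
        ext σ
        rw [mem_lmul]
        simp
      inv_mem' := by
        intro α hα
        simp only [Set.mem_ofPred_eq] at hα ⊢
        ext σ
        rw [mem_lmul]
        rw [Finset.ext_iff] at hα
        have h2 := hα (α * σ)
        rw [mem_lmul] at h2
        simp only [inv_inv]
        rw [← h2]
        simp } with hGdef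
  have hGS : ∀ α ∈ G, α ∈ S := by
    intro α hα
    have h2 : lmul α S = S := hα
    rw [← h2, mem_lmul]
    simpa using h1
  obtain ⟨s, hs, hsG⟩ : ∃ s ∈ S, s ∉ G := by
    by_contra h
    push Not at h
    apply hng
    refine ⟨G, ?_⟩
    ext α
    exact ⟨fun h2 => by exact_mod_cast hGS α h2, fun h2 => h α (by exact_mod_cast h2)⟩
  set Gf : Finset (Perm Ω) := S.filter fun α => α ∈ G with hGf
  have hmemGf : ∀ α, α ∈ Gf ↔ α ∈ G := by
    intro α
    rw [hGf, mem_filter]
    exact ⟨fun h => h.2, fun h => ⟨hGS α h, h⟩⟩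
  have hhalf : 2 * Gf.card ≤ S.card := by
    have h2 : Disjoint Gf (Gf.image fun α => α * s) := by
      rw [Finset.disjoint_left]
      intro α hα hα2
      rw [mem_image] at hα2
      obtain ⟨β, hβ, rfl⟩ := hα2
      rw [hmemGf] at hα hβ
      apply hsG
      have := G.mul_mem (G.inv_mem hβ) hα
      simpa using this
    have h3 : Gf ∪ (Gf.image fun α => α * s) ⊆ S := by
      intro α hα
      rw [mem_union, mem_image] at hα
      rcases hα with hα | ⟨β, hβ, rfl⟩
      · exact (mem_filter.1 hα).1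
      · rw [hmemGf] at hβ
        have h4 : lmul β S = S := hβ
        rw [← h4, mem_lmul]
        simpa using hs
    have h4 := card_le_card h3
    rw [card_union_of_disjoint h2, card_image_of_injective _ (mul_left_injective s)] at h4
    omega
  rw [card_bad]
  have h2 : ∀ α ∈ S \ Gf, (Fintype.card Ω : ℝ) * (Real.sqrt (Fintype.card Ω) - 1) ≤
      ((lmul α S \ S).card : ℝ) := by
    intro α hα
    rw [mem_sdiff, hmemGf] at hα
    refine dist_bound hS (hS.lmul α) hn ?_
    intro h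
    exact hα.2 h.symm
  have hdpos : 0 ≤ (Fintype.card Ω : ℝ) * (Real.sqrt (Fintype.card Ω) - 1) := by
    have h3 : (1 : ℝ) ≤ Real.sqrt (Fintype.card Ω) := by
      rw [Real.one_le_sqrt]
      exact_mod_cast (by omega : 1 ≤ Fintype.card Ω)
    have h4 : (0 : ℝ) ≤ Fintype.card Ω := by positivity
    exact mul_nonneg h4 (by linarith)
  have h3 := card_nsmul_le_sum _ _ _ h2
  rw [nsmul_eq_mul] at h3
  have h4 : ∑ α ∈ S \ Gf, ((lmul α S \ S).card : ℝ) ≤ ((∑ α ∈ S, (lmul α S \ S).card : ℕ) : ℝ) := by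
    rw [Nat.cast_sum]
    exact sum_le_sum_of_subset_of_nonneg sdiff_subset (fun _ _ _ => by positivity)
  refine le_trans ?_ (h3.trans h4)
  apply mul_le_mul_of_nonneg_right _ hdpos
  have h5 : (S \ Gf).card + Gf.card = S.card :=
    card_sdiff_add_card_eq_card (filter_subset _ _)
  have h6 : S.card ≤ 2 * (S \ Gf).card := by omega
  have h7 : (S.card : ℝ) ≤ 2 * (S \ Gf).card := by exact_mod_cast h6
  have h8 : (S.card : ℝ) = Fintype.card Ω * (Fintype.card Ω - 1) := by
    rw [card_eq hS (by omega), Nat.cast_mul, Nat.cast_sub (by omega), Nat.cast_one]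
  rw [← h8]
  linarith

end Pool.Agent.N606.ST
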