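import Pool.Agent.N606.ST.PDefs

/-!
# Two projective planes on one point set
-/

set_option autoImplicit false

namespace Pool.Agent.N606.ST

open Finset

variable {V : Type} [Fintype V] [DecidableEq V] {n : ℕ}

/-- the blocks of `B` through `x` -/
def thru (B : Finset (Finset V)) (x : V) : Finset (Finset V) := B.filter fun b => x ∈ b

omit [Fintype V] in
theorem mem_thru {B : Finset (Finset V)} {x : V} {b : Finset V} :
    b ∈ thru B x ↔ b ∈ B ∧ x ∈ b := by simp [thru]

section one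

variable {B : Finset (Finset V)} (h : Plane n B)

include h

omit [DecidableEq V] in
theorem Plane.eq {b c : Finset V} (hb : b ∈ B) (hc : c ∈ B) {x y : V} (hxy : x ≠ y) (h1 : x ∈ b)
    (h2 : y ∈ b) (h3 : x ∈ c) (h4 : y ∈ c) : b = c := by
  obtain ⟨d, _, hd⟩ := h.2.2 x y hxy
  rw [hd b ⟨hb, h1, h2⟩, hd c ⟨hc, h3, h4⟩]

omit [DecidableEq V] in
theorem Plane.join {x y : V} (hxy : x ≠ y) : ∃ b ∈ B, x ∈ b ∧ y ∈ b := by
  obtain ⟨d, ⟨h1, h2⟩, _⟩ := h.2.2 x y hxy
  exact ⟨d, h1, h2⟩

theorem Plane.card_thru (hn : 1 ≤ n) (x : V) : (thru B x).card = n + 1 := by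
  have h1 : (univ.erase x : Finset V) = (thru B x).biUnion fun b => b.erase x := by
    ext y
    simp only [mem_erase, mem_univ, and_true, mem_biUnion, mem_thru]
    constructor
    · intro hy
      obtain ⟨b, h1, h2, h3⟩ := h.join (Ne.symm hy)
      exact ⟨b, ⟨h1, h2⟩, hy, h3⟩
    · rintro ⟨b, _, hy, _⟩
      exact hy
  have h2 : ((thru B x).biUnion fun b => b.erase x).card = ∑ b ∈ thru B x, (b.erase x).card := by
    apply card_biUnion
    intro b hb c hc hbc
    rw [Function.onFun, Finset.disjoint_left]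
    intro y h1 h2
    rw [mem_coe, mem_thru] at hb hc
    rw [mem_erase] at h1 h2
    exact hbc (h.eq hb.1 hc.1 h1.1 h1.2 hb.2 h2.2 hc.2)
  have h3 : ∑ b ∈ thru B x, (b.erase x).card = ∑ b ∈ thru B x, n := by
    apply sum_congr rfl
    intro b hb
    rw [mem_thru] at hb
    rw [card_erase_of_mem hb.2, h.2.1 b hb.1]
    rfl
  rw [h3, sum_const, smul_eq_mul] at h2
  rw [← h1, card_erase_of_mem (mem_univ _), card_univ, h.1] at h2
  have h4 : (n + 1) * n = (thru B x).card * n := by
    rw [← h2, Nat.add_sub_cancel]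
    ring
  exact (Nat.eq_of_mul_eq_mul_right (by omega) h4).symm

theorem Plane.meet (hn : 1 ≤ n) {b c : Finset V} (hb : b ∈ B) (hc : c ∈ B) :
    ∃ x, x ∈ b ∧ x ∈ c := by
  by_cases hbc : b = c
  · subst hbc
    have h1 : 0 < b.card := by rw [h.2.1 b hb]; omega
    obtain ⟨x, hx⟩ := card_pos.1 h1
    exact ⟨x, hx, hx⟩
  · obtain ⟨x, hx⟩ : (b \ c).Nonempty := by
      rw [sdiff_nonempty]
      intro hs
      exact hbc (eq_of_subset_of_card_le hs (by rw [h.2.1 b hb, h.2.1 c hc]))
    rw [mem_sdiff] at hx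
    have hj : ∀ y ∈ c, ∃ d ∈ B, x ∈ d ∧ y ∈ d := by
      intro y hy
      apply h.join
      rintro rfl
      exact hx.2 hy
    choose! f hf1 hf2 hf3 using hj
    have h1 : c.image f ⊆ thru B x := by
      intro d hd
      rw [mem_image] at hd
      obtain ⟨y, hy, rfl⟩ := hd
      exact mem_thru.2 ⟨hf1 y hy, hf2 y hy⟩
    have h2 : (c.image f).card = c.card := by
      apply card_image_of_injOn
      intro y hy z hz hyz
      rw [mem_coe] at hy hz
      by_contra hne
      apply hx.2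
      have h3 : f y = c := by
        refine h.eq (hf1 y hy) hc hne (hf3 y hy) ?_ hy hz
        rw [hyz]
        exact hf3 z hz
      rw [← h3]
      exact hf2 y hy
    have h3 : c.image f = thru B x := by
      apply eq_of_subset_of_card_le h1
      rw [h2, h.card_thru hn, h.2.1 c hc]
    have h4 : b ∈ c.image f := by
      rw [h3]
      exact mem_thru.2 ⟨hb, hx.1⟩
    rw [mem_image] at h4
    obtain ⟨y, hy, h5⟩ := h4
    refine ⟨y, ?_, hy⟩
    rw [← h5]
    exact hf3 y hy

theorem Plane.inter_le {b c : Finset V} (hb : b ∈ B) (hc : c ∈ B) (hbc : b ≠ c) :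
    (b ∩ c).card ≤ 1 := by
  rw [card_le_one]
  intro x hx y hy
  by_contra hxy
  rw [mem_inter] at hx hy
  exact hbc (h.eq hb hc hxy hx.1 hy.1 hx.2 hy.2)

/-- There are as many blocks as points. -/
theorem Plane.card_eq (hn : 1 ≤ n) : B.card = n ^ 2 + n + 1 := by
  have h1 : ∑ b ∈ B, b.card = ∑ x : V, (thru B x).card := by
    simp only [card_eq_sum_ones, thru]
    simp only [sum_filter]
    rw [sum_comm]
    apply sum_congr rfl
    intro b _
    simp
  have h2 : ∑ b ∈ B, b.card = B.card * (n + 1) := by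
    rw [sum_congr rfl h.2.1, sum_const, smul_eq_mul]
  have h3 : ∑ x : V, (thru B x).card = (n ^ 2 + n + 1) * (n + 1) := by
    rw [sum_congr rfl (fun x _ => h.card_thru hn x), sum_const, smul_eq_mul, card_univ, h.1]
  rw [h2, h3] at h1
  exact Nat.eq_of_mul_eq_mul_right (by omega) h1

end one

section two

variable {B B' : Finset (Finset V)} (h : Plane n B) (h' : Plane n B')

include h h'

theorem thru_sdiff (hn : 1 ≤ n) (x : V) : (thru (B \ B') x).card = (thru (B' \ B) x).card := by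
  have h1 : thru (B \ B') x = thru B x \ thru B' x := by
    ext σ
    simp only [mem_thru, mem_sdiff]
    tauto
  have h2 : thru (B' \ B) x = thru B' x \ thru B x := by
    ext σ
    simp only [mem_thru, mem_sdiff]
    tauto
  rw [h1, h2]
  exact card_sdiff_comm ((h.card_thru hn x).trans (h'.card_thru hn x).symm)

theorem sdiff_card (hn : 1 ≤ n) : (B \ B').card = (B' \ B).card :=
  card_sdiff_comm ((h.card_eq hn).trans (h'.card_eq hn).symm)

/-- The block of `B` through two points of a block in `B' \ B` is not in `B'`. -/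
theorem exists_joinP {T : Finset V} (hT : T ∈ B' \ B) {x y : V} (hxy : x ≠ y) (hx : x ∈ T)
    (hy : y ∈ T) : ∃ b ∈ B \ B', x ∈ b ∧ y ∈ b := by
  rw [mem_sdiff] at hT
  obtain ⟨b, h1, h2, h3⟩ := h.join hxy
  refine ⟨b, mem_sdiff.2 ⟨h1, fun hb => ?_⟩, h2, h3⟩
  have := h'.eq hb hT.1 hxy h2 h3 hx hy
  rw [this] at h1
  exact hT.2 h1

theorem ineq1P {T : Finset V} (hT : T ∈ B' \ B) {M : ℕ} (hM : ∀ b ∈ B \ B', (b ∩ T).card ≤ M)
    {x : V} (hx : x ∈ T) : n ≤ (thru (B \ B') x).card * (M - 1) := by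
  have h1 : T.erase x ⊆ (thru (B \ B') x).biUnion fun b => (b ∩ T).erase x := by
    intro y hy
    rw [mem_erase] at hy
    obtain ⟨b, h2, h3, h4⟩ := exists_joinP h h' hT (Ne.symm hy.1) hx hy.2
    rw [mem_biUnion]
    exact ⟨b, mem_thru.2 ⟨h2, h3⟩, mem_erase.2 ⟨hy.1, mem_inter.2 ⟨h4, hy.2⟩⟩⟩
  calc n = (T.erase x).card := by
        rw [card_erase_of_mem hx, h'.2.1 T (mem_sdiff.1 hT).1]
        rfl
    _ ≤ _ := card_le_card h1
    _ ≤ ∑ b ∈ thru (B \ B') x, ((b ∩ T).erase x).card := card_biUnion_le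
    _ ≤ ∑ b ∈ thru (B \ B') x, (M - 1) := by
        apply sum_le_sum
        intro b hb
        rw [mem_thru] at hb
        rw [card_erase_of_mem (mem_inter.2 ⟨hb.2, hx⟩)]
        have := hM b hb.1
        omega
    _ = _ := by rw [sum_const, smul_eq_mul]

theorem ineq2P {T m : Finset V} (hT : T ∈ B' \ B) (hm : m ∈ B \ B') {x : V} (hx : x ∈ T)
    (hxm : x ∉ m) : (m ∩ T).card ≤ (thru (B \ B') x).card := by
  have hj : ∀ y ∈ m ∩ T, ∃ b ∈ B \ B', x ∈ b ∧ y ∈ b := by
    intro y hy
    rw [mem_inter] at hy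
    apply exists_joinP h h' hT _ hx hy.2
    rintro rfl
    exact hxm hy.1
  choose! f hf1 hf2 hf3 using hj
  refine card_le_card_of_injOn f ?_ ?_
  · intro y hy
    exact_mod_cast mem_thru.2 ⟨hf1 y (by exact_mod_cast hy), hf2 y (by exact_mod_cast hy)⟩
  · intro y hy z hz hyz
    by_contra hne
    have hy' : y ∈ m ∩ T := by exact_mod_cast hy
    have hz' : z ∈ m ∩ T := by exact_mod_cast hz
    have h1 : f y = m := by
      refine h.eq (mem_sdiff.1 (hf1 y hy')).1 (mem_sdiff.1 hm).1 hne (hf3 y hy') ?_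
        (mem_inter.1 hy').1 (mem_inter.1 hz').1
      rw [hyz]
      exact hf3 z hz'
    apply hxm
    rw [← h1]
    exact hf2 y hy'

theorem ineq3P (hn : 1 ≤ n) {T : Finset V} (hT : T ∈ B' \ B) :
    1 + ∑ x ∈ T, ((thru (B \ B') x).card - 1) ≤ (B' \ B).card := by
  have h1 : (T.biUnion fun x => (thru (B' \ B) x).erase T) ⊆ (B' \ B).erase T := by
    intro b hb
    simp only [mem_biUnion, mem_erase, mem_thru] at hb ⊢
    obtain ⟨x, _, h1, h2, _⟩ := hb
    exact ⟨h1, h2⟩
  have h2 : (T.biUnion fun x => (thru (B' \ B) x).erase T).card =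
      ∑ x ∈ T, ((thru (B' \ B) x).erase T).card := by
    apply card_biUnion
    intro x hx y hy hxy
    rw [Function.onFun, Finset.disjoint_left]
    intro b h1 h2
    rw [mem_coe] at hx hy
    rw [mem_erase, mem_thru] at h1 h2
    exact h1.1 (h'.eq (mem_sdiff.1 h1.2.1).1 (mem_sdiff.1 hT).1 hxy h1.2.2 h2.2.2 hx hy)
  have h3 := card_le_card h1
  rw [h2, card_erase_of_mem hT] at h3
  have h4 : 0 < (B' \ B).card := card_pos.2 ⟨T, hT⟩
  have h5 : ∑ x ∈ T, ((thru (B' \ B) x).erase T).card =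
      ∑ x ∈ T, ((thru (B \ B') x).card - 1) := by
    apply sum_congr rfl
    intro x hx
    rw [card_erase_of_mem (mem_thru.2 ⟨hT, hx⟩), thru_sdiff h h' hn]
  rw [h5] at h3
  omega

/-- If a block `T` of `B' \ B` meets every block of `B \ B'` in at most `n + 1 - √n` points, the
planes differ in at least `1 + √n (n + 1 - √n)` blocks. -/
theorem bound12P (hn : 4 ≤ n) {T m : Finset V} (hT : T ∈ B' \ B) (hm : m ∈ B \ B')
    (hM : ∀ b ∈ B \ B', (b ∩ T).card ≤ (m ∩ T).card) {r : ℝ} (hr : 0 ≤ r)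
    (hr2 : r * r = n) (hMr : ((m ∩ T).card : ℝ) ≤ n + 1 - r) :
    1 + r * (n + 1 - r) ≤ (B' \ B).card := by
  set M := (m ∩ T).card with hMdef
  have hn' : (4 : ℝ) ≤ n := by exact_mod_cast hn
  have hr1 : 2 ≤ r := by nlinarith
  have hTc : T.card = n + 1 := h'.2.1 T (mem_sdiff.1 hT).1
  have i1 : ∀ x ∈ T, n ≤ (thru (B \ B') x).card * (M - 1) := fun x hx => ineq1P h h' hT hM hx
  have hM2 : 2 ≤ M := by
    obtain ⟨x, hx⟩ : T.Nonempty := card_pos.1 (by omega)
    have h1 := i1 x hx
    by_contra h2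
    have h3 : M - 1 = 0 := by omega
    rw [h3, Nat.mul_zero] at h1
    omega
  have hM2' : (2 : ℝ) ≤ M := by exact_mod_cast hM2
  have hd1 : ∀ x ∈ T, 1 ≤ (thru (B \ B') x).card := by
    intro x hx
    have h1 := i1 x hx
    rcases Nat.eq_zero_or_pos (thru (B \ B') x).card with h0 | h0
    · rw [h0, Nat.zero_mul] at h1
      omega
    · exact h0
  have i1r : ∀ x ∈ T, (n : ℝ) ≤ (thru (B \ B') x).card * ((M : ℝ) - 1) := by
    intro x hx
    have h1 : (n : ℝ) ≤ (((thru (B \ B') x).card * (M - 1) : ℕ) : ℝ) := by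
      exact_mod_cast i1 x hx
    rw [Nat.cast_mul, Nat.cast_sub (by omega)] at h1
    exact_mod_cast h1
  have i3 : 1 + ∑ x ∈ T, (((thru (B \ B') x).card : ℝ) - 1) ≤ (B' \ B).card := by
    have h1 := ineq3P h h' (by omega) hT
    have h2 : ((1 + ∑ x ∈ T, ((thru (B \ B') x).card - 1) : ℕ) : ℝ) ≤ (B' \ B).card := by
      exact_mod_cast h1
    rw [Nat.cast_add, Nat.cast_one, Nat.cast_sum] at h2
    refine le_trans (le_of_eq ?_) h2
    congr 1
    apply sum_congr rfl
    intro x hx
    rw [Nat.cast_sub (hd1 x hx), Nat.cast_one]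
  rcases le_total (M : ℝ) r with hcase | hcase
  · have h1 : ∀ x ∈ T, r ≤ ((thru (B \ B') x).card : ℝ) - 1 := by
      intro x hx
      have h2 := i1r x hx
      by_contra h3
      push Not at h3
      have h4 : ((thru (B \ B') x).card : ℝ) < r + 1 := by linarith
      nlinarith
    have h2 := card_nsmul_le_sum T _ _ h1
    rw [nsmul_eq_mul, hTc] at h2
    push_cast at h2
    nlinarith
  · have hsplit : ∑ x ∈ T, (((thru (B \ B') x).card : ℝ) - 1) =
        ∑ x ∈ m ∩ T, (((thru (B \ B') x).card : ℝ) - 1) +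
        ∑ x ∈ T \ m, (((thru (B \ B') x).card : ℝ) - 1) := by
      rw [← sum_inter_add_sum_sdiff T m, inter_comm T m]
    have hc2 : (T \ m).card = n + 1 - M := by
      have h1 := card_sdiff_add_card_inter T m
      rw [inter_comm T m, ← hMdef, hTc] at h1
      omega
    have hMle : M ≤ n + 1 := by
      rw [← hTc]
      exact card_le_card inter_subset_right
    have hMle' : (M : ℝ) ≤ n + 1 := by exact_mod_cast hMle
    have h2 : ((n : ℝ) + 1 - M) * (M - 1) ≤
        ∑ x ∈ T \ m, (((thru (B \ B') x).card : ℝ) - 1) := by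
      have h3 : ∀ x ∈ T \ m, (M : ℝ) - 1 ≤ ((thru (B \ B') x).card : ℝ) - 1 := by
        intro x hx
        rw [mem_sdiff] at hx
        have : (M : ℝ) ≤ (thru (B \ B') x).card := by
          exact_mod_cast ineq2P h h' hT hm hx.1 hx.2
        linarith
      have h4 := card_nsmul_le_sum _ _ _ h3
      rw [hc2, nsmul_eq_mul, Nat.cast_sub hMle] at h4
      push_cast at h4
      exact h4
    have h5 : (n : ℝ) + 1 - M ≤ ∑ x ∈ m ∩ T, (((thru (B \ B') x).card : ℝ) - 1) := by
      have h6 : ∀ x ∈ m ∩ T, ((n : ℝ) + 1 - M) / (M - 1) ≤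
          ((thru (B \ B') x).card : ℝ) - 1 := by
        intro x hx
        rw [div_le_iff₀ (by linarith)]
        have := i1r x (mem_inter.1 hx).2
        linarith
      have h7 := card_nsmul_le_sum _ _ _ h6
      rw [nsmul_eq_mul] at h7
      refine le_trans ?_ h7
      rw [mul_div_assoc', le_div_iff₀ (by linarith)]
      nlinarith
    have h8 : 0 ≤ ((M : ℝ) - r) * (n + 1 - r - M) := mul_nonneg (by linarith) (by linarith)
    nlinarith

omit h in
/-- Bonferroni's inequality. -/
theorem bonfP (K : Finset V) (x : ℝ) (hK : ∀ p ∈ K, x ≤ (thru (B' \ B) p).card) :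
    (K.card : ℝ) * x - K.card * (K.card - 1) / 2 ≤ ((K.biUnion fun p => thru (B' \ B) p).card : ℝ) := by
  induction K using Finset.induction_on with
  | empty => simp
  | insert p K hp ih =>
    have ih' := ih (fun q hq => hK q (mem_insert_of_mem hq))
    rw [biUnion_insert, card_insert_of_notMem hp]
    have h1 : (thru (B' \ B) p ∩ K.biUnion fun p => thru (B' \ B) p).card ≤ K.card := by
      have h2 : (thru (B' \ B) p ∩ K.biUnion fun p => thru (B' \ B) p) ⊆
          K.biUnion fun q => thru (B' \ B) p ∩ thru (B' \ B) q := by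
        intro σ hσ
        rw [mem_inter, mem_biUnion] at hσ
        obtain ⟨h3, q, h4, h5⟩ := hσ
        exact mem_biUnion.2 ⟨q, h4, mem_inter.2 ⟨h3, h5⟩⟩
      refine (card_le_card h2).trans (card_biUnion_le.trans ?_)
      have h3 : ∀ q ∈ K, (thru (B' \ B) p ∩ thru (B' \ B) q).card ≤ 1 := by
        intro q hq
        rw [card_le_one]
        intro σ hσ τ hτ
        rw [mem_inter, mem_thru, mem_thru, mem_sdiff] at hσ hτ
        have hne : p ≠ q := by
          rintro rfl
          exact hp hq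
        exact h'.eq hσ.1.1.1 hτ.1.1.1 hne hσ.1.2 hσ.2.2 hτ.1.2 hτ.2.2
      calc ∑ q ∈ K, (thru (B' \ B) p ∩ thru (B' \ B) q).card ≤ ∑ q ∈ K, 1 := sum_le_sum h3
        _ = K.card := by simp
    have h4 := card_union_add_card_inter (thru (B' \ B) p) (K.biUnion fun p => thru (B' \ B) p)
    have h5 : ((thru (B' \ B) p ∪ K.biUnion fun p => thru (B' \ B) p).card : ℝ) +
        (thru (B' \ B) p ∩ K.biUnion fun p => thru (B' \ B) p).card =
        (thru (B' \ B) p).card + (K.biUnion fun p => thru (B' \ B) p).card := by exact_mod_cast h4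
    have h6 : ((thru (B' \ B) p ∩ K.biUnion fun p => thru (B' \ B) p).card : ℝ) ≤ K.card := by
      exact_mod_cast h1
    have h7 := hK p (mem_insert_self _ _)
    push_cast
    linarith

end two

end Pool.Agent.N606.ST
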