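import Pool.Agent.N606.ST.Andre
import Pool.Agent.N606.ST.Planes

/-!
# Two planes of order `q ^ 2` that differ in `q ^ 3 + q ^ 2` lines
-/

set_option autoImplicit false

namespace Pool.Agent.N606.ST

open Equiv Finset

section

variable {F : Type} [Field F] [Fintype F] [DecidableEq F]

/-- the points -/
abbrev Pt (F : Type) : Type := (F × F) ⊕ Option F

/-- the lines with an equation `y = f a x + b` -/
def Lg (f : F → F → F) (a b : F) : Finset (Pt F) :=
  insert (Sum.inr (some a)) (univ.image fun x : F => Sum.inl (x, f a x + b))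

/-- the vertical lines -/
def Lv (c : F) : Finset (Pt F) := insert (Sum.inr none) (univ.image fun y : F => Sum.inl (c, y))

/-- the line at infinity -/
def Li (F : Type) [Field F] [Fintype F] [DecidableEq F] : Finset (Pt F) :=
  univ.image fun o : Option F => Sum.inr o

/-- the plane -/
def PB (f : F → F → F) : Finset (Finset (Pt F)) :=
  (univ.image fun p : F × F => Lg f p.1 p.2) ∪ (univ.image (Lv (F := F))) ∪ {Li F}

theorem mem_PB {f : F → F → F} {b : Finset (Pt F)} :
    b ∈ PB f ↔ (∃ u v, b = Lg f u v) ∨ (∃ c, b = Lv c) ∨ b = Li F := by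
  unfold PB
  simp only [mem_union, mem_image, mem_univ, true_and, Prod.exists, mem_singleton]
  constructor
  · rintro ((⟨u, v, h⟩ | ⟨c, h⟩) | h)
    · exact Or.inl ⟨u, v, h.symm⟩
    · exact Or.inr (Or.inl ⟨c, h.symm⟩)
    · exact Or.inr (Or.inr h)
  · rintro (⟨u, v, h⟩ | ⟨c, h⟩ | h)
    · exact Or.inl (Or.inl ⟨u, v, h.symm⟩)
    · exact Or.inl (Or.inr ⟨c, h.symm⟩)
    · exact Or.inr h

@[simp] theorem inl_mem_Lg {f : F → F → F} {a b x y : F} :
    (Sum.inl (x, y) : Pt F) ∈ Lg f a b ↔ f a x + b = y := by
  unfold Lg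
  simp only [mem_insert, mem_image, mem_univ, true_and, reduceCtorEq, false_or, Sum.inl.injEq,
    Prod.mk.injEq]
  constructor
  · rintro ⟨z, rfl, h⟩
    exact h
  · intro h
    exact ⟨x, rfl, h⟩

@[simp] theorem inr_mem_Lg {f : F → F → F} {a b : F} {o : Option F} :
    (Sum.inr o : Pt F) ∈ Lg f a b ↔ o = some a := by
  unfold Lg
  simp

set_option linter.unusedSectionVars false in
@[simp] theorem inl_mem_Lv {c x y : F} : (Sum.inl (x, y) : Pt F) ∈ Lv c ↔ c = x := by
  unfold Lv
  simp

@[simp] theorem inr_mem_Lv {c : F} {o : Option F} : (Sum.inr o : Pt F) ∈ Lv c ↔ o = none := by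
  unfold Lv
  simp

@[simp] theorem inl_mem_Li {p : F × F} : (Sum.inl p : Pt F) ∉ Li F := by
  unfold Li
  simp

@[simp] theorem inr_mem_Li {o : Option F} : (Sum.inr o : Pt F) ∈ Li F := by
  unfold Li
  simp

/-- The plane of a family of functions. -/
theorem plane_PB {f : F → F → F}
    (hf : ∀ x x' : F, x ≠ x' → Function.Injective fun a => f a x - f a x') :
    Plane (Fintype.card F) (PB f) := by
  have hsurj : ∀ x x' : F, x ≠ x' → Function.Surjective fun a => f a x - f a x' :=
    fun x x' h => Finite.injective_iff_surjective.1 (hf x x' h)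
  refine ⟨?_, ?_, ?_⟩
  · simp only [Fintype.card_sum, Fintype.card_prod, Fintype.card_option]
    ring
  · intro b hb
    rw [mem_PB] at hb
    rcases hb with ⟨u, v, rfl⟩ | ⟨c, rfl⟩ | rfl
    · unfold Lg
      rw [card_insert_of_notMem (by simp), card_image_of_injective, card_univ]
      intro x y hxy
      simp only [Sum.inl.injEq, Prod.mk.injEq] at hxy
      exact hxy.1
    · unfold Lv
      rw [card_insert_of_notMem (by simp), card_image_of_injective, card_univ]
      intro x y hxy
      simp only [Sum.inl.injEq, Prod.mk.injEq] at hxy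
      exact hxy.2
    · unfold Li
      rw [card_image_of_injective _ Sum.inr_injective, card_univ, Fintype.card_option]
  · rintro (⟨x, y⟩ | o) (⟨x', y'⟩ | o') hne
    · by_cases hx : x = x'
      · subst hx
        refine ⟨Lv x, ⟨mem_PB.2 (Or.inr (Or.inl ⟨x, rfl⟩)), by simp, by simp⟩, ?_⟩
        rintro b ⟨hb, h1, h2⟩
        rw [mem_PB] at hb
        rcases hb with ⟨u, v, rfl⟩ | ⟨c, rfl⟩ | rfl
        · rw [inl_mem_Lg] at h1 h2
          exact absurd (by rw [← h1, ← h2]) hne
        · rw [inl_mem_Lv] at h1
          rw [h1]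
        · exact absurd h1 inl_mem_Li
      · obtain ⟨a, ha⟩ := hsurj x x' hx (y - y')
        simp only at ha
        refine ⟨Lg f a (y - f a x), ⟨mem_PB.2 (Or.inl ⟨a, _, rfl⟩), ?_, ?_⟩, ?_⟩
        · rw [inl_mem_Lg]; ring
        · rw [inl_mem_Lg]
          linear_combination -ha
        · rintro b ⟨hb, h1, h2⟩
          rw [mem_PB] at hb
          rcases hb with ⟨u, v, rfl⟩ | ⟨c, rfl⟩ | rfl
          · rw [inl_mem_Lg] at h1 h2
            have hu : u = a := by
              apply hf x x' hx
              simp only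
              rw [ha]
              linear_combination h1 - h2
            subst hu
            have hv : v = y - f u x := by linear_combination h1
            rw [hv]
          · rw [inl_mem_Lv] at h1 h2
            exact absurd (h1.symm.trans h2) hx
          · exact absurd h1 inl_mem_Li
    · cases o' with
      | none =>
        refine ⟨Lv x, ⟨mem_PB.2 (Or.inr (Or.inl ⟨x, rfl⟩)), by simp, by simp⟩, ?_⟩
        rintro b ⟨hb, h1, h2⟩
        rw [mem_PB] at hb
        rcases hb with ⟨u, v, rfl⟩ | ⟨c, rfl⟩ | rfl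
        · simp at h2
        · rw [inl_mem_Lv] at h1
          rw [h1]
        · exact absurd h1 inl_mem_Li
      | some a =>
        refine ⟨Lg f a (y - f a x), ⟨mem_PB.2 (Or.inl ⟨a, _, rfl⟩), by simp, by simp⟩, ?_⟩
        rintro b ⟨hb, h1, h2⟩
        rw [mem_PB] at hb
        rcases hb with ⟨u, v, rfl⟩ | ⟨c, rfl⟩ | rfl
        · rw [inr_mem_Lg, Option.some.injEq] at h2
          subst h2
          rw [inl_mem_Lg] at h1
          have hv : v = y - f a x := by linear_combination h1
          rw [hv]
        · simp at h2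
        · exact absurd h1 inl_mem_Li
    · cases o with
      | none =>
        refine ⟨Lv x', ⟨mem_PB.2 (Or.inr (Or.inl ⟨x', rfl⟩)), by simp, by simp⟩, ?_⟩
        rintro b ⟨hb, h1, h2⟩
        rw [mem_PB] at hb
        rcases hb with ⟨u, v, rfl⟩ | ⟨c, rfl⟩ | rfl
        · simp at h1
        · rw [inl_mem_Lv] at h2
          rw [h2]
        · exact absurd h2 inl_mem_Li
      | some a =>
        refine ⟨Lg f a (y' - f a x'), ⟨mem_PB.2 (Or.inl ⟨a, _, rfl⟩), by simp, by simp⟩, ?_⟩
        rintro b ⟨hb, h1, h2⟩
        rw [mem_PB] at hb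
        rcases hb with ⟨u, v, rfl⟩ | ⟨c, rfl⟩ | rfl
        · rw [inr_mem_Lg, Option.some.injEq] at h1
          subst h1
          rw [inl_mem_Lg] at h2
          have hv : v = y' - f a x' := by linear_combination h2
          rw [hv]
        · simp at h1
        · exact absurd h2 inl_mem_Li
    · refine ⟨Li F, ⟨mem_PB.2 (Or.inr (Or.inr rfl)), by simp, by simp⟩, ?_⟩
      rintro b ⟨hb, h1, h2⟩
      rw [mem_PB] at hb
      rcases hb with ⟨u, v, rfl⟩ | ⟨c, rfl⟩ | rfl
      · rw [inr_mem_Lg] at h1 h2
        exact absurd (by rw [h1, h2]) hne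
      · rw [inr_mem_Lv] at h1 h2
        exact absurd (by rw [h1, h2]) hne
      · rfl

variable {q : ℕ} (hq : Fintype.card F = q ^ 2) (hadd : ∀ x y : F, (x - y) ^ q = x ^ q - y ^ q)

/-- the family of the derived plane -/
def fH (q : ℕ) (a x : F) : F := if a ^ (q + 1) = 1 then a * x ^ q else a * x

include hq hadd in
theorem fH_inj (x x' : F) (hx : x ≠ x') : Function.Injective fun a => fH q a x - fH q a x' := by
  have hd : x - x' ≠ 0 := sub_ne_zero.2 hx
  have hval : ∀ a, fH q a x - fH q a x' =
      if a ^ (q + 1) = 1 then a * (x - x') ^ q else a * (x - x') := by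
    intro a
    unfold fH
    split_ifs
    · rw [hadd]; ring
    · ring
  have hN : ((x - x') ^ q) ^ (q + 1) = (x - x') ^ (q + 1) := by
    rw [pow_succ ((x - x') ^ q) q, pow_q_q hq, pow_succ, mul_comm]
  have hdq : (x - x') ^ (q + 1) ≠ 0 := pow_ne_zero _ hd
  intro a a' h
  simp only at h
  rw [hval, hval] at h
  split_ifs at h with h1 h2 h2
  · exact mul_right_cancel₀ (pow_ne_zero _ hd) h
  · exfalso
    apply h2
    have h3 := congrArg (fun z => z ^ (q + 1)) h
    simp only [mul_pow, h1, hN] at h3
    rw [one_mul] at h3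
    have h4 : a' ^ (q + 1) * (x - x') ^ (q + 1) = 1 * (x - x') ^ (q + 1) := by
      rw [one_mul]; exact h3.symm
    exact mul_right_cancel₀ hdq h4
  · exfalso
    apply h1
    have h3 := congrArg (fun z => z ^ (q + 1)) h
    simp only [mul_pow, h2, hN] at h3
    rw [one_mul] at h3
    have h4 : a ^ (q + 1) * (x - x') ^ (q + 1) = 1 * (x - x') ^ (q + 1) := by
      rw [one_mul]; exact h3
    exact mul_right_cancel₀ hdq h4
  · exact mul_right_cancel₀ hd h

include hq in
/-- The lines of the second plane which are not lines of the first. -/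
theorem fH_diff : PB (fH (F := F) q) \ PB (fun a x : F => a * x) =
    ((univ.filter fun a : F => a ^ (q + 1) = 1) ×ˢ univ).image
      fun p : F × F => Lg (fH q) p.1 p.2 := by
  have hq2 := q_pos hq
  ext b
  rw [mem_sdiff, mem_PB, mem_PB, mem_image]
  constructor
  · rintro ⟨h1 | h1 | h1, h2⟩
    · obtain ⟨u, v, rfl⟩ := h1
      refine ⟨(u, v), ?_, rfl⟩
      rw [mem_product, mem_filter]
      refine ⟨⟨mem_univ _, ?_⟩, mem_univ _⟩
      by_contra hu
      apply h2
      refine Or.inl ⟨u, v, ?_⟩
      unfold Lg fH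
      simp only at hu
      simp [hu]
    · exact absurd (Or.inr (Or.inl h1)) h2
    · exact absurd (Or.inr (Or.inr h1)) h2
  · rintro ⟨⟨u, v⟩, h1, rfl⟩
    rw [mem_product, mem_filter] at h1
    have hu : u ^ (q + 1) = 1 := h1.1.2
    refine ⟨Or.inl ⟨u, v, rfl⟩, ?_⟩
    rintro (⟨u', v', h⟩ | ⟨c, h⟩ | h)
    · simp only at h
      have h2 : (Sum.inr (some u) : Pt F) ∈ Lg (fun a x : F => a * x) u' v' := by
        rw [← h]
        simp
      rw [inr_mem_Lg, Option.some.injEq] at h2
      subst h2
      have h3 : ∀ x, u * x + v' = u * x ^ q + v := by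
        intro x
        have h4 : (Sum.inl (x, u * x ^ q + v) : Pt F) ∈ Lg (fun a x : F => a * x) u v' := by
          rw [← h, inl_mem_Lg]
          unfold fH
          rw [if_pos hu]
        rwa [inl_mem_Lg] at h4
      obtain ⟨x, hx⟩ := exists_pow_ne hq
      apply hx
      have h5 := h3 0
      rw [zero_pow (by omega)] at h5
      have hu0 : u ≠ 0 := ne_zero_of_norm one_ne_zero hu
      apply mul_left_cancel₀ hu0
      linear_combination h5 - h3 x
    · have h2 : (Sum.inr (some u) : Pt F) ∈ Lv c := by
        rw [← h]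
        simp
      simp at h2
    · have h2 : (Sum.inl (0, fH q u 0 + v) : Pt F) ∈ Li F := by
        rw [← h]
        simp
      simp at h2

include hq in
theorem card_fH_diff :
    (PB (fH (F := F) q) \ PB (fun a x : F => a * x)).card = q ^ 3 + q ^ 2 := by
  rw [fH_diff hq, card_image_of_injective, card_product, card_norm_one hq, card_univ, hq]
  · ring
  · rintro ⟨u, v⟩ ⟨u', v'⟩ h
    simp only at h
    have h2 : (Sum.inr (some u) : Pt F) ∈ Lg (fH q) u' v' := by
      rw [← h]
      simp
    rw [inr_mem_Lg, Option.some.injEq] at h2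
    subst h2
    have h3 : (Sum.inl (0, fH q u 0 + v) : Pt F) ∈ Lg (fH q) u v' := by
      rw [← h]
      simp
    rw [inl_mem_Lg] at h3
    have : v' = v := add_left_cancel h3
    rw [this]

include hq in
/-- A new line meets every old line in at most `q + 1` points. -/
theorem inter_le_of_new {T m : Finset (Pt F)}
    (hT : T ∈ PB (fH (F := F) q) \ PB (fun a x : F => a * x))
    (hm : m ∈ PB (fun a x : F => a * x)) : (T ∩ m).card ≤ q + 1 := by
  have hq2 := q_pos hq
  rw [fH_diff hq, mem_image] at hT
  obtain ⟨⟨a, b⟩, h1, rfl⟩ := hT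
  rw [mem_product, mem_filter] at h1
  have ha : a ^ (q + 1) = 1 := h1.1.2
  have ha0 : a ≠ 0 := ne_zero_of_norm one_ne_zero ha
  rw [mem_PB] at hm
  rcases hm with ⟨u, v, rfl⟩ | ⟨c, rfl⟩ | rfl
  · -- the common points are roots of a polynomial of degree `q`
    set P : Polynomial F := Polynomial.C a * Polynomial.X ^ q - Polynomial.C u * Polynomial.X +
      Polynomial.C (b - v) with hP
    have hdeg : P.natDegree ≤ q := by
      rw [hP]
      compute_degree
      all_goals omega
    have hP0 : P ≠ 0 := by
      intro h0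
      have h1 : P.coeff q = 0 := by rw [h0]; simp
      rw [hP] at h1
      simp only [Polynomial.coeff_add, Polynomial.coeff_sub, Polynomial.coeff_C_mul,
        Polynomial.coeff_X_pow, Polynomial.coeff_X, Polynomial.coeff_C] at h1
      rw [if_pos trivial, if_neg (by omega), if_neg (by omega)] at h1
      simp at h1
      exact ha0 h1
    have h2 : Lg (fH q) a b ∩ Lg (fun a x : F => a * x) u v ⊆
        insert (Sum.inr (some a)) (P.roots.toFinset.image fun x => Sum.inl (x, a * x ^ q + b)) := by
      rintro (⟨x, y⟩ | o) hp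
      · rw [mem_inter, inl_mem_Lg, inl_mem_Lg] at hp
        obtain ⟨hp1, hp2⟩ := hp
        unfold fH at hp1
        rw [if_pos ha] at hp1
        rw [mem_insert, mem_image]
        refine Or.inr ⟨x, ?_, ?_⟩
        · rw [Multiset.mem_toFinset, Polynomial.mem_roots hP0, Polynomial.IsRoot, hP]
          simp only [Polynomial.eval_add, Polynomial.eval_sub, Polynomial.eval_mul,
            Polynomial.eval_C, Polynomial.eval_pow, Polynomial.eval_X]
          linear_combination hp1 - hp2
        · rw [hp1]
      · rw [mem_inter, inr_mem_Lg] at hp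
        rw [hp.1]
        exact mem_insert_self _ _
    refine (card_le_card h2).trans ((card_insert_le _ _).trans ?_)
    have h3 : (P.roots.toFinset.image fun x => (Sum.inl (x, a * x ^ q + b) : Pt F)).card ≤
        P.roots.toFinset.card := card_image_le
    have h4 := Multiset.toFinset_card_le P.roots
    have h5 := Polynomial.card_roots' P
    omega
  · have h2 : Lg (fH q) a b ∩ Lv c ⊆ {Sum.inl (c, fH q a c + b)} := by
      rintro (⟨x, y⟩ | o) hp
      · rw [mem_inter, inl_mem_Lg, inl_mem_Lv] at hp
        obtain ⟨hp1, rfl⟩ := hp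
        rw [mem_singleton, hp1]
      · rw [mem_inter, inr_mem_Lg, inr_mem_Lv] at hp
        rw [hp.1] at hp
        exact absurd hp.2 (by simp)
    have h3 := card_le_card h2
    rw [card_singleton] at h3
    exact h3.trans (by omega)
  · have h2 : Lg (fH q) a b ∩ Li F ⊆ {Sum.inr (some a)} := by
      rintro (⟨x, y⟩ | o) hp
      · rw [mem_inter] at hp
        exact absurd hp.2 inl_mem_Li
      · rw [mem_inter, inr_mem_Lg] at hp
        rw [mem_singleton, hp.1]
    have h3 := card_le_card h2
    rw [card_singleton] at h3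
    exact h3.trans (by omega)

end

/-- For every prime power `q` there are two planes of order `q ^ 2` on one point set which differ
in exactly `q ^ 3 + q ^ 2` lines, and every permutation that maps the first to the second moves at
least `q ^ 2 - q` points. -/
theorem exists_close_planes {q : ℕ} (hq : IsPrimePow q) :
    ∃ (V : Type) (_ : Fintype V) (_ : DecidableEq V) (B B' : Finset (Finset V)),
      Plane (q ^ 2) B ∧ Plane (q ^ 2) B' ∧ (B' \ B).card = q ^ 3 + q ^ 2 ∧
      ∀ g : Perm V, (B' = B.image fun b => b.image g) →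
        q ^ 2 - q ≤ (univ.filter fun x => g x ≠ x).card := by
  classical
  obtain ⟨F, hF, hF2, hc, hadd⟩ := exists_field hq
  have hq2 := q_pos hc
  have h1 : Plane (Fintype.card F) (PB (fun a x : F => a * x)) := by
    apply plane_PB
    intro x x' hx a a' h
    have hd : x - x' ≠ 0 := sub_ne_zero.2 hx
    apply mul_right_cancel₀ hd
    simp only at h
    linear_combination h
  have h2 : Plane (Fintype.card F) (PB (fH (F := F) q)) := plane_PB (fH_inj hc hadd)
  rw [hc] at h1 h2
  refine ⟨Pt F, inferInstance, inferInstance, PB (fun a x : F => a * x), PB (fH (F := F) q), h1, h2,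
    card_fH_diff hc, ?_⟩
  intro g hg
  have h3 : (PB (fH (F := F) q) \ PB (fun a x : F => a * x)).Nonempty := by
    rw [← card_pos, card_fH_diff hc]
    positivity
  obtain ⟨T, hT⟩ := h3
  have hT' := (mem_sdiff.1 hT).1
  rw [hg, mem_image] at hT'
  obtain ⟨m, hm, hmT⟩ := hT'
  have h4 := inter_le_of_new hc hT hm
  have h5 : m \ T ⊆ univ.filter fun x => g x ≠ x := by
    intro x hx
    rw [mem_sdiff] at hx
    rw [mem_filter]
    refine ⟨mem_univ _, fun he => hx.2 ?_⟩
    rw [← hmT, mem_image]
    exact ⟨x, hx.1, he⟩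
  have h6 := card_le_card h5
  have h7 := card_sdiff_add_card_inter m T
  rw [inter_comm, h1.2.1 m hm] at h7
  omega

end Pool.Agent.N606.ST
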