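import Pool.Agent.N606.ST.Group

/-!
# Sharply 2-transitive sets that are nearly closed under multiplication
-/

set_option autoImplicit false

namespace Pool.Agent.N606.ST

open Equiv Finset

open scoped Classical

set_option linter.unusedSectionVars false

variable {Ω : Type} [Fintype Ω] (S : Finset (Perm Ω))

/-- the distance of `S` and its translate -/
noncomputable def wt (g : Perm Ω) : ℕ := (lmul g S \ S).card

theorem wt_one : wt S 1 = 0 := by
  unfold wt
  rw [card_eq_zero, sdiff_eq_empty_iff_subset]
  intro σ hσ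
  rw [mem_lmul] at hσ
  simpa using hσ

theorem card_sdiff_lmul (g : Perm Ω) : (S \ lmul g S).card = wt S g := by
  unfold wt
  exact card_sdiff_comm (card_lmul g S).symm

theorem card_inter_lmul (g : Perm Ω) : (S ∩ lmul g S).card + wt S g = S.card := by
  rw [← card_sdiff_lmul, add_comm]
  exact card_sdiff_add_card_inter S (lmul g S)

theorem wt_le (g : Perm Ω) : wt S g ≤ S.card := by
  have := card_inter_lmul S g
  omega

theorem wt_inv (g : Perm Ω) : wt S g⁻¹ = wt S g := by
  rw [← card_sdiff_lmul S g]
  unfold wt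
  refine card_bij (fun σ _ => g * σ) ?_ ?_ ?_
  · intro σ hσ
    rw [mem_sdiff, mem_lmul, inv_inv] at hσ
    rw [mem_sdiff, mem_lmul, inv_mul_cancel_left]
    exact hσ
  · intro σ _ τ _ h
    exact mul_left_cancel h
  · intro σ hσ
    rw [mem_sdiff, mem_lmul] at hσ
    refine ⟨g⁻¹ * σ, ?_, by simp⟩
    rw [mem_sdiff, mem_lmul, inv_inv, mul_inv_cancel_left]
    exact hσ

theorem wt_mul (g h : Perm Ω) : wt S (g * h) ≤ wt S g + wt S h := by
  have h1 : lmul (g * h) S \ S ⊆ (lmul g S \ S) ∪ (lmul g (lmul h S \ S)) := by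
    intro σ hσ
    rw [mem_sdiff, mem_lmul] at hσ
    rw [mem_union, mem_sdiff, mem_lmul, mem_lmul, mem_sdiff, mem_lmul]
    by_cases h2 : g⁻¹ * σ ∈ S
    · exact Or.inl ⟨h2, hσ.2⟩
    · refine Or.inr ⟨?_, h2⟩
      have h3 := hσ.1
      rwa [mul_inv_rev, mul_assoc] at h3
  refine (card_le_card h1).trans ((card_union_le _ _).trans ?_)
  rw [card_lmul]
  rfl

theorem sum_wt : ∑ α ∈ S, wt S α = (badPairs S).card := (card_bad S).symm

/-- The main inequality. -/
theorem wt_ineq (g : Perm Ω) : wt S g * (S.card - wt S g) ≤ 2 * (badPairs S).card := by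
  have h1 := card_inter_lmul S g
  have h2 : S.card - wt S g = (S ∩ lmul g S).card := by omega
  rw [h2]
  have h3 : ∀ x ∈ S ∩ lmul g S, wt S g ≤ wt S x + wt S (g⁻¹ * x) := by
    intro x _
    have h4 : g = x * (g⁻¹ * x)⁻¹ := by simp
    calc wt S g = wt S (x * (g⁻¹ * x)⁻¹) := by rw [← h4]
      _ ≤ wt S x + wt S (g⁻¹ * x)⁻¹ := wt_mul S _ _
      _ = _ := by rw [wt_inv]
  have h4 : (S ∩ lmul g S).card * wt S g ≤
      ∑ x ∈ S ∩ lmul g S, (wt S x + wt S (g⁻¹ * x)) := by
    have := card_nsmul_le_sum _ _ _ h3
    rwa [smul_eq_mul] at this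
  rw [sum_add_distrib] at h4
  have h5 : ∑ x ∈ S ∩ lmul g S, wt S x ≤ ∑ x ∈ S, wt S x :=
    sum_le_sum_of_subset inter_subset_left
  have h6 : ∑ x ∈ S ∩ lmul g S, wt S (g⁻¹ * x) ≤ ∑ x ∈ S, wt S x := by
    have h7 : ∑ x ∈ S ∩ lmul g S, wt S (g⁻¹ * x) =
        ∑ y ∈ (S ∩ lmul g S).image (fun x => g⁻¹ * x), wt S y := by
      rw [sum_image]
      intro x _ y _ hxy
      exact mul_left_cancel hxy
    rw [h7]
    apply sum_le_sum_of_subset
    intro y hy
    rw [mem_image] at hy
    obtain ⟨x, hx, rfl⟩ := hy
    rw [mem_inter, mem_lmul] at hx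
    exact hx.2
  rw [sum_wt] at h5 h6
  rw [mul_comm]
  omega

/-- If fewer than a ninth of the products of members of the sharply 2-transitive set `S` are not
in `S`, the degree is a prime power. -/
theorem isPrimePow_of_few_bad (hS : Sharp (S : Set (Perm Ω))) (hn : 2 ≤ Fintype.card Ω)
    (hb : 9 * (badPairs S).card < S.card ^ 2) : IsPrimePow (Fintype.card Ω) := by
  set N := S.card with hN
  have hNc : N = Fintype.card Ω * (Fintype.card Ω - 1) := card_eq hS hn
  have hNpos : 0 < N := by
    rw [hNc]
    exact Nat.mul_pos (by omega) (by omega)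
  -- no weight lies in the middle third
  have hgap : ∀ g, 3 * wt S g < N ∨ 2 * N < 3 * wt S g := by
    intro g
    by_contra hcon
    push Not at hcon
    have h1 := wt_ineq S g
    have h2 := wt_le S g
    obtain ⟨u, hu⟩ : ∃ u, N = wt S g + u := ⟨N - wt S g, by omega⟩
    have h3 : S.card - wt S g = u := by omega
    rw [h3] at h1
    have h4 : 2 * N ^ 2 ≤ 9 * (wt S g * u) := by
      have h5 := hcon.1
      have h6 := hcon.2
      rw [hu] at h5 h6
      rw [hu]
      zify at h5 h6 ⊢
      nlinarith
    omega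
  let G : Subgroup (Perm Ω) :=
    { carrier := {g | 3 * wt S g < N}
      mul_mem' := by
        intro g h hg hh
        simp only [Set.mem_ofPred_eq] at hg hh ⊢
        rcases hgap (g * h) with h1 | h1
        · exact h1
        · have := wt_mul S g h
          omega
      one_mem' := by
        simp only [Set.mem_ofPred_eq]
        rw [wt_one]
        omega
      inv_mem' := by
        intro g hg
        simp only [Set.mem_ofPred_eq] at hg ⊢
        rwa [wt_inv] }
  have hmemG : ∀ g, g ∈ G ↔ 3 * wt S g < N := fun g => Iff.rfl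
  -- most of `S` lies in `G`
  set SG : Finset (Perm Ω) := S.filter fun g => g ∈ G with hSG
  have h1 : 6 * (S.filter fun g => g ∉ G).card < N := by
    have h2 : ∀ g ∈ S.filter fun g => g ∉ G, 2 * N ≤ 3 * wt S g := by
      intro g hg
      rw [mem_filter, hmemG] at hg
      rcases hgap g with h3 | h3
      · exact absurd h3 hg.2
      · exact h3.le
    have h3 := card_nsmul_le_sum _ _ _ h2
    rw [smul_eq_mul, ← mul_sum] at h3
    have h4 : ∑ g ∈ S.filter fun g => g ∉ G, wt S g ≤ ∑ g ∈ S, wt S g :=
      sum_le_sum_of_subset (filter_subset _ _)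
    rw [sum_wt] at h4
    have h5 : 6 * ((S.filter fun g => g ∉ G).card * N) < N * N := by
      have e1 : N ^ 2 = N * N := sq N
      have e2 : (S.filter fun g => g ∉ G).card * (2 * N) =
        2 * ((S.filter fun g => g ∉ G).card * N) := by ring
      omega
    have h6 : (6 * (S.filter fun g => g ∉ G).card) * N < N * N := by
      rw [mul_assoc]
      exact h5
    exact Nat.lt_of_mul_lt_mul_right h6
  have h2 : SG.card + (S.filter fun g => g ∉ G).card = N := by
    rw [hSG]
    exact card_filter_add_card_filter_not _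
  -- `G` is not much larger than `S`
  set Gf : Finset (Perm Ω) := univ.filter fun g => g ∈ G with hGf
  have h3 : 2 * Gf.card < 3 * N := by
    have h4 : ∑ g ∈ Gf, (S ∩ lmul g S).card ≤ N * N := by
      have h5 : ∑ g ∈ Gf, (S ∩ lmul g S).card ≤
          ∑ g : Perm Ω, (S ∩ lmul g S).card := sum_le_sum_of_subset (filter_subset _ _)
      have h6 : ∑ g : Perm Ω, (S ∩ lmul g S).card = N * N := by
        have h7 : ∀ g : Perm Ω, (S ∩ lmul g S).card = ∑ x ∈ S, if g⁻¹ * x ∈ S then 1 else 0 := by
          intro g
          rw [← card_filter]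
          congr 1
          ext x
          rw [mem_inter, mem_filter, mem_lmul]
        simp only [h7]
        rw [sum_comm]
        have h8 : ∀ x ∈ S, ∑ g : Perm Ω, (if g⁻¹ * x ∈ S then 1 else 0) = N := by
          intro x _
          rw [← card_filter, hN]
          refine card_bij (fun g _ => g⁻¹ * x) ?_ ?_ ?_
          · intro g hg
            rw [mem_filter] at hg
            exact hg.2
          · intro g _ k _ hgk
            exact inv_injective (mul_right_cancel hgk)
          · intro y hy
            refine ⟨x * y⁻¹, ?_, by simp⟩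
            rw [mem_filter]
            refine ⟨mem_univ _, ?_⟩
            simpa using hy
        rw [sum_congr rfl h8, sum_const, smul_eq_mul]
      omega
    have h5 : ∀ g ∈ Gf, 2 * N + 1 ≤ 3 * (S ∩ lmul g S).card := by
      intro g hg
      rw [hGf, mem_filter, hmemG] at hg
      have h6 := card_inter_lmul S g
      omega
    have h6 := card_nsmul_le_sum _ _ _ h5
    rw [smul_eq_mul, ← mul_sum] at h6
    have h7 : Gf.card * (2 * N + 1) ≤ 3 * (N * N) := h6.trans (by omega)
    by_contra hcon
    push Not at hcon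
    nlinarith
  have hSGG : SG ⊆ Gf := by
    intro g hg
    rw [hSG, mem_filter] at hg
    rw [hGf, mem_filter]
    exact ⟨mem_univ _, hg.2⟩
  -- only the identity of `G` has two fixed points
  have h4 : ∀ k ∈ G, ∀ a b : Ω, a ≠ b → k a = a → k b = b → k = 1 := by
    intro k hk a b hab ha hb'
    by_contra hk1
    have h5 : Disjoint SG (SG.image fun s => s * k) := by
      rw [Finset.disjoint_left]
      intro s hs hs2
      rw [mem_image] at hs2
      obtain ⟨s', hs', h6⟩ := hs2
      rw [hSG, mem_filter] at hs hs'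
      have h7 : s = s' := by
        refine hS.eq hs.1 hs'.1 hab ?_ ?_
        · rw [← h6, Perm.mul_apply, ha]
        · rw [← h6, Perm.mul_apply, hb']
      rw [h7] at h6
      exact hk1 (mul_eq_left.1 h6)
    have h6 : SG ∪ (SG.image fun s => s * k) ⊆ Gf := by
      intro g hg
      rw [mem_union] at hg
      rcases hg with hg | hg
      · exact hSGG hg
      · rw [mem_image] at hg
        obtain ⟨s, hs, rfl⟩ := hg
        rw [hSG, mem_filter] at hs
        rw [hGf, mem_filter]
        exact ⟨mem_univ _, G.mul_mem hs.2 hk⟩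
    have h7 := card_le_card h6
    rw [card_union_of_disjoint h5, card_image_of_injective _ (mul_left_injective k)] at h7
    omega
  -- `G` is transitive on the ordered pairs
  have h5 : Sharp (G : Set (Perm Ω)) := by
    intro a b c d hab hcd
    have hpairs : ∀ x y : Ω, x ≠ y →
        (SG.image fun s : Perm Ω => (s x, s y)) ⊆ (univ : Finset Ω).offDiag ∧
          (SG.image fun s : Perm Ω => (s x, s y)).card = SG.card := by
      intro x y hxy
      constructor
      · intro p hp
        rw [mem_image] at hp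
        obtain ⟨s, _, rfl⟩ := hp
        rw [mem_offDiag]
        exact ⟨mem_univ _, mem_univ _, fun h => hxy (s.injective h)⟩
      · apply card_image_of_injOn
        intro s hs s' hs' hss
        have hs1 : s ∈ SG := by exact_mod_cast hs
        have hs2 : s' ∈ SG := by exact_mod_cast hs'
        rw [hSG, mem_filter] at hs1 hs2
        exact hS.eq hs1.1 hs2.1 hxy (congrArg Prod.fst hss) (congrArg Prod.snd hss)
    have hoff : (univ : Finset Ω).offDiag.card = N := by
      rw [offDiag_card, card_univ, hNc, Nat.mul_sub_one]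
    obtain ⟨hA1, hA2⟩ := hpairs a b hab
    obtain ⟨hB1, hB2⟩ := hpairs c d hcd
    have hint : ((SG.image fun s : Perm Ω => (s a, s b)) ∩
        (SG.image fun s : Perm Ω => (s c, s d))).Nonempty := by
      by_contra hcon
      rw [not_nonempty_iff_eq_empty, ← disjoint_iff_inter_eq_empty] at hcon
      have h6 := card_le_card (union_subset hA1 hB1)
      rw [card_union_of_disjoint hcon, hA2, hB2, hoff] at h6
      omega
    obtain ⟨p, hp⟩ := hint
    rw [mem_inter, mem_image, mem_image] at hp
    obtain ⟨⟨s, hs, hs2⟩, s', hs', hs2'⟩ := hp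
    rw [hSG, mem_filter] at hs hs'
    have e1 : s a = s' c := by
      rw [← hs2'] at hs2
      exact congrArg Prod.fst hs2
    have e2 : s b = s' d := by
      rw [← hs2'] at hs2
      exact congrArg Prod.snd hs2
    refine ⟨s'⁻¹ * s, ⟨G.mul_mem (G.inv_mem hs'.2) hs.2, ?_, ?_⟩, ?_⟩
    · rw [Perm.mul_apply, e1]
      exact s'.symm_apply_apply c
    · rw [Perm.mul_apply, e2]
      exact s'.symm_apply_apply d
    · rintro τ ⟨hτ, hτ1, hτ2⟩
      have h6 : (s'⁻¹ * s)⁻¹ * τ = 1 := by
        refine h4 _ (G.mul_mem (G.inv_mem (G.mul_mem (G.inv_mem hs'.2) hs.2)) hτ) a b hab ?_ ?_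
        · rw [mul_inv_rev, inv_inv, Perm.mul_apply, Perm.mul_apply, hτ1, ← e1]
          exact s.symm_apply_apply a
        · rw [mul_inv_rev, inv_inv, Perm.mul_apply, Perm.mul_apply, hτ2, ← e2]
          exact s.symm_apply_apply b
      rw [inv_mul_eq_one] at h6
      exact h6.symm
  exact isPrimePow_of_group h5 hn

end Pool.Agent.N606.ST
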