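import Mathlib

/-!
# Projective planes as Steiner systems
-/

set_option autoImplicit false

namespace Pool.Agent.N606.ST

/-- `B` is a projective plane of order `n` on the point set `V`, that is, a Steiner system
`S(n ^ 2 + n + 1, n + 1, 2)`. -/
def Plane {V : Type} [Fintype V] (n : ℕ) (B : Finset (Finset V)) : Prop :=
  Fintype.card V = n ^ 2 + n + 1 ∧ (∀ b ∈ B, b.card = n + 1) ∧
    ∀ x y : V, x ≠ y → ∃! b, b ∈ B ∧ x ∈ b ∧ y ∈ b

end Pool.Agent.N606.ST
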