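import Pool.Agent.N606.ST.Triple

/-!
# The gap for the number of products outside a sharply 2-transitive set
-/

set_option autoImplicit false

namespace Pool.Agent.N606.ST

open Equiv Finset

open scoped Classical

set_option linter.unusedSectionVars false

variable {Ω : Type} [Fintype Ω]

/-- The right translate of a sharply 2-transitive set. -/
theorem Sharp.rmul {S : Finset (Perm Ω)} (hS : Sharp (S : Set (Perm Ω))) (x : Perm Ω) :
    Sharp ((univ.filter fun g => g * x ∈ S : Finset (Perm Ω)) : Set (Perm Ω)) := by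
  intro a b c d hab hcd
  obtain ⟨σ, ⟨h1, h2, h3⟩, h4⟩ := hS (x⁻¹ a) (x⁻¹ b) c d (fun h => hab (x⁻¹.injective h)) hcd
  refine ⟨σ * x⁻¹, ⟨?_, h2, h3⟩, ?_⟩
  · simp only [coe_filter, mem_univ, true_and, Set.mem_ofPred_eq, inv_mul_cancel_right]
    exact_mod_cast h1
  · rintro τ ⟨h5, h6, h7⟩
    simp only [coe_filter, mem_univ, true_and, Set.mem_ofPred_eq] at h5
    have h8 := h4 (τ * x) ⟨by exact_mod_cast h5, by
      rw [Perm.mul_apply]
      exact (congrArg τ (x.apply_symm_apply a)).trans h6, by
      rw [Perm.mul_apply]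
      exact (congrArg τ (x.apply_symm_apply b)).trans h7⟩
    rw [← h8, mul_inv_cancel_right]

/-- Either all products of a member of `S₂` and a member of `S₁` are in `S₃`, or many are not. -/
theorem bad3_gap (S₁ S₂ S₃ : Finset (Perm Ω)) (hS₁ : Sharp (S₁ : Set (Perm Ω)))
    (hS₂ : Sharp (S₂ : Set (Perm Ω))) (hS₃ : Sharp (S₃ : Set (Perm Ω)))
    (hn : 9 ≤ Fintype.card Ω) (hne : (bad3 S₂ S₁ S₃).Nonempty) :
    ((Fintype.card Ω : ℝ) * (Fintype.card Ω - 1) / 2) *
      ((Fintype.card Ω : ℝ) * (Real.sqrt (Fintype.card Ω) - 1)) ≤ (bad3 S₂ S₁ S₃).card := by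
  have hn2 : 2 ≤ Fintype.card Ω := by omega
  have hc13 : S₁.card = S₃.card := (card_eq hS₁ hn2).trans (card_eq hS₃ hn2).symm
  have hc23 : S₂.card = S₃.card := (card_eq hS₂ hn2).trans (card_eq hS₃ hn2).symm
  have hn' : (9 : ℝ) ≤ (Fintype.card Ω : ℝ) := by exact_mod_cast hn
  have hNr : (S₁.card : ℝ) = (Fintype.card Ω : ℝ) * (Fintype.card Ω - 1) := by
    rw [card_eq hS₁ hn2, Nat.cast_mul, Nat.cast_sub (by omega), Nat.cast_one]
  set N := S₁.card with hN
  set c : ℝ := (Fintype.card Ω : ℝ) * (Real.sqrt (Fintype.card Ω) - 1) with hc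
  have hsq : 3 ≤ Real.sqrt (Fintype.card Ω) := by
    apply Real.le_sqrt_of_sq_le
    linarith
  have hc0 : 0 ≤ c := mul_nonneg (by linarith) (by linarith)
  rw [← hNr]
  have hNpos : 0 < N := by
    rw [hN, card_eq hS₁ hn2]
    exact Nat.mul_pos (by omega) (by omega)
  have hlb : ∀ s, (lmul s S₁ \ S₃).card = lb S₁ S₃ s := by
    intro s
    unfold lb
    symm
    refine card_bij (fun x _ => s * x) ?_ ?_ ?_
    · intro x hx
      rw [mem_filter] at hx
      rw [mem_sdiff, mem_lmul, inv_mul_cancel_left]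
      exact hx
    · intro x _ y _ h
      exact mul_left_cancel h
    · intro y hy
      rw [mem_sdiff, mem_lmul] at hy
      refine ⟨s⁻¹ * y, ?_, by simp⟩
      rw [mem_filter, mul_inv_cancel_left]
      exact hy
  have hdist : ∀ s, lmul s S₁ ≠ S₃ → c ≤ lb S₁ S₃ s := by
    intro s hs
    rw [← hlb]
    exact dist_bound hS₃ (hS₁.lmul s) hn (Ne.symm hs)
  have hbig : ∀ (k : ℝ), (∀ s ∈ S₂.filter (fun s => lmul s S₁ ≠ S₃), k ≤ (lb S₁ S₃ s : ℝ)) →
      ((S₂.filter (fun s => lmul s S₁ ≠ S₃)).card : ℝ) * k ≤ (bad3 S₂ S₁ S₃).card := by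
    intro k hk
    have h1 := card_nsmul_le_sum _ _ _ hk
    rw [nsmul_eq_mul] at h1
    refine h1.trans ?_
    rw [← sum_lb, Nat.cast_sum]
    exact sum_le_sum_of_subset_of_nonneg (filter_subset _ _) (fun _ _ _ => Nat.cast_nonneg _)
  set A : Finset (Perm Ω) := S₂.filter fun s => lmul s S₁ = S₃ with hA
  have hAc : A.card + (S₂.filter fun s => lmul s S₁ ≠ S₃).card = N := by
    have : A.card + (S₂.filter fun s => lmul s S₁ ≠ S₃).card = S₂.card := by
      rw [hA]
      exact card_filter_add_card_filter_not _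
    omega
  have hAc' : (A.card : ℝ) + (S₂.filter fun s => lmul s S₁ ≠ S₃).card = N := by
    exact_mod_cast hAc
  by_cases hcase : 2 * A.card ≤ N
  · have h1 := hbig c (fun s hs => hdist s (mem_filter.1 hs).2)
    have h2 : (2 : ℝ) * A.card ≤ N := by exact_mod_cast hcase
    refine le_trans ?_ h1
    apply mul_le_mul_of_nonneg_right _ hc0
    linarith
  · push Not at hcase
    -- the stabiliser of `S₁`
    let G : Subgroup (Perm Ω) :=
      { carrier := {α | lmul α S₁ = S₁}
        mul_mem' := by
          intro α β hα hβ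
          simp only [Set.mem_ofPred_eq] at hα hβ ⊢
          ext σ
          rw [mem_lmul]
          rw [Finset.ext_iff] at hα hβ
          have h2 := hβ (α⁻¹ * σ)
          have h3 := hα σ
          rw [mem_lmul] at h2 h3
          rw [← h3, ← h2, mul_inv_rev, mul_assoc]
        one_mem' := by
          simp only [Set.mem_ofPred_eq]
          ext σ
          rw [mem_lmul]
          simp
        inv_mem' := by
          intro α hα
          simp only [Set.mem_ofPred_eq] at hα ⊢
          ext σ
          rw [mem_lmul]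
          rw [Finset.ext_iff] at hα
          have h2 := hα (α * σ)
          rw [mem_lmul] at h2
          simp only [inv_inv]
          rw [← h2]
          simp }
    have hG : ∀ g, g ∈ G ↔ lmul g S₁ = S₁ := fun g => Iff.rfl
    have hGm : ∀ g ∈ G, ∀ x ∈ S₁, g * x ∈ S₁ := by
      intro g hg x hx
      rw [hG] at hg
      rw [← hg, mem_lmul, inv_mul_cancel_left]
      exact hx
    have hlm : ∀ s g : Perm Ω, lmul (s * g) S₁ = lmul s (lmul g S₁) := by
      intro s g
      ext σ
      rw [mem_lmul, mem_lmul, mem_lmul, mul_inv_rev, mul_assoc]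
    have hAne : A.Nonempty := by
      rw [← card_pos]
      omega
    obtain ⟨s₀, hs₀⟩ := hAne
    rw [hA, mem_filter] at hs₀
    -- membership in `A`
    have hAG : ∀ s, lmul s S₁ = S₃ ↔ s₀⁻¹ * s ∈ G := by
      intro s
      rw [hG, hlm]
      constructor
      · intro h
        ext σ
        rw [mem_lmul, h, inv_inv, ← hs₀.2, mem_lmul, inv_mul_cancel_left]
      · intro h
        rw [← hs₀.2]
        conv_rhs => rw [← h]
        ext σ
        rw [mem_lmul, mem_lmul, mem_lmul, mem_lmul, inv_inv, mul_inv_cancel_left]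
    set Gf : Finset (Perm Ω) := univ.filter fun g => g ∈ G with hGf
    have hmemGf : ∀ g, g ∈ Gf ↔ g ∈ G := by
      intro g
      rw [hGf, mem_filter]
      exact ⟨fun h => h.2, fun h => ⟨mem_univ _, h⟩⟩
    have hGA : A.card ≤ Gf.card := by
      refine card_le_card_of_injOn (fun s => s₀⁻¹ * s) ?_ ?_
      · intro s hs
        have hs' : s ∈ A := by exact_mod_cast hs
        rw [hA, mem_filter] at hs'
        have : s₀⁻¹ * s ∈ Gf := by
          rw [hmemGf, ← hAG]
          exact hs'.2
        exact_mod_cast this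
      · intro s _ t _ h
        exact mul_left_cancel h
    -- `S₁` is a coset of `G`
    have hcos : ∀ x ∈ S₁, ∀ y ∈ S₁, y * x⁻¹ ∈ G := by
      intro x hx y hy
      by_contra hcon
      have h1 : Disjoint (Gf.image fun g => g * x) (Gf.image fun g => g * y) := by
        rw [Finset.disjoint_left]
        intro z hz1 hz2
        rw [mem_image] at hz1 hz2
        obtain ⟨g, hg, rfl⟩ := hz1
        obtain ⟨k, hk, h2⟩ := hz2
        rw [hmemGf] at hg hk
        apply hcon
        have : y * x⁻¹ = k⁻¹ * g := by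
          rw [eq_inv_mul_iff_mul_eq, ← mul_assoc, h2, mul_inv_cancel_right]
        rw [this]
        exact G.mul_mem (G.inv_mem hk) hg
      have h2 : (Gf.image fun g => g * x) ∪ (Gf.image fun g => g * y) ⊆ S₁ := by
        intro z hz
        rw [mem_union, mem_image, mem_image] at hz
        rcases hz with ⟨g, hg, rfl⟩ | ⟨g, hg, rfl⟩
        · exact hGm g ((hmemGf g).1 hg) x hx
        · exact hGm g ((hmemGf g).1 hg) y hy
      have h3 := card_le_card h2
      rw [card_union_of_disjoint h1, card_image_of_injective _ (mul_left_injective x),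
        card_image_of_injective _ (mul_left_injective y)] at h3
      omega
    obtain ⟨x₀, hx₀⟩ : S₁.Nonempty := card_pos.1 hNpos
    -- the coset `s₀ G`
    have hS4 : ∀ s, s * x₀ ∈ S₃ ↔ lmul s S₁ = S₃ := by
      intro s
      rw [hAG, ← hs₀.2, mem_lmul]
      constructor
      · intro h
        have := hcos x₀ hx₀ _ h
        rwa [← mul_assoc, mul_inv_cancel_right] at this
      · intro h
        rw [← mul_assoc]
        exact hGm _ h x₀ hx₀
    have hfull : ∀ s, lmul s S₁ ≠ S₃ → lb S₁ S₃ s = N := by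
      intro s hs
      unfold lb
      rw [filter_true_of_mem, hN]
      intro x hx hsx
      apply hs
      rw [hAG]
      rw [← hs₀.2, mem_lmul] at hsx
      have := hcos x hx _ hsx
      rwa [← mul_assoc, mul_inv_cancel_right] at this
    -- some member of `S₂` is not in `A`
    have hne2 : (univ.filter fun g => g * x₀ ∈ S₃ : Finset (Perm Ω)) ≠ S₂ := by
      intro h
      obtain ⟨⟨s, x⟩, hsx⟩ := hne
      unfold bad3 at hsx
      rw [mem_filter, mem_product] at hsx
      apply hsx.2
      have h1 : s ∈ (univ.filter fun g => g * x₀ ∈ S₃ : Finset (Perm Ω)) := by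
        rw [h]
        exact hsx.1.1
      rw [mem_filter, hS4] at h1
      change s * x ∈ S₃
      rw [← h1.2, mem_lmul, inv_mul_cancel_left]
      exact hsx.1.2
    have h1 := dist_bound (hS₃.rmul x₀) hS₂ hn hne2
    have h2 : S₂ \ (univ.filter fun g => g * x₀ ∈ S₃) = S₂.filter fun s => lmul s S₁ ≠ S₃ := by
      ext s
      rw [mem_sdiff, mem_filter, mem_filter, hS4]
      simp
    rw [h2] at h1
    have h3 := hbig N (fun s hs => by rw [hfull s (mem_filter.1 hs).2])
    refine le_trans ?_ h3
    have hNr0 : (0 : ℝ) ≤ N := Nat.cast_nonneg _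
    calc (N : ℝ) / 2 * c ≤ N * c := by
          apply mul_le_mul_of_nonneg_right _ hc0
          linarith
      _ = c * N := mul_comm _ _
      _ ≤ _ := mul_le_mul_of_nonneg_right h1 hNr0

end Pool.Agent.N606.ST
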