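import Pool.Agent.N606.ST.Planes
import Pool.Agent.N606.ST.FDefs
import Pool.Agent.N606.ST.Triple2

/-!
# The perspectivities between two lines are sharply 2-transitive
-/

set_option autoImplicit false

namespace Pool.Agent.N606.ST

open Finset Equiv

variable {V : Type} [Fintype V] [DecidableEq V] {n : ℕ} {B : Finset (Finset V)}

section

variable (h : Plane n B) {Z : V} {l l' : Finset V}

include h

omit [DecidableEq V] in
theorem Plane.col_mem {x y z : V} {b : Finset V} (hb : b ∈ B) (hxy : x ≠ y) (hx : x ∈ b)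
    (hy : y ∈ b) (hc : Col B x y z) : z ∈ b := by
  obtain ⟨c, hc1, hc2, hc3, hc4⟩ := hc
  rw [h.eq hb hc1 hxy hx hy hc2 hc3]
  exact hc4

/-- Projecting from `C`. -/
theorem proj (hn : 1 ≤ n) (hl : l ∈ B) (hl' : l' ∈ B) (hZ : Z ∈ l) (hZ' : Z ∈ l')
    {C : V} (hC : C ∉ l) (hC' : C ∉ l') (p : Pnt Z l) :
    ∃! w : Pnt Z l', Col B C p w := by
  obtain ⟨p, hp1, hp2⟩ := p
  have hCp : C ≠ p := by
    rintro rfl
    exact hC hp1
  obtain ⟨a, ha, hCa, hpa⟩ := h.join hCp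
  have hal : a ≠ l := by
    rintro rfl
    exact hC hCa
  have hal' : a ≠ l' := by
    rintro rfl
    exact hC' hCa
  obtain ⟨w, hwa, hwl⟩ := h.meet hn ha hl'
  have hwZ : w ≠ Z := by
    rintro rfl
    exact hal (h.eq ha hl hp2 hpa hwa hp1 hZ)
  refine ⟨⟨w, hwl, hwZ⟩, ⟨a, ha, hCa, hpa, hwa⟩, ?_⟩
  rintro ⟨w', hw1, hw2⟩ hw'
  have hw'a : w' ∈ a := h.col_mem ha hCp hCa hpa hw'
  apply Subtype.ext
  change w' = w
  by_contra hne
  exact hal' (h.eq ha hl' hne hw'a hwa hw1 hwl)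

/-- The perspectivity with centre `C`. -/
theorem exists_persp (hn : 1 ≤ n) (hl : l ∈ B) (hl' : l' ∈ B) (hZ : Z ∈ l) (hZ' : Z ∈ l')
    {C : V} (hC : C ∉ l) (hC' : C ∉ l') :
    ∃ σ : Pnt Z l ≃ Pnt Z l', ∀ p : Pnt Z l, Col B C p (σ p) := by
  have h1 := proj h hn hl hl' hZ hZ' hC hC'
  have h2 := proj h hn hl' hl hZ' hZ hC' hC
  choose f hf1 hf2 using h1
  choose g hg1 hg2 using h2
  refine ⟨⟨f, g, ?_, ?_⟩, fun p => hf1 p⟩
  · intro p
    symm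
    apply hg2
    obtain ⟨b, hb, hb1, hb2, hb3⟩ := hf1 p
    exact ⟨b, hb, hb1, hb3, hb2⟩
  · intro p
    symm
    apply hf2
    obtain ⟨b, hb, hb1, hb2, hb3⟩ := hg1 p
    exact ⟨b, hb, hb1, hb3, hb2⟩

/-- The perspectivities between two lines are a sharply 2-transitive set. -/
theorem persp_sharp (hn : 1 ≤ n) (hl : l ∈ B) (hl' : l' ∈ B) (hne : l ≠ l') (hZ : Z ∈ l)
    (hZ' : Z ∈ l') : Sharp (persp B Z l l') := by
  rintro ⟨a, ha1, ha2⟩ ⟨b, hb1, hb2⟩ ⟨c, hc1, hc2⟩ ⟨d, hd1, hd2⟩ hab hcd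
  have hab' : a ≠ b := fun e => hab (Subtype.ext e)
  have hcd' : c ≠ d := fun e => hcd (Subtype.ext e)
  have hnl : ∀ x, x ∈ l → x ≠ Z → x ∉ l' := fun x hx hxZ hx' =>
    hne (h.eq hl hl' hxZ hx hZ hx' hZ')
  have hac : a ≠ c := by
    rintro rfl
    exact hnl _ ha1 ha2 hc1
  have hbd : b ≠ d := by
    rintro rfl
    exact hnl _ hb1 hb2 hd1
  obtain ⟨e, he, hea, hec⟩ := h.join hac
  obtain ⟨f, hf, hfb, hfd⟩ := h.join hbd
  have hel : e ≠ l := by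
    intro hh
    rw [hh] at hec
    exact hc2 (by
      by_contra hcZ
      exact hnl c hec hcZ hc1)
  have hfl : f ≠ l := by
    intro hh
    rw [hh] at hfd
    exact hd2 (by
      by_contra hcZ
      exact hnl d hfd hcZ hd1)
  have hel' : e ≠ l' := by
    intro hh
    rw [hh] at hea
    exact hnl a ha1 ha2 hea
  have hfl' : f ≠ l' := by
    intro hh
    rw [hh] at hfb
    exact hnl b hb1 hb2 hfb
  have hef : e ≠ f := by
    intro hh
    rw [← hh] at hfb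
    exact hel (h.eq he hl hab' hea hfb ha1 hb1)
  obtain ⟨C, hCe, hCf⟩ := h.meet hn he hf
  have hCl : C ∉ l := by
    intro hC
    have h1 : C = a := by
      by_contra hh
      exact hel (h.eq he hl hh hCe hea hC ha1)
    have h2 : C = b := by
      by_contra hh
      exact hfl (h.eq hf hl hh hCf hfb hC hb1)
    exact hab' (h1.symm.trans h2)
  have hCl' : C ∉ l' := by
    intro hC
    have h1 : C = c := by
      by_contra hh
      exact hel' (h.eq he hl' hh hCe hec hC hc1)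
    have h2 : C = d := by
      by_contra hh
      exact hfl' (h.eq hf hl' hh hCf hfd hC hd1)
    exact hcd' (h1.symm.trans h2)
  obtain ⟨σ, hσ⟩ := exists_persp h hn hl hl' hZ hZ' hCl hCl'
  have hu := proj h hn hl hl' hZ hZ' hCl hCl'
  refine ⟨σ, ⟨⟨C, hCl, hCl', hσ⟩, ?_, ?_⟩, ?_⟩
  · exact (hu ⟨a, ha1, ha2⟩).unique (hσ _) ⟨e, he, hCe, hea, hec⟩
  · exact (hu ⟨b, hb1, hb2⟩).unique (hσ _) ⟨f, hf, hCf, hfb, hfd⟩
  · rintro τ ⟨⟨C', hC'l, hC'l', hτ⟩, hτa, hτb⟩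
    have hCC : C' = C := by
      have h1 : C' ∈ e := by
        have h2 := hτ ⟨a, ha1, ha2⟩
        rw [hτa] at h2
        obtain ⟨b', hb', h3, h4, h5⟩ := h2
        rw [h.eq he hb' hac hea hec h4 h5]
        exact h3
      have h2 : C' ∈ f := by
        have h2 := hτ ⟨b, hb1, hb2⟩
        rw [hτb] at h2
        obtain ⟨b', hb', h3, h4, h5⟩ := h2
        rw [h.eq hf hb' hbd hfb hfd h4 h5]
        exact h3
      by_contra hh
      exact hef (h.eq he hf hh h1 hCe h2 hCf)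
    rw [hCC] at hτ
    ext p
    exact congrArg Subtype.val ((hu p).unique (hτ p) (hσ p))

theorem card_pnt (hl : l ∈ B) (hZ : Z ∈ l) : Fintype.card (Pnt Z l) = n := by
  have h1 : Fintype.card (Pnt Z l) = (l.erase Z).card := by
    rw [Fintype.card_subtype]
    congr 1
    ext p
    simp only [mem_filter, mem_univ, true_and, mem_erase]
    tauto
  rw [h1, card_erase_of_mem hZ, h.2.1 l hl]
  rfl

end

section transport

variable {X Y W : Type} [Fintype X] [Fintype Y] [Fintype W]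

theorem Sharp.conj {X' Y' : Type} {S : Set (X ≃ Y)} (hS : Sharp S) (u : X' ≃ X) (v : Y ≃ Y') :
    Sharp ((fun s : X ≃ Y => (u.trans s).trans v) '' S) := by
  intro a b c d hab hcd
  obtain ⟨σ, ⟨h1, h2, h3⟩, h4⟩ := hS (u a) (u b) (v.symm c) (v.symm d)
    (fun e => hab (u.injective e)) (fun e => hcd (v.symm.injective e))
  refine ⟨(u.trans σ).trans v, ⟨⟨σ, h1, rfl⟩, ?_, ?_⟩, ?_⟩
  · simp [h2]
  · simp [h3]
  · rintro _ ⟨⟨τ, hτ, rfl⟩, h5, h6⟩
    have h7 : τ = σ := by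
      apply h4
      refine ⟨hτ, ?_, ?_⟩
      · rw [← h5]; simp
      · rw [← h6]; simp
    rw [h7]

open scoped Classical in
/-- Reduction to sets of permutations. -/
theorem exists_perms {S₁ : Set (X ≃ Y)} {S₂ : Set (Y ≃ W)} {S₃ : Set (X ≃ W)} (h₁ : Sharp S₁)
    (h₂ : Sharp S₂) (h₃ : Sharp S₃) (hXY : Fintype.card X = Fintype.card Y)
    (hXW : Fintype.card X = Fintype.card W) :
    ∃ T₁ T₂ T₃ : Finset (Perm X), Sharp (T₁ : Set (Perm X)) ∧ Sharp (T₂ : Set (Perm X)) ∧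
      Sharp (T₃ : Set (Perm X)) ∧ (bad3 T₂ T₁ T₃).card =
        {p : (X ≃ Y) × (Y ≃ W) | p.1 ∈ S₁ ∧ p.2 ∈ S₂ ∧ p.1.trans p.2 ∉ S₃}.ncard := by
  have u : X ≃ Y := Fintype.equivOfCardEq hXY
  have v : X ≃ W := Fintype.equivOfCardEq hXW
  have g₁ := h₁.conj (Equiv.refl X) u.symm
  have g₂ := h₂.conj u v.symm
  have g₃ := h₃.conj (Equiv.refl X) v.symm
  set f₁ : (X ≃ Y) → Perm X := fun s => ((Equiv.refl X).trans s).trans u.symm with hf₁
  set f₂ : (Y ≃ W) → Perm X := fun s => (u.trans s).trans v.symm with hf₂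
  set f₃ : (X ≃ W) → Perm X := fun s => ((Equiv.refl X).trans s).trans v.symm with hf₃
  have hinj₁ : Function.Injective f₁ := by
    intro s t hst
    ext x
    have := congrArg (fun g : Perm X => u (g x)) hst
    simpa [hf₁] using this
  have hinj₂ : Function.Injective f₂ := by
    intro s t hst
    ext x
    have := congrArg (fun g : Perm X => v (g (u.symm x))) hst
    simpa [hf₂] using this
  have hinj₃ : Function.Injective f₃ := by
    intro s t hst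
    ext x
    have := congrArg (fun g : Perm X => v (g x)) hst
    simpa [hf₃] using this
  have hmul : ∀ s t, f₂ t * f₁ s = f₃ (s.trans t) := by
    intro s t
    ext x
    simp [hf₁, hf₂, hf₃]
  refine ⟨(Set.toFinite (f₁ '' S₁)).toFinset, (Set.toFinite (f₂ '' S₂)).toFinset,
    (Set.toFinite (f₃ '' S₃)).toFinset, ?_, ?_, ?_, ?_⟩
  · rw [Set.Finite.coe_toFinset]
    exact g₁
  · rw [Set.Finite.coe_toFinset]
    exact g₂
  · rw [Set.Finite.coe_toFinset]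
    exact g₃
  · have hF : Function.Injective fun p : (X ≃ Y) × (Y ≃ W) => (f₂ p.2, f₁ p.1) := by
      rintro ⟨s, t⟩ ⟨s', t'⟩ hst
      simp only [Prod.mk.injEq] at hst
      rw [hinj₂ hst.1, hinj₁ hst.2]
    rw [← Set.ncard_image_of_injective _ hF, ← Set.ncard_coe_finset]
    congr 1
    ext ⟨a, b⟩
    simp only [bad3, coe_filter, mem_product, Set.Finite.mem_toFinset, Set.mem_image,
      Prod.exists, Prod.mk.injEq]
    constructor
    · rintro ⟨⟨⟨t, ht, rfl⟩, ⟨s, hs, rfl⟩⟩, hst⟩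
      refine ⟨s, t, ⟨hs, ht, ?_⟩, rfl, rfl⟩
      intro hmem
      apply hst
      exact ⟨s.trans t, hmem, (hmul s t).symm⟩
    · rintro ⟨s, t, ⟨hs, ht, hst⟩, rfl, rfl⟩
      refine ⟨⟨⟨t, ht, rfl⟩, ⟨s, hs, rfl⟩⟩, ?_⟩
      rintro ⟨w, hw, hw2⟩
      rw [hmul] at hw2
      exact hst (hinj₃ hw2 ▸ hw)

end transport

section main

variable {Z : V} {l₁ l₂ l₃ : Finset V}

/-- If `n` is not a prime power, at least a ninth of the products are not perspectivities. -/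
theorem ninth (h : Plane n B) (hn : 2 ≤ n) (hnp : ¬ IsPrimePow n) (h₁ : l₁ ∈ B) (h₂ : l₂ ∈ B)
    (h₃ : l₃ ∈ B) (h12 : l₁ ≠ l₂) (h23 : l₂ ≠ l₃) (h13 : l₁ ≠ l₃) (hZ₁ : Z ∈ l₁) (hZ₂ : Z ∈ l₂)
    (hZ₃ : Z ∈ l₃) : (n * (n - 1)) ^ 2 ≤ 9 * (nonPersp B Z l₁ l₂ l₃).ncard := by
  have hc₁ := card_pnt h h₁ hZ₁
  have hc₂ := card_pnt h h₂ hZ₂
  have hc₃ := card_pnt h h₃ hZ₃
  obtain ⟨T₁, T₂, T₃, g₁, g₂, g₃, hc⟩ := exists_perms
    (persp_sharp h (by omega) h₁ h₂ h12 hZ₁ hZ₂) (persp_sharp h (by omega) h₂ h₃ h23 hZ₂ hZ₃)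
    (persp_sharp h (by omega) h₁ h₃ h13 hZ₁ hZ₃) (hc₁.trans hc₂.symm) (hc₁.trans hc₃.symm)
  by_contra hcon
  push Not at hcon
  apply hnp
  have h4 := isPrimePow_of_few_bad3 T₁ T₂ T₃ g₁ g₂ g₃ (by rw [hc₁]; exact hn) (by
    rw [card_eq g₁ (by rw [hc₁]; exact hn), hc₁, hc]
    exact hcon)
  rwa [hc₁] at h4

/-- Either all products are perspectivities, or many are not. -/
theorem gap (h : Plane n B) (hn : 9 ≤ n) (h₁ : l₁ ∈ B) (h₂ : l₂ ∈ B)
    (h₃ : l₃ ∈ B) (h12 : l₁ ≠ l₂) (h23 : l₂ ≠ l₃) (h13 : l₁ ≠ l₃) (hZ₁ : Z ∈ l₁) (hZ₂ : Z ∈ l₂)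
    (hZ₃ : Z ∈ l₃) (hne : (nonPersp B Z l₁ l₂ l₃).Nonempty) :
    ((n : ℝ) * (n - 1) / 2) * (n * (Real.sqrt n - 1)) ≤ (nonPersp B Z l₁ l₂ l₃).ncard := by
  have hc₁ := card_pnt h h₁ hZ₁
  have hc₂ := card_pnt h h₂ hZ₂
  have hc₃ := card_pnt h h₃ hZ₃
  obtain ⟨T₁, T₂, T₃, g₁, g₂, g₃, hc⟩ := exists_perms
    (persp_sharp h (by omega) h₁ h₂ h12 hZ₁ hZ₂) (persp_sharp h (by omega) h₂ h₃ h23 hZ₂ hZ₃)
    (persp_sharp h (by omega) h₁ h₃ h13 hZ₁ hZ₃) (hc₁.trans hc₂.symm) (hc₁.trans hc₃.symm)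
  have hpos : 0 < (bad3 T₂ T₁ T₃).card := by
    rw [hc]
    exact (Set.ncard_pos (Set.toFinite _)).2 hne
  have h4 := bad3_gap T₁ T₂ T₃ g₁ g₂ g₃ (by rw [hc₁]; exact hn) (card_pos.1 hpos)
  rw [hc₁, hc] at h4
  exact h4

end main

end Pool.Agent.N606.ST
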