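import Pool.Agent.N606.ST.HallPlane
import Pool.Agent.N606.ST.Andre2
import Pool.Agent.N606.ST.Persp

/-!
# Planes in which few products of perspectivities are not perspectivities
-/

set_option autoImplicit false

namespace Pool.Agent.N606.ST

open Equiv Finset

section

variable {F : Type} [Field F] [Fintype F] [DecidableEq F] {q : ℕ}

/-- the family of the dual of the derived plane -/
def fD (q : ℕ) (s x : F) : F := fH q x s

/-- the dual of the derived plane -/
def BD (F : Type) [Field F] [Fintype F] [DecidableEq F] (q : ℕ) : Finset (Finset (Pt F)) :=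
  PB (fD (F := F) q)

/-- the common point of the vertical lines -/
abbrev Zp (F : Type) : Pt F := Sum.inr none

/-- the points of a vertical line -/
noncomputable def ec (c : F) : F ≃ Pnt (Zp F) (Lv c) :=
  Equiv.ofBijective (fun y => ⟨Sum.inl (c, y), by simp, by simp⟩) (by
    constructor
    · intro y y' h
      simp only [Subtype.mk.injEq, Sum.inl.injEq, Prod.mk.injEq, true_and] at h
      exact h
    · rintro ⟨⟨x, y⟩ | o, hp, hZ⟩
      · have hx : c = x := inl_mem_Lv.1 hp
        subst hx
        exact ⟨y, rfl⟩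
      · exact absurd (congrArg Sum.inr (inr_mem_Lv.1 hp)) hZ)

theorem ec_val (c y : F) : ((ec c y : Pnt (Zp F) (Lv c)) : Pt F) = Sum.inl (c, y) := rfl

/-- the perspectivities between two vertical lines, as permutations of the field -/
def PD (q : ℕ) (c c' : F) : Set (Perm F) :=
  {f | ((ec c).symm.trans f).trans (ec c') ∈ persp (BD F q) (Zp F) (Lv c) (Lv c')}

theorem mem_PD {c c' : F} {f : Perm F} : f ∈ PD q c c' ↔ ∃ C : Pt F, C ∉ Lv c ∧ C ∉ Lv c' ∧
    ∀ y, Col (BD F q) C (Sum.inl (c, y)) (Sum.inl (c', f y)) := by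
  unfold PD persp
  simp only [Set.mem_ofPred_eq]
  constructor
  · rintro ⟨C, h1, h2, h3⟩
    refine ⟨C, h1, h2, fun y => ?_⟩
    have := h3 (ec c y)
    simpa [ec_val] using this
  · rintro ⟨C, h1, h2, h3⟩
    refine ⟨C, h1, h2, fun p => ?_⟩
    have := h3 ((ec c).symm p)
    rw [← ec_val, Equiv.apply_symm_apply, ← ec_val] at this
    exact this

variable (hq : Fintype.card F = q ^ 2) (hadd : ∀ x y : F, (x - y) ^ q = x ^ q - y ^ q)

include hq hadd in
theorem planeD : Plane (q ^ 2) (BD F q) := by
  rw [← hq]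
  apply plane_PB
  intro x x' hx s s' h
  by_contra hne
  have hd : s - s' ≠ 0 := sub_ne_zero.2 hne
  have hlin : ∀ z, fD q s z - fD q s' z = fH q z (s - s') := by
    intro z
    unfold fD fH
    split_ifs
    · rw [hadd]; ring
    · ring
  apply hx
  have hq2 := q_pos hq
  apply fH_inj hq hadd (s - s') 0 hd
  have h0 : ∀ z : F, fH q z 0 = 0 := by
    intro z
    unfold fH
    rw [zero_pow (by omega)]
    simp
  simp only [h0, sub_zero]
  rw [← hlin, ← hlin]
  simp only at h
  linear_combination h

theorem vert_mem (c : F) : Lv c ∈ BD F q := mem_PB.2 (Or.inr (Or.inl ⟨c, rfl⟩))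

theorem vert_ne {c c' : F} (h : c ≠ c') : Lv c ≠ Lv c' := by
  intro he
  have h1 : (Sum.inl (c, 0) : Pt F) ∈ Lv c' := by
    rw [← he]
    simp
  rw [inl_mem_Lv] at h1
  exact h h1.symm

include hq hadd in
theorem PD_sharp {c c' : F} (h : c ≠ c') : Sharp (PD q c c') := by
  have hq2 := q_pos hq
  have h1 := persp_sharp (planeD hq hadd) (by nlinarith : 1 ≤ q ^ 2) (vert_mem (q := q) c)
    (vert_mem c') (vert_ne h) (Z := Zp F) (by simp) (by simp)
  have h2 := h1.conj (ec c) (ec c').symm
  have h3 : PD q c c' = (fun s : Pnt (Zp F) (Lv c) ≃ Pnt (Zp F) (Lv c') =>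
      ((ec c).trans s).trans (ec c').symm) '' persp (BD F q) (Zp F) (Lv c) (Lv c') := by
    ext f
    rw [Set.mem_image]
    constructor
    · intro hf
      refine ⟨_, hf, ?_⟩
      ext y
      simp
    · rintro ⟨s, hs, rfl⟩
      unfold PD
      simp only [Set.mem_ofPred_eq]
      convert hs using 1
      ext y
      simp
  rw [h3]
  exact h2

/-- the multipliers of the affine perspectivities -/
def Good (q : ℕ) (c c' k : F) : Prop :=
  k ≠ 0 ∧ (k = 1 ∨ ((k * c - c') / (k - 1)) ^ (q + 1) ≠ 1)

theorem col_line {s b : F} {P Q R : Pt F} (hP : P ∈ Lg (fD q) s b) (hQ : Q ∈ Lg (fD q) s b)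
    (hR : R ∈ Lg (fD q) s b) : Col (BD F q) P Q R :=
  ⟨_, mem_PB.2 (Or.inl ⟨s, b, rfl⟩), hP, hQ, hR⟩

omit [Fintype F] in
theorem fD_norm {s c : F} (hc : c ^ (q + 1) ≠ 1) : fD q s c = c * s := by
  unfold fD fH
  rw [if_neg hc]

omit [Fintype F] in
theorem fD_one {s c : F} (hc : c ^ (q + 1) = 1) : fD q s c = c * s ^ q := by
  unfold fD fH
  rw [if_pos hc]

/-- Affine maps with a good multiplier are perspectivities. -/
theorem mem_PD_of_good {c c' k b : F} (hc : c ^ (q + 1) ≠ 1) (hc' : c' ^ (q + 1) ≠ 1)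
    (hcc : c ≠ c') (hk : Good q c c' k) {f : Perm F} (hf : ∀ y, f y = k * y + b) :
    f ∈ PD q c c' := by
  have hcc' : c' - c ≠ 0 := sub_ne_zero.2 hcc.symm
  rw [mem_PD]
  obtain ⟨hk0, hk⟩ := hk
  by_cases hk1 : k = 1
  · -- translations
    refine ⟨Sum.inr (some (b / (c' - c))), by simp, by simp, fun y => ?_⟩
    apply col_line (s := b / (c' - c)) (b := y - c * (b / (c' - c)))
    · simp
    · rw [inl_mem_Lg, fD_norm hc]; ring
    · rw [inl_mem_Lg, fD_norm hc', hf, hk1]
      field_simp
      ring
  · have hx := hk.resolve_left hk1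
    have hk1' : k - 1 ≠ 0 := sub_ne_zero.2 hk1
    set x := (k * c - c') / (k - 1) with hxdef
    have hxk : x * (k - 1) = k * c - c' := div_mul_cancel₀ _ hk1'
    have hcx : c - x ≠ 0 := by
      intro h
      have h1 : x = c := by linear_combination -h
      rw [h1] at hxk
      apply hcc'
      linear_combination hxk
    have hcx' : c' - x ≠ 0 := by
      intro h
      have h1 : x = c' := by linear_combination -h
      rw [h1] at hxk
      apply hcc'
      have h2 : k * (c' - c) = 0 := by linear_combination hxk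
      exact (mul_eq_zero.1 h2).resolve_left hk0
    -- the centre
    set y₀ := b / (1 - k) with hy₀
    have h1k : (1 - k) ≠ 0 := by
      intro h
      apply hk1'
      linear_combination -h
    have hyk : y₀ * (1 - k) = b := div_mul_cancel₀ _ h1k
    refine ⟨Sum.inl (x, y₀), ?_, ?_, fun y => ?_⟩
    · rw [inl_mem_Lv]
      intro h
      exact hcx (by rw [h]; ring)
    · rw [inl_mem_Lv]
      intro h
      exact hcx' (by rw [h]; ring)
    · set s := (y - y₀) / (c - x) with hs
      have hsc : s * (c - x) = y - y₀ := div_mul_cancel₀ _ hcx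
      apply col_line (s := s) (b := y - c * s)
      · rw [inl_mem_Lg, fD_norm hx]
        linear_combination -hsc
      · rw [inl_mem_Lg, fD_norm hc]
        ring
      · rw [inl_mem_Lg, fD_norm hc', hf]
        have h2 : (c' - c) = (k - 1) * (c - x) := by linear_combination hxk
        linear_combination s * h2 + (k - 1) * hsc + hyk

include hq in
/-- Affine perspectivities have a good multiplier. -/
theorem good_of_mem_PD {c c' k b : F} (hc : c ^ (q + 1) ≠ 1) (hc' : c' ^ (q + 1) ≠ 1)
    (hcc : c ≠ c') (hk0 : k ≠ 0) {f : Perm F} (hf : ∀ y, f y = k * y + b)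
    (hfP : f ∈ PD q c c') : Good q c c' k := by
  have hcc' : c' - c ≠ 0 := sub_ne_zero.2 hcc.symm
  refine ⟨hk0, ?_⟩
  by_cases hk1 : k = 1
  · exact Or.inl hk1
  right
  intro hx
  have hk1' : k - 1 ≠ 0 := sub_ne_zero.2 hk1
  rw [mem_PD] at hfP
  obtain ⟨C, hC, hC', hcol⟩ := hfP
  -- the line through `(c, y)` and `(c', f y)`
  have hline : ∀ y, ∃ s b', C ∈ Lg (fD q) s b' ∧ c * s + b' = y ∧ c' * s + b' = f y := by
    intro y
    obtain ⟨m, hm, hm1, hm2, hm3⟩ := hcol y
    unfold BD at hm
    rw [mem_PB] at hm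
    rcases hm with ⟨s, b', rfl⟩ | ⟨d, rfl⟩ | rfl
    · rw [inl_mem_Lg, fD_norm hc] at hm2
      rw [inl_mem_Lg, fD_norm hc'] at hm3
      exact ⟨s, b', hm1, hm2, hm3⟩
    · rw [inl_mem_Lv] at hm2 hm3
      exact absurd (hm2.symm.trans hm3) hcc
    · exact absurd hm2 inl_mem_Li
  have hslope : ∀ y, ∃ s b', C ∈ Lg (fD q) s b' ∧ c * s + b' = y ∧
      (c' - c) * s = (k - 1) * y + b := by
    intro y
    obtain ⟨s, b', h1, h2, h3⟩ := hline y
    refine ⟨s, b', h1, h2, ?_⟩
    rw [hf] at h3
    linear_combination h3 - h2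
  rcases C with ⟨x, y₀⟩ | o
  · rw [inl_mem_Lv] at hC hC'
    by_cases hxn : x ^ (q + 1) = 1
    · -- the centre has norm `1`
      -- for every slope
      have hall : ∀ s : F, ∃ b', x * s ^ q + b' = y₀ ∧
          c * s + b' = ((c' - c) * s - b) / (k - 1) := by
        intro s
        obtain ⟨s', b', h1, h2, h3⟩ := hslope (((c' - c) * s - b) / (k - 1))
        have h4 : (c' - c) * s' = (c' - c) * s := by
          rw [h3, mul_div_cancel₀ _ hk1']
          ring
        have h5 : s' = s := mul_left_cancel₀ hcc' h4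
        rw [h5] at h1 h2
        rw [inl_mem_Lg, fD_one hxn] at h1
        exact ⟨b', h1, h2⟩
      have hx0 : x ≠ 0 := ne_zero_of_norm one_ne_zero hxn
      have hlin : ∀ s : F, x * s ^ q = y₀ - ((c' - c) * s - b) / (k - 1) + c * s := by
        intro s
        obtain ⟨b', h1, h2⟩ := hall s
        linear_combination h1 - h2
      have hq2 := q_pos hq
      have e0 := hlin 0
      have e1 := hlin 1
      rw [zero_pow (by omega)] at e0
      rw [one_pow] at e1
      obtain ⟨s, hs⟩ := exists_pow_ne hq
      apply hs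
      have e2 := hlin s
      apply mul_left_cancel₀ hx0
      field_simp at e0 e1 e2
      apply mul_left_cancel₀ hk1'
      linear_combination e2 - s * e1 + (s - 1) * e0
    · -- the centre is ordinary
      obtain ⟨s, b', h1, h2, h3⟩ := hslope 0
      obtain ⟨t, d', g1, g2, g3⟩ := hslope 1
      rw [inl_mem_Lg, fD_norm hxn] at h1 g1
      have hst : (c' - c) * (t - s) = k - 1 := by linear_combination g3 - h3
      have hct : (c - x) * (t - s) = 1 := by linear_combination g2 - h2 - g1 + h1
      have hts : t - s ≠ 0 := by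
        intro h
        rw [h, mul_zero] at hct
        exact zero_ne_one hct
      have hxx : (k * c - c') / (k - 1) = x := by
        rw [div_eq_iff hk1']
        apply mul_right_cancel₀ hts
        linear_combination (k - 1) * hct - hst
      rw [hxx] at hx
      exact hxn hx
  · cases o with
    | none => exact hC (by simp)
    | some s₀ =>
      obtain ⟨s, b', h1, h2, h3⟩ := hslope 0
      obtain ⟨t, d', g1, g2, g3⟩ := hslope 1
      rw [inr_mem_Lg, Option.some.injEq] at h1 g1
      apply hk1'
      rw [← h1] at h3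
      rw [← g1] at g3
      linear_combination h3 - g3

end

end Pool.Agent.N606.ST
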