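import Pool.Agent.N606.ST.Sharpness

/-!
# Planes in which few products of perspectivities are not perspectivities: the count
-/

set_option autoImplicit false

namespace Pool.Agent.N606.ST

open Equiv Finset

section

variable {F : Type} [Field F] [Fintype F] [DecidableEq F] {q : ℕ}

variable (hq : Fintype.card F = q ^ 2) (hadd : ∀ x y : F, (x - y) ^ q = x ^ q - y ^ q)

include hq in
/-- Few multipliers are not good. -/
theorem card_not_good {c c' : F} (hcc : c ≠ c') :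
    ({k : F | k ≠ 0 ∧ ¬ Good q c c' k} : Set F).ncard ≤ q + 1 := by
  rw [← card_norm_one hq, ← Set.ncard_coe_finset]
  refine Set.ncard_le_ncard_of_injOn (fun k => (k * c - c') / (k - 1)) ?_ ?_ (Set.toFinite _)
  · rintro k ⟨hk0, hk⟩
    unfold Good at hk
    push Not at hk
    have h1 := hk hk0
    simp only [coe_filter, mem_univ, true_and, Set.mem_ofPred_eq]
    exact h1.2
  · rintro k ⟨hk0, hk⟩ l ⟨hl0, hl⟩ h
    unfold Good at hk hl
    push Not at hk hl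
    have hk1 : k - 1 ≠ 0 := sub_ne_zero.2 (hk hk0).1
    have hl1 : l - 1 ≠ 0 := sub_ne_zero.2 (hl hl0).1
    simp only at h
    rw [div_eq_div_iff hk1 hl1] at h
    have hcc' : c' - c ≠ 0 := sub_ne_zero.2 hcc.symm
    apply mul_right_cancel₀ hcc'
    linear_combination h

/-- the affine maps whose multiplier is not good -/
def Nog (q : ℕ) (c c' : F) : Set (Perm F) :=
  {f | ∃ k b : F, (k ≠ 0 ∧ ¬ Good q c c' k) ∧ ∀ y, f y = k * y + b}

include hq in
theorem card_Nog {c c' : F} (hcc : c ≠ c') : (Nog q c c').ncard ≤ (q + 1) * q ^ 2 := by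
  classical
  have h1 : (Nog q c c').ncard ≤
      (({k : F | k ≠ 0 ∧ ¬ Good q c c' k} : Set F) ×ˢ (Set.univ : Set F)).ncard := by
    refine Set.ncard_le_ncard_of_injOn (fun f => (f 1 - f 0, f 0)) ?_ ?_ (Set.toFinite _)
    · rintro f ⟨k, b, hk, hf⟩
      refine ⟨?_, Set.mem_univ _⟩
      have : f 1 - f 0 = k := by rw [hf, hf]; ring
      change (f 1 - f 0) ≠ 0 ∧ ¬ Good q c c' (f 1 - f 0)
      rw [this]
      exact hk
    · rintro f ⟨k, b, hk, hf⟩ g ⟨l, d, hl, hg⟩ h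
      simp only [Prod.mk.injEq] at h
      have h0 : b = d := by
        have := h.2
        rw [hf, hg] at this
        linear_combination this
      have h1 : k = l := by
        have := h.1
        rw [hf, hf, hg, hg] at this
        linear_combination this
      ext y
      rw [hf, hg, h0, h1]
  refine h1.trans ?_
  rw [Set.ncard_prod, Set.ncard_univ, Nat.card_eq_fintype_card, hq]
  exact Nat.mul_le_mul_right _ (card_not_good hq hcc)

theorem aff_sdiff_sub {c c' : F} (hc : c ^ (q + 1) ≠ 1) (hc' : c' ^ (q + 1) ≠ 1)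
    (hcc : c ≠ c') : aff F \ PD q c c' ⊆ Nog q c c' := by
  rintro f ⟨⟨k, b, hk, hf⟩, hfP⟩
  exact ⟨k, b, ⟨hk, fun hg => hfP (mem_PD_of_good hc hc' hcc hg hf)⟩, hf⟩

include hq hadd in
theorem card_PD_sdiff {c c' : F} (hc : c ^ (q + 1) ≠ 1) (hc' : c' ^ (q + 1) ≠ 1)
    (hcc : c ≠ c') : (PD q c c' \ aff F).ncard ≤ (q + 1) * q ^ 2 := by
  have hq2 := q_pos hq
  have h2 : 2 ≤ Fintype.card F := by rw [hq]; nlinarith
  have h1 : (PD q c c').ncard = (aff F).ncard :=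
    ((PD_sharp hq hadd hcc).ncard h2).trans (aff_sharp.ncard h2).symm
  have h3 := Set.ncard_inter_add_ncard_sdiff_eq_ncard (PD q c c') (aff F) (Set.toFinite _)
  have h4 := Set.ncard_inter_add_ncard_sdiff_eq_ncard (aff F) (PD q c c') (Set.toFinite _)
  rw [Set.inter_comm] at h4
  have h5 : (aff F \ PD q c c').ncard ≤ (q + 1) * q ^ 2 :=
    (Set.ncard_le_ncard (aff_sdiff_sub hc hc' hcc) (Set.toFinite _)).trans (card_Nog hq hcc)
  omega

/-- the bad pairs -/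
def BadD (q : ℕ) (c₁ c₂ c₃ : F) : Set (Perm F × Perm F) :=
  {p | p.1 ∈ PD q c₁ c₂ ∧ p.2 ∈ PD q c₂ c₃ ∧ p.1.trans p.2 ∉ PD q c₁ c₃}

include hq hadd in
theorem card_BadD {c₁ c₂ c₃ : F} (hc₁ : c₁ ^ (q + 1) ≠ 1) (hc₂ : c₂ ^ (q + 1) ≠ 1)
    (hc₃ : c₃ ^ (q + 1) ≠ 1) (h12 : c₁ ≠ c₂) (h23 : c₂ ≠ c₃) (h13 : c₁ ≠ c₃) :
    (BadD q c₁ c₂ c₃).ncard ≤ 3 * ((q + 1) * q ^ 2) * (q ^ 2 * (q ^ 2 - 1)) := by
  classical
  have hq2 := q_pos hq
  have h2 : 2 ≤ Fintype.card F := by rw [hq]; nlinarith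
  have hN₁ := (PD_sharp hq hadd h12).ncard h2
  have hN₂ := (PD_sharp hq hadd h23).ncard h2
  rw [hq] at hN₁ hN₂
  have h1 : BadD q c₁ c₂ c₃ ⊆ ((PD q c₁ c₂ \ aff F) ×ˢ PD q c₂ c₃) ∪
      ((PD q c₁ c₂ ×ˢ (PD q c₂ c₃ \ aff F)) ∪
      ((fun p : Perm F × Perm F => (p.1, p.1.symm.trans p.2)) ''
        (PD q c₁ c₂ ×ˢ Nog q c₁ c₃))) := by
    rintro ⟨α, β⟩ ⟨h1, h2, h3⟩
    rw [Set.mem_union, Set.mem_union]
    by_cases hα : α ∈ aff F
    · by_cases hβ : β ∈ aff F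
      · refine Or.inr (Or.inr ⟨(α, α.trans β), ⟨h1, ?_⟩, ?_⟩)
        · apply aff_sdiff_sub hc₁ hc₃ h13
          refine ⟨?_, h3⟩
          obtain ⟨a, b, ha, hα'⟩ := hα
          obtain ⟨c, d, hc, hβ'⟩ := hβ
          refine ⟨c * a, c * b + d, mul_ne_zero hc ha, fun x => ?_⟩
          rw [Equiv.trans_apply, hα', hβ']
          ring
        · simp only [Prod.mk.injEq, true_and]
          ext x
          simp
      · exact Or.inr (Or.inl ⟨h1, h2, hβ⟩)
    · exact Or.inl ⟨⟨h1, hα⟩, h2⟩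
  refine (Set.ncard_le_ncard h1 (Set.toFinite _)).trans ?_
  refine (Set.ncard_union_le _ _).trans ?_
  have g2 := Set.ncard_union_le (PD q c₁ c₂ ×ˢ (PD q c₂ c₃ \ aff F))
    ((fun p : Perm F × Perm F => (p.1, p.1.symm.trans p.2)) '' (PD q c₁ c₂ ×ˢ Nog q c₁ c₃))
  have g3 := Set.ncard_image_le (f := fun p : Perm F × Perm F => (p.1, p.1.symm.trans p.2))
    (Set.toFinite (PD q c₁ c₂ ×ˢ Nog q c₁ c₃))
  rw [Set.ncard_prod] at g3
  rw [Set.ncard_prod] at g2 ⊢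
  have k1 := card_PD_sdiff hq hadd hc₁ hc₂ h12
  have k2 := card_PD_sdiff hq hadd hc₂ hc₃ h23
  have k3 := card_Nog hq (q := q) h13
  rw [hN₁] at g2 g3
  rw [hN₂]
  set N := q ^ 2 * (q ^ 2 - 1)
  have e1 : (PD q c₁ c₂ \ aff F).ncard * N ≤ (q + 1) * q ^ 2 * N := Nat.mul_le_mul_right _ k1
  have e2 : N * (PD q c₂ c₃ \ aff F).ncard ≤ N * ((q + 1) * q ^ 2) := Nat.mul_le_mul_left _ k2
  have e3 : N * (Nog q c₁ c₃).ncard ≤ N * ((q + 1) * q ^ 2) := Nat.mul_le_mul_left _ k3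
  have e4 : 3 * ((q + 1) * q ^ 2) * N = (q + 1) * q ^ 2 * N + N * ((q + 1) * q ^ 2) +
      N * ((q + 1) * q ^ 2) := by ring
  omega

include hq in
theorem BadD_nonempty (h4 : 4 ≤ q) {c₁ c₂ c₃ : F} (hc₁ : c₁ ^ (q + 1) ≠ 1)
    (hc₂ : c₂ ^ (q + 1) ≠ 1) (hc₃ : c₃ ^ (q + 1) ≠ 1) (h12 : c₁ ≠ c₂) (h23 : c₂ ≠ c₃)
    (h13 : c₁ ≠ c₃) : (BadD q c₁ c₂ c₃).Nonempty := by
  classical
  have h1c₁ : (1 : F) - c₁ ≠ 0 := by
    intro h
    apply hc₁
    have : c₁ = 1 := by linear_combination -h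
    rw [this, one_pow]
  have h1c₃ : (1 : F) - c₃ ≠ 0 := by
    intro h
    apply hc₃
    have : c₃ = 1 := by linear_combination -h
    rw [this, one_pow]
  -- a multiplier which is not good for `c₁`, `c₃`
  set m : F := (1 - c₃) / (1 - c₁) with hm
  have hmc : m * (1 - c₁) = 1 - c₃ := div_mul_cancel₀ _ h1c₁
  have hm0 : m ≠ 0 := div_ne_zero h1c₃ h1c₁
  have hm1 : m ≠ 1 := by
    intro h
    rw [h] at hmc
    apply h13
    linear_combination -hmc
  have hmng : ¬ Good q c₁ c₃ m := by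
    rintro ⟨_, h | h⟩
    · exact hm1 h
    · apply h
      have hm1' : m - 1 ≠ 0 := sub_ne_zero.2 hm1
      have : (m * c₁ - c₃) / (m - 1) = 1 := by
        rw [div_eq_one_iff_eq hm1']
        linear_combination -hmc
      rw [this, one_pow]
  -- factors that are good
  obtain ⟨k, hk0, hk1, hk2⟩ : ∃ k : F, k ≠ 0 ∧ Good q c₁ c₂ k ∧ Good q c₂ c₃ (m / k) := by
    by_contra hcon
    push Not at hcon
    have h1 : (Set.univ : Set F) ⊆ {0} ∪ ({k : F | k ≠ 0 ∧ ¬ Good q c₁ c₂ k} ∪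
        (fun l => m / l) '' {k : F | k ≠ 0 ∧ ¬ Good q c₂ c₃ k}) := by
      intro k _
      rw [Set.mem_union, Set.mem_union]
      by_cases hk : k = 0
      · exact Or.inl hk
      · by_cases hg : Good q c₁ c₂ k
        · refine Or.inr (Or.inr ⟨m / k, ⟨div_ne_zero hm0 hk, hcon k hk hg⟩, ?_⟩)
          field_simp
        · exact Or.inr (Or.inl ⟨hk, hg⟩)
    have h2 := Set.ncard_le_ncard h1 (Set.toFinite _)
    have h3 := Set.ncard_union_le ({0} : Set F) ({k : F | k ≠ 0 ∧ ¬ Good q c₁ c₂ k} ∪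
        (fun l => m / l) '' {k : F | k ≠ 0 ∧ ¬ Good q c₂ c₃ k})
    have h5 := Set.ncard_union_le {k : F | k ≠ 0 ∧ ¬ Good q c₁ c₂ k}
        ((fun l => m / l) '' {k : F | k ≠ 0 ∧ ¬ Good q c₂ c₃ k})
    have h6 := Set.ncard_image_le (f := fun l => m / l)
      (Set.toFinite {k : F | k ≠ 0 ∧ ¬ Good q c₂ c₃ k})
    have h7 := card_not_good hq (q := q) h12
    have h8 := card_not_good hq (q := q) h23
    rw [Set.ncard_singleton] at h3
    rw [Set.ncard_univ, Nat.card_eq_fintype_card, hq] at h2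
    have h9 : 4 * q ≤ q ^ 2 := by nlinarith
    omega
  have hmk0 : m / k ≠ 0 := div_ne_zero hm0 hk0
  obtain ⟨α, hα⟩ := exists_aff hk0 (0 : F)
  obtain ⟨β, hβ⟩ := exists_aff hmk0 (0 : F)
  refine ⟨(α, β), mem_PD_of_good hc₁ hc₂ h12 hk1 hα, mem_PD_of_good hc₂ hc₃ h23 hk2 hβ, ?_⟩
  intro h
  apply hmng
  refine good_of_mem_PD hq hc₁ hc₃ h13 hm0 (b := 0) (f := α.trans β) ?_ h
  intro y
  rw [Equiv.trans_apply, hα, hβ]
  field_simp
  ring

theorem BadD_eq {c₁ c₂ c₃ : F} :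
    (BadD q c₁ c₂ c₃).ncard = (nonPersp (BD F q) (Zp F) (Lv c₁) (Lv c₂) (Lv c₃)).ncard ∧
      ((BadD q c₁ c₂ c₃).Nonempty →
        (nonPersp (BD F q) (Zp F) (Lv c₁) (Lv c₂) (Lv c₃)).Nonempty) := by
  set Φ : Perm F × Perm F → (Pnt (Zp F) (Lv c₁) ≃ Pnt (Zp F) (Lv c₂)) ×
    (Pnt (Zp F) (Lv c₂) ≃ Pnt (Zp F) (Lv c₃)) :=
    fun p => (((ec c₁).symm.trans p.1).trans (ec c₂), ((ec c₂).symm.trans p.2).trans (ec c₃))
    with hΦ
  have hmul : ∀ p : Perm F × Perm F, (Φ p).1.trans (Φ p).2 =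
      ((ec c₁).symm.trans (p.1.trans p.2)).trans (ec c₃) := by
    intro p
    ext y
    simp [hΦ]
  have hinj : Function.Injective Φ := by
    rintro ⟨a, b⟩ ⟨a', b'⟩ h
    simp only [hΦ, Prod.mk.injEq] at h
    have e1 : a = a' := by
      ext y
      have h1 := congrArg (fun g : Pnt (Zp F) (Lv c₁) ≃ Pnt (Zp F) (Lv c₂) =>
        (ec c₂).symm (g (ec c₁ y))) h.1
      simpa using h1
    have e2 : b = b' := by
      ext y
      have h1 := congrArg (fun g : Pnt (Zp F) (Lv c₂) ≃ Pnt (Zp F) (Lv c₃) =>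
        (ec c₃).symm (g (ec c₂ y))) h.2
      simpa using h1
    rw [e1, e2]
  have himg : Φ '' BadD q c₁ c₂ c₃ = nonPersp (BD F q) (Zp F) (Lv c₁) (Lv c₂) (Lv c₃) := by
    ext ⟨u, v⟩
    rw [Set.mem_image]
    constructor
    · rintro ⟨p, ⟨h1, h2, h3⟩, h4⟩
      rw [← h4]
      refine ⟨h1, h2, ?_⟩
      rw [hmul]
      exact h3
    · rintro ⟨h1, h2, h3⟩
      refine ⟨(((ec c₁).trans u).trans (ec c₂).symm, ((ec c₂).trans v).trans (ec c₃).symm), ?_, ?_⟩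
      · have e1 : ((ec c₁).symm.trans (((ec c₁).trans u).trans (ec c₂).symm)).trans (ec c₂) = u := by
          ext y; simp
        have e2 : ((ec c₂).symm.trans (((ec c₂).trans v).trans (ec c₃).symm)).trans (ec c₃) = v := by
          ext y; simp
        refine ⟨?_, ?_, ?_⟩
        · unfold PD
          simp only [Set.mem_ofPred_eq]
          rw [e1]
          exact h1
        · unfold PD
          simp only [Set.mem_ofPred_eq]
          rw [e2]
          exact h2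
        · unfold PD
          simp only [Set.mem_ofPred_eq]
          rw [← hmul (((ec c₁).trans u).trans (ec c₂).symm, ((ec c₂).trans v).trans (ec c₃).symm)]
          simp only [hΦ]
          rw [e1, e2]
          exact h3
      · simp only [hΦ, Prod.mk.injEq]
        constructor
        · ext y; simp
        · ext y; simp
  refine ⟨?_, ?_⟩
  · rw [← himg, Set.ncard_image_of_injective _ hinj]
  · intro h
    rw [← himg]
    exact h.image _

end

/-- For every prime power `q ≥ 4` there is a plane of order `q ^ 2` with three lines through a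
point such that some, but only few, products of perspectivities between the lines are not
perspectivities. -/
theorem exists_few {q : ℕ} (hq : IsPrimePow q) (h4 : 4 ≤ q) :
    ∃ (V : Type) (_ : Fintype V) (B : Finset (Finset V)) (Z : V) (l₁ l₂ l₃ : Finset V),
      Plane (q ^ 2) B ∧ l₁ ∈ B ∧ l₂ ∈ B ∧ l₃ ∈ B ∧ l₁ ≠ l₂ ∧ l₂ ≠ l₃ ∧ l₁ ≠ l₃ ∧
      Z ∈ l₁ ∧ Z ∈ l₂ ∧ Z ∈ l₃ ∧ (nonPersp B Z l₁ l₂ l₃).Nonempty ∧
      (nonPersp B Z l₁ l₂ l₃).ncard ≤ 3 * ((q + 1) * q ^ 2) * (q ^ 2 * (q ^ 2 - 1)) := by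
  classical
  obtain ⟨F, hF, hF2, hc, hadd⟩ := exists_field hq
  obtain ⟨a, c, ha0, hc0, ha1, hc1, hca⟩ := exists_norms hc h4
  have h01 : (0 : F) ^ (q + 1) ≠ 1 := by
    rw [zero_pow (by omega)]
    exact zero_ne_one
  have hac : a ≠ c := by
    rintro rfl
    exact hca rfl
  refine ⟨Pt F, inferInstance, BD F q, Zp F, Lv 0, Lv a, Lv c, planeD hc hadd, vert_mem 0,
    vert_mem a, vert_mem c, vert_ne ha0.symm, vert_ne hac, vert_ne hc0.symm, by simp, by simp,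
    by simp, ?_, ?_⟩
  · exact BadD_eq.2 (BadD_nonempty hc h4 h01 ha1 hc1 ha0.symm hac hc0.symm)
  · rw [← BadD_eq.1]
    exact card_BadD hc hadd h01 ha1 hc1 ha0.symm hac hc0.symm

end Pool.Agent.N606.ST
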