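import Mathlib

/-!
# Two symmetric designs on one point set
-/

set_option autoImplicit false

namespace Pool.Agent.N606.ST.Sym

open Finset Equiv

variable {V : Type} [Fintype V] [DecidableEq V] {k lam : ℕ}

/-- the blocks of `B` through `x` -/
def thru (B : Finset (Finset V)) (x : V) : Finset (Finset V) := B.filter fun b => x ∈ b

omit [Fintype V] in
theorem mem_thru {B : Finset (Finset V)} {x : V} {b : Finset V} :
    b ∈ thru B x ↔ b ∈ B ∧ x ∈ b := by simp [thru]

/-- the blocks of `B` through `x` and `y` -/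
def thru2 (B : Finset (Finset V)) (x y : V) : Finset (Finset V) :=
  B.filter fun b => x ∈ b ∧ y ∈ b

omit [Fintype V] in
theorem mem_thru2 {B : Finset (Finset V)} {x y : V} {b : Finset V} :
    b ∈ thru2 B x y ↔ b ∈ B ∧ x ∈ b ∧ y ∈ b := by simp [thru2]

/-- a symmetric design -/
structure SD (k lam : ℕ) (B : Finset (Finset V)) : Prop where
  size : ∀ b ∈ B, b.card = k
  rep : ∀ x, (thru B x).card = k
  pair : ∀ x y, x ≠ y → (thru2 B x y).card = lam
  inter : ∀ b ∈ B, ∀ c ∈ B, b ≠ c → (b ∩ c).card = lam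
  card : B.card = Fintype.card V

omit [Fintype V] in
/-- double counting -/
theorem count (L : Finset (Finset V)) (X : Finset V) :
    ∑ b ∈ L, (b ∩ X).card = ∑ x ∈ X, (thru L x).card := by
  have h : ∀ b : Finset V, (b ∩ X).card = ∑ x ∈ X, if x ∈ b then 1 else 0 := by
    intro b
    rw [← card_filter, inter_comm]
    congr 1
  simp only [h, thru, card_filter]
  rw [sum_comm]

section two

variable {B B' : Finset (Finset V)} (h : SD k lam B) (h' : SD k lam B')

include h h'

theorem thru_sdiff (x : V) : (thru (B \ B') x).card = (thru (B' \ B) x).card := by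
  have h1 : thru (B \ B') x = thru B x \ thru B' x := by
    ext σ
    simp only [mem_thru, mem_sdiff]
    tauto
  have h2 : thru (B' \ B) x = thru B' x \ thru B x := by
    ext σ
    simp only [mem_thru, mem_sdiff]
    tauto
  rw [h1, h2]
  exact card_sdiff_comm ((h.rep x).trans (h'.rep x).symm)

theorem thru2_sdiff {x y : V} (hxy : x ≠ y) :
    (thru2 (B \ B') x y).card = (thru2 (B' \ B) x y).card := by
  have h1 : thru2 (B \ B') x y = thru2 B x y \ thru2 B' x y := by
    ext σ
    simp only [mem_thru2, mem_sdiff]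
    tauto
  have h2 : thru2 (B' \ B) x y = thru2 B' x y \ thru2 B x y := by
    ext σ
    simp only [mem_thru2, mem_sdiff]
    tauto
  rw [h1, h2]
  exact card_sdiff_comm ((h.pair x y hxy).trans (h'.pair x y hxy).symm)

theorem sdiff_card : (B \ B').card = (B' \ B).card :=
  card_sdiff_comm (h.card.trans h'.card.symm)

/-- Some block of `B` through two points of a block in `B' \ B` is not in `B'`. -/
theorem exists_join {T : Finset V} (hT : T ∈ B' \ B) {x y : V} (hxy : x ≠ y) (hx : x ∈ T)
    (hy : y ∈ T) : ∃ b ∈ B \ B', x ∈ b ∧ y ∈ b := by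
  have h1 : 0 < (thru2 (B \ B') x y).card := by
    rw [thru2_sdiff h h' hxy, card_pos]
    exact ⟨T, mem_thru2.2 ⟨hT, hx, hy⟩⟩
  obtain ⟨b, hb⟩ := card_pos.1 h1
  rw [mem_thru2] at hb
  exact ⟨b, hb.1, hb.2⟩

/-- the sum of the intersections with the changed blocks through a point -/
theorem sum_inter {T : Finset V} {x : V} :
    ∑ b ∈ thru (B \ B') x, (b ∩ T).card = ∑ b ∈ thru (B' \ B) x, (b ∩ T).card := by
  rw [count, count]
  apply sum_congr rfl
  intro y _
  have e1 : ∀ L : Finset (Finset V), thru (thru L x) y = thru2 L x y := by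
    intro L
    ext b
    simp only [mem_thru, mem_thru2]
    tauto
  rw [e1, e1]
  by_cases hxy : x = y
  · subst hxy
    have e2 : ∀ L : Finset (Finset V), thru2 L x x = thru L x := by
      intro L
      ext b
      simp only [mem_thru, mem_thru2]
      tauto
    rw [e2, e2, thru_sdiff h h']
  · exact thru2_sdiff h h' hxy

/-- The first inequality. -/
theorem ineq1 {T : Finset V} (hT : T ∈ B' \ B) {M : ℕ} (hM : ∀ b ∈ B \ B', (b ∩ T).card ≤ M)
    {x : V} (hx : x ∈ T) :
    (k : ℝ) - lam ≤ (thru (B \ B') x).card * ((M : ℝ) - lam) := by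
  have hTx : T ∈ thru (B' \ B) x := mem_thru.2 ⟨hT, hx⟩
  have h1 : ∑ b ∈ thru (B' \ B) x, (b ∩ T).card =
      k + lam * ((thru (B' \ B) x).card - 1) := by
    rw [← add_sum_erase _ _ hTx, inter_self, h'.size T (mem_sdiff.1 hT).1]
    congr 1
    have h2 : ∀ b ∈ (thru (B' \ B) x).erase T, (b ∩ T).card = lam := by
      intro b hb
      rw [mem_erase, mem_thru, mem_sdiff] at hb
      exact h'.inter b hb.2.1.1 T (mem_sdiff.1 hT).1 hb.1
    rw [sum_congr rfl h2, sum_const, smul_eq_mul, card_erase_of_mem hTx, mul_comm]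
  rw [← sum_inter h h'] at h1
  have h2 : ∑ b ∈ thru (B \ B') x, (b ∩ T).card ≤ (thru (B \ B') x).card * M := by
    rw [← smul_eq_mul]
    apply sum_le_card_nsmul
    intro b hb
    exact hM b (mem_thru.1 hb).1
  have hpos : 0 < (thru (B' \ B) x).card := card_pos.2 ⟨T, hTx⟩
  rw [h1, thru_sdiff h h'] at h2
  rw [thru_sdiff h h']
  have h3 : ((k + lam * ((thru (B' \ B) x).card - 1) : ℕ) : ℝ) ≤
      (((thru (B' \ B) x).card * M : ℕ) : ℝ) := by exact_mod_cast h2
  push_cast [Nat.cast_sub (show 1 ≤ (thru (B' \ B) x).card from hpos)] at h3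
  linarith

/-- The second inequality. -/
theorem ineq2 {T m : Finset V} (hT : T ∈ B' \ B) (hm : m ∈ B \ B') {x : V} (hx : x ∈ T)
    (hxm : x ∉ m) : (m ∩ T).card ≤ lam * (thru (B \ B') x).card := by
  have h1 : m ∩ T ⊆ (thru (B \ B') x).biUnion fun b => b ∩ m := by
    intro y hy
    rw [mem_inter] at hy
    obtain ⟨b, hb, hb1, hb2⟩ := exists_join h h' hT (show x ≠ y by
      rintro rfl
      exact hxm hy.1) hx hy.2
    rw [mem_biUnion]
    exact ⟨b, mem_thru.2 ⟨hb, hb1⟩, mem_inter.2 ⟨hb2, hy.1⟩⟩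
  refine (card_le_card h1).trans (card_biUnion_le.trans ?_)
  have h2 : ∀ b ∈ thru (B \ B') x, (b ∩ m).card = lam := by
    intro b hb
    rw [mem_thru, mem_sdiff] at hb
    refine h.inter b hb.1.1 m (mem_sdiff.1 hm).1 ?_
    rintro rfl
    exact hxm hb.2
  rw [sum_congr rfl h2, sum_const, smul_eq_mul, mul_comm]

/-- The third relation. -/
theorem ineq3 {T : Finset V} (hT : T ∈ B' \ B) :
    ∑ x ∈ T, ((thru (B \ B') x).card : ℝ) = k + lam * (((B' \ B).card : ℝ) - 1) := by
  have h1 : ∑ x ∈ T, (thru (B \ B') x).card = ∑ b ∈ B' \ B, (b ∩ T).card := by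
    rw [count]
    apply sum_congr rfl
    intro x _
    exact thru_sdiff h h' x
  have h2 : ∑ b ∈ B' \ B, (b ∩ T).card = k + lam * ((B' \ B).card - 1) := by
    rw [← add_sum_erase _ _ hT, inter_self, h'.size T (mem_sdiff.1 hT).1]
    congr 1
    have h2 : ∀ b ∈ (B' \ B).erase T, (b ∩ T).card = lam := by
      intro b hb
      rw [mem_erase, mem_sdiff] at hb
      exact h'.inter b hb.2.1 T (mem_sdiff.1 hT).1 hb.1
    rw [sum_congr rfl h2, sum_const, smul_eq_mul, card_erase_of_mem hT, mul_comm]
  have hpos : 1 ≤ (B' \ B).card := card_pos.2 ⟨T, hT⟩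
  have h3 : ((∑ x ∈ T, (thru (B \ B') x).card : ℕ) : ℝ) =
      ((k + lam * ((B' \ B).card - 1) : ℕ) : ℝ) := by rw [h1, h2]
  push_cast [Nat.cast_sub hpos] at h3
  exact h3

/-- If a block `T` of `B' \ B` meets every block of `B \ B'` in at most `lam (a - z)` points, where
`a = k / lam` and `z = √a`, the designs differ in at least `1 + z (a - z)` blocks. -/
theorem bound12 (hl : 1 ≤ lam) {T m : Finset V} (hT : T ∈ B' \ B) (hm : m ∈ B \ B')
    (hM : ∀ b ∈ B \ B', (b ∩ T).card ≤ (m ∩ T).card) {a z : ℝ} (hz : 2 ≤ z)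
    (hza : z * z = a) (hak : lam * a = k) (hMr : ((m ∩ T).card : ℝ) ≤ lam * (a - z)) :
    1 + z * (a - z) ≤ (B' \ B).card := by
  set M := (m ∩ T).card with hMdef
  have hl' : (1 : ℝ) ≤ lam := by exact_mod_cast hl
  have hl0 : (0 : ℝ) < lam := by linarith
  have hTc : T.card = k := h'.size T (mem_sdiff.1 hT).1
  set u : ℝ := M / lam with hu
  have hMu : (M : ℝ) = lam * u := by rw [hu]; field_simp
  have hua : u ≤ a - z := by
    rw [hMu] at hMr
    exact le_of_mul_le_mul_left hMr hl0
  have i1 : ∀ x ∈ T, a - 1 ≤ (thru (B \ B') x).card * (u - 1) := by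
    intro x hx
    have h1 := ineq1 h h' hT hM hx
    rw [hMu, ← hak] at h1
    have h2 : (lam : ℝ) * (a - 1) ≤ lam * ((thru (B \ B') x).card * (u - 1)) := by
      calc (lam : ℝ) * (a - 1) = lam * a - lam := by ring
        _ ≤ _ := h1
        _ = _ := by ring
    exact le_of_mul_le_mul_left h2 hl0
  have ha4 : 4 ≤ a := by nlinarith
  have hTne : T.Nonempty := by
    rw [← card_pos, hTc]
    have : (0 : ℝ) < k := by rw [← hak]; positivity
    exact_mod_cast this
  have hu1 : 1 < u := by
    obtain ⟨x, hx⟩ := hTne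
    have h1 := i1 x hx
    by_contra h2
    push Not at h2
    have h3 : (0 : ℝ) ≤ (thru (B \ B') x).card := Nat.cast_nonneg _
    nlinarith
  have i3 := ineq3 h h' hT
  have hsum : ∑ x ∈ T, (((thru (B \ B') x).card : ℝ) - 1) = lam * (((B' \ B).card : ℝ) - 1) := by
    rw [sum_sub_distrib, i3]
    simp only [sum_const, nsmul_eq_mul, mul_one, hTc]
    ring
  rcases le_total u z with hcase | hcase
  · have h1 : ∀ x ∈ T, z ≤ ((thru (B \ B') x).card : ℝ) - 1 := by
      intro x hx
      have h2 := i1 x hx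
      by_contra h3
      push Not at h3
      have h4 : ((thru (B \ B') x).card : ℝ) < z + 1 := by linarith
      nlinarith
    have h2 := card_nsmul_le_sum T _ _ h1
    rw [nsmul_eq_mul, hTc, hsum, ← hak] at h2
    have h3 : (lam : ℝ) * (a * z) ≤ lam * (((B' \ B).card : ℝ) - 1) := by
      calc (lam : ℝ) * (a * z) = lam * a * z := by ring
        _ ≤ _ := h2
    have h4 := le_of_mul_le_mul_left h3 hl0
    nlinarith
  · have hsplit : ∑ x ∈ T, (((thru (B \ B') x).card : ℝ) - 1) =
        ∑ x ∈ m ∩ T, (((thru (B \ B') x).card : ℝ) - 1) +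
        ∑ x ∈ T \ m, (((thru (B \ B') x).card : ℝ) - 1) := by
      rw [← sum_inter_add_sum_sdiff T m, inter_comm T m]
    have hMle : M ≤ k := by
      rw [← hTc]
      exact card_le_card inter_subset_right
    have hc2 : (T \ m).card = k - M := by
      have h1 := card_sdiff_add_card_inter T m
      rw [inter_comm T m, ← hMdef, hTc] at h1
      omega
    have hua' : u ≤ a := by linarith
    have h2 : lam * ((a - u) * (u - 1)) ≤
        ∑ x ∈ T \ m, (((thru (B \ B') x).card : ℝ) - 1) := by
      have h3 : ∀ x ∈ T \ m, u - 1 ≤ ((thru (B \ B') x).card : ℝ) - 1 := by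
        intro x hx
        rw [mem_sdiff] at hx
        have h4 : (M : ℝ) ≤ lam * (thru (B \ B') x).card := by
          exact_mod_cast ineq2 h h' hT hm hx.1 hx.2
        rw [hMu] at h4
        have := le_of_mul_le_mul_left h4 hl0
        linarith
      have h4 := card_nsmul_le_sum _ _ _ h3
      rw [hc2, nsmul_eq_mul, Nat.cast_sub hMle, hMu, ← hak] at h4
      refine le_trans (le_of_eq ?_) h4
      ring
    have h5 : lam * (a - u) ≤ ∑ x ∈ m ∩ T, (((thru (B \ B') x).card : ℝ) - 1) := by
      have h6 : ∀ x ∈ m ∩ T, (a - u) / (u - 1) ≤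
          ((thru (B \ B') x).card : ℝ) - 1 := by
        intro x hx
        rw [div_le_iff₀ (by linarith)]
        have := i1 x (mem_inter.1 hx).2
        linarith
      have h7 := card_nsmul_le_sum _ _ _ h6
      rw [nsmul_eq_mul, ← hMdef, hMu] at h7
      refine le_trans ?_ h7
      rw [mul_div_assoc', le_div_iff₀ (by linarith)]
      have h8 : 0 ≤ (lam : ℝ) * (a - u) := mul_nonneg hl0.le (by linarith)
      nlinarith
    have h8 : 0 ≤ (u - z) * (a - z - u) := mul_nonneg (by linarith) (by linarith)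
    have h9 : (lam : ℝ) * ((a - u) * u) ≤ lam * (((B' \ B).card : ℝ) - 1) := by
      rw [← hsum, hsplit]
      calc (lam : ℝ) * ((a - u) * u) = lam * (a - u) + lam * ((a - u) * (u - 1)) := by ring
        _ ≤ _ := add_le_add h5 h2
    have h10 := le_of_mul_le_mul_left h9 hl0
    nlinarith

omit h in
/-- Bonferroni's inequality. -/
theorem bonf (K : Finset V) (x : ℝ) (hK : ∀ p ∈ K, x ≤ (thru (B' \ B) p).card) :
    (K.card : ℝ) * x - lam * (K.card * (K.card - 1) / 2) ≤
      ((K.biUnion fun p => thru (B' \ B) p).card : ℝ) := by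
  induction K using Finset.induction_on with
  | empty => simp
  | insert p K hp ih =>
    have ih' := ih (fun q hq => hK q (mem_insert_of_mem hq))
    rw [biUnion_insert, card_insert_of_notMem hp]
    have h1 : (thru (B' \ B) p ∩ K.biUnion fun p => thru (B' \ B) p).card ≤ lam * K.card := by
      have h2 : (thru (B' \ B) p ∩ K.biUnion fun p => thru (B' \ B) p) ⊆
          K.biUnion fun q => thru (B' \ B) p ∩ thru (B' \ B) q := by
        intro σ hσ
        rw [mem_inter, mem_biUnion] at hσ
        obtain ⟨h3, q, h4, h5⟩ := hσ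
        exact mem_biUnion.2 ⟨q, h4, mem_inter.2 ⟨h3, h5⟩⟩
      refine (card_le_card h2).trans (card_biUnion_le.trans ?_)
      have h3 : ∀ q ∈ K, (thru (B' \ B) p ∩ thru (B' \ B) q).card ≤ lam := by
        intro q hq
        have hne : p ≠ q := by
          rintro rfl
          exact hp hq
        rw [← h'.pair p q hne]
        apply card_le_card
        intro σ hσ
        rw [mem_inter, mem_thru, mem_thru, mem_sdiff] at hσ
        exact mem_thru2.2 ⟨hσ.1.1.1, hσ.1.2, hσ.2.2⟩
      calc ∑ q ∈ K, (thru (B' \ B) p ∩ thru (B' \ B) q).card ≤ ∑ q ∈ K, lam := sum_le_sum h3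
        _ = lam * K.card := by simp [mul_comm]
    have h4 := card_union_add_card_inter (thru (B' \ B) p) (K.biUnion fun p => thru (B' \ B) p)
    have h5 : ((thru (B' \ B) p ∪ K.biUnion fun p => thru (B' \ B) p).card : ℝ) +
        (thru (B' \ B) p ∩ K.biUnion fun p => thru (B' \ B) p).card =
        (thru (B' \ B) p).card + (K.biUnion fun p => thru (B' \ B) p).card := by exact_mod_cast h4
    have h6 : ((thru (B' \ B) p ∩ K.biUnion fun p => thru (B' \ B) p).card : ℝ) ≤
        lam * K.card := by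
      exact_mod_cast h1
    have h7 := hK p (mem_insert_self _ _)
    push_cast
    nlinarith

end two

end Pool.Agent.N606.ST.Sym
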