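import Pool.Agent.N606.ST.Sym

/-!
# Symmetric designs with few different blocks are relabellings of one another
-/

set_option autoImplicit false

namespace Pool.Agent.N606.ST.Sym

open Finset Equiv

variable {V : Type} [Fintype V] [DecidableEq V] {k lam : ℕ}

omit [Fintype V] in
/-- double counting of pairs of blocks -/
theorem count2 {ι : Type} (L : Finset ι) (f : ι → Finset V) (X : Finset V) :
    ∑ b ∈ L, ∑ c ∈ L, ((f b ∩ f c) ∩ X).card = ∑ x ∈ X, (L.filter fun b => x ∈ f b).card ^ 2 := by
  have h : ∀ b c : ι, ((f b ∩ f c) ∩ X).card =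
      ∑ x ∈ X, (if x ∈ f b then 1 else 0) * (if x ∈ f c then 1 else 0) := by
    intro b c
    have h1 : (f b ∩ f c) ∩ X = X.filter fun x => x ∈ f b ∧ x ∈ f c := by
      ext x
      simp only [mem_inter, mem_filter]
      tauto
    rw [h1, card_filter]
    apply sum_congr rfl
    intro x _
    by_cases h1 : x ∈ f b <;> by_cases h2 : x ∈ f c <;> simp [h1, h2]
  simp only [h]
  have h2 : ∀ b ∈ L, ∑ c ∈ L, ∑ x ∈ X, (if x ∈ f b then 1 else 0) * (if x ∈ f c then 1 else 0) =
      ∑ x ∈ X, ∑ c ∈ L, (if x ∈ f b then 1 else 0) * (if x ∈ f c then 1 else 0) :=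
    fun b _ => sum_comm
  rw [sum_congr rfl h2, sum_comm]
  apply sum_congr rfl
  intro x _
  rw [sq, card_filter, sum_mul_sum]

omit [Fintype V] in
theorem count1 {ι : Type} (L : Finset ι) (f : ι → Finset V) (X : Finset V) :
    ∑ b ∈ L, (f b ∩ X).card = ∑ x ∈ X, (L.filter fun b => x ∈ f b).card := by
  have h : ∀ b : ι, (f b ∩ X).card = ∑ x ∈ X, if x ∈ f b then 1 else 0 := by
    intro b
    rw [← card_filter, inter_comm]
    congr 1
  simp only [h, card_filter]
  rw [sum_comm]

section relabel

variable {B B' : Finset (Finset V)} (h : SD k lam B) (h' : SD k lam B')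

include h h'

/-- Two symmetric designs that agree outside a small set differ by a permutation of the set. -/
theorem relabel (hlk : lam < k) {H : Finset V} (hHk : lam + H.card < k)
    (hH : lam * (H.card - 1) * (k + lam * (H.card - 1)) < k ^ 2 + lam ^ 2 * (H.card - 1))
    (hBB : ∀ b ∈ B, ∃ c ∈ B', ∀ x ∉ H, x ∈ b ↔ x ∈ c) :
    ∃ g : Perm V, (∀ x ∉ H, g x = x) ∧ B' = B.image fun b => b.image g := by
  classical
  choose! φ hφ1 hφ2 using hBB
  have hout : ∀ b ∈ B, φ b \ H = b \ H := by
    intro b hb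
    ext x
    simp only [mem_sdiff]
    constructor
    · rintro ⟨h1, h2⟩
      exact ⟨(hφ2 b hb x h2).2 h1, h2⟩
    · rintro ⟨h1, h2⟩
      exact ⟨(hφ2 b hb x h2).1 h1, h2⟩
  have hinj : ∀ b ∈ B, ∀ c ∈ B, φ b = φ c → b = c := by
    intro b hb c hc hbc
    by_contra hne
    have h1 : b \ H ⊆ b ∩ c := by
      intro x hx
      have h2 := hx
      rw [← hout b hb, hbc, hout c hc] at h2
      exact mem_inter.2 ⟨(mem_sdiff.1 hx).1, (mem_sdiff.1 h2).1⟩
    have h2 := card_le_card h1
    rw [h.inter b hb c hc hne] at h2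
    have h3 := card_sdiff_add_card_inter b H
    have h4 : (b ∩ H).card ≤ H.card := card_le_card inter_subset_right
    rw [h.size b hb] at h3
    omega
  -- the intersections inside `H`
  have hin1 : ∀ b ∈ B, (φ b ∩ H).card = (b ∩ H).card := by
    intro b hb
    have h1 := card_sdiff_add_card_inter b H
    have h2 := card_sdiff_add_card_inter (φ b) H
    rw [h.size b hb] at h1
    rw [h'.size _ (hφ1 b hb), hout b hb] at h2
    omega
  have hin2 : ∀ b ∈ B, ∀ c ∈ B, ((φ b ∩ φ c) ∩ H).card = ((b ∩ c) ∩ H).card := by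
    intro b hb c hc
    by_cases hbc : b = c
    · subst hbc
      rw [inter_self, inter_self]
      exact hin1 b hb
    · have h1 := card_sdiff_add_card_inter (b ∩ c) H
      have h2 := card_sdiff_add_card_inter (φ b ∩ φ c) H
      rw [h.inter b hb c hc hbc] at h1
      rw [h'.inter _ (hφ1 b hb) _ (hφ1 c hc) (fun e => hbc (hinj b hb c hc e))] at h2
      have h3 : (φ b ∩ φ c) \ H = (b ∩ c) \ H := by
        ext x
        simp only [mem_sdiff, mem_inter]
        constructor
        · rintro ⟨⟨g1, g2⟩, g3⟩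
          exact ⟨⟨(hφ2 b hb x g3).2 g1, (hφ2 c hc x g3).2 g2⟩, g3⟩
        · rintro ⟨⟨g1, g2⟩, g3⟩
          exact ⟨⟨(hφ2 b hb x g3).1 g1, (hφ2 c hc x g3).1 g2⟩, g3⟩
      rw [h3] at h2
      omega
  have hconc : ∀ Q ∈ H, ∃ R ∈ H, ∀ b ∈ B, Q ∈ b → R ∈ φ b := by
    intro Q hQ
    have hHpos : 1 ≤ H.card := card_pos.2 ⟨Q, hQ⟩
    set L := thru B Q with hL
    have hLB : ∀ b ∈ L, b ∈ B := fun b hb => (mem_thru.1 hb).1
    -- numbers of blocks
    have ht0 : ∀ R ∈ H.erase Q, (L.filter fun b => R ∈ b).card = lam := by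
      intro R hR
      rw [mem_erase] at hR
      rw [← h.pair Q R hR.1.symm]
      congr 1
      ext b
      simp only [hL, mem_filter, mem_thru, mem_thru2]
      tauto
    have htQ : (L.filter fun b => Q ∈ b).card = k := by
      rw [← h.rep Q]
      congr 1
      ext b
      simp only [hL, mem_filter, mem_thru]
      tauto
    have hs1 : ∑ R ∈ H, (L.filter fun b => R ∈ φ b).card = k + lam * (H.card - 1) := by
      rw [← count1, sum_congr rfl (fun b hb => hin1 b (hLB b hb)), count1 L (fun b => b) H,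
        ← add_sum_erase _ _ hQ, htQ, sum_congr rfl ht0, sum_const, smul_eq_mul,
        card_erase_of_mem hQ, mul_comm]
    have hs2 : ∑ R ∈ H, (L.filter fun b => R ∈ φ b).card ^ 2 = k ^ 2 + lam ^ 2 * (H.card - 1) := by
      rw [← count2, sum_congr rfl (fun b hb => sum_congr rfl (fun c hc =>
        hin2 b (hLB b hb) c (hLB c hc))), count2 L (fun b => b) H,
        ← add_sum_erase _ _ hQ, htQ, sum_congr rfl (fun R hR => by rw [ht0 R hR]), sum_const,
        smul_eq_mul, card_erase_of_mem hQ, mul_comm]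
    obtain ⟨R, hR, hRt⟩ : ∃ R ∈ H, lam * (H.card - 1) < (L.filter fun b => R ∈ φ b).card := by
      by_contra hcon
      push Not at hcon
      have h1 : ∑ R ∈ H, (L.filter fun b => R ∈ φ b).card ^ 2 ≤
          ∑ R ∈ H, lam * (H.card - 1) * (L.filter fun b => R ∈ φ b).card := by
        apply sum_le_sum
        intro R hR
        rw [sq]
        exact Nat.mul_le_mul_right _ (hcon R hR)
      rw [← mul_sum, hs1, hs2] at h1
      omega
    refine ⟨R, hR, ?_⟩
    by_contra hcon
    push Not at hcon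
    obtain ⟨c, hc, hQc, hRc⟩ := hcon
    have hcL : c ∈ L := mem_thru.2 ⟨hc, hQc⟩
    have h1 : (L.filter fun b => R ∈ φ b).image φ ⊆
        ((φ c ∩ H).erase R).biUnion fun S => thru2 B' R S := by
      intro b' hb'
      rw [mem_image] at hb'
      obtain ⟨b, hb, rfl⟩ := hb'
      rw [mem_filter] at hb
      have hbB := hLB b hb.1
      have h2 : 0 < ((φ b ∩ φ c) ∩ H).card := by
        rw [hin2 b hbB c hc, card_pos]
        exact ⟨Q, mem_inter.2 ⟨mem_inter.2 ⟨(mem_thru.1 hb.1).2, hQc⟩, hQ⟩⟩
      obtain ⟨S, hS⟩ := card_pos.1 h2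
      simp only [mem_inter] at hS
      rw [mem_biUnion]
      refine ⟨S, ?_, mem_thru2.2 ⟨hφ1 b hbB, hb.2, hS.1.1⟩⟩
      rw [mem_erase, mem_inter]
      refine ⟨?_, hS.1.2, hS.2⟩
      rintro rfl
      exact hRc hS.1.2
    have h2 : ((L.filter fun b => R ∈ φ b).image φ).card = (L.filter fun b => R ∈ φ b).card := by
      apply card_image_of_injOn
      intro b hb c' hc' hbc
      have hb2 : b ∈ L.filter fun b => R ∈ φ b := by exact_mod_cast hb
      have hc2 : c' ∈ L.filter fun b => R ∈ φ b := by exact_mod_cast hc'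
      exact hinj b (hLB b (mem_filter.1 hb2).1) c' (hLB c' (mem_filter.1 hc2).1) hbc
    have h3 := card_le_card h1
    rw [h2] at h3
    have h4 : (((φ c ∩ H).erase R).biUnion fun S => thru2 B' R S).card ≤
        ∑ S ∈ (φ c ∩ H).erase R, lam := by
      refine card_biUnion_le.trans (sum_le_sum fun S hS => ?_)
      rw [mem_erase] at hS
      exact (h'.pair R S hS.1.symm).le
    rw [sum_const, smul_eq_mul] at h4
    have h5 : ((φ c ∩ H).erase R).card ≤ H.card - 1 := by
      rw [← card_erase_of_mem hR]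
      apply card_le_card
      exact erase_subset_erase _ inter_subset_right
    have h6 : ((φ c ∩ H).erase R).card * lam ≤ lam * (H.card - 1) := by
      rw [mul_comm]
      exact Nat.mul_le_mul_left _ h5
    omega
  choose! g0 hg1 hg2 using hconc
  set g1 : V → V := fun x => if x ∈ H then g0 x else x with hg1def
  have hgH : ∀ x ∈ H, g1 x = g0 x := by
    intro x hx
    simp [hg1def, hx]
  have hgn : ∀ x ∉ H, g1 x = x := by
    intro x hx
    simp [hg1def, hx]
  have hgφ : ∀ b ∈ B, ∀ x ∈ b, g1 x ∈ φ b := by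
    intro b hb x hx
    by_cases hxH : x ∈ H
    · rw [hgH x hxH]
      exact hg2 x hxH b hb hx
    · rw [hgn x hxH, ← hφ2 b hb x hxH]
      exact hx
  have hginj : Function.Injective g1 := by
    have key : ∀ x ∈ H, ∀ y ∈ H, x ≠ y → g1 x ≠ g1 y := by
      intro x hx y hy hxy he
      -- the blocks through `x` go to the blocks through `g1 x`
      have h1 : (thru B x).image φ = thru B' (g1 x) := by
        apply eq_of_subset_of_card_le
        · intro c hc
          rw [mem_image] at hc
          obtain ⟨b, hb, rfl⟩ := hc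
          rw [mem_thru] at hb
          exact mem_thru.2 ⟨hφ1 b hb.1, hgφ b hb.1 x hb.2⟩
        · rw [card_image_of_injOn, h.rep, h'.rep]
          intro b hb c hc hbc
          exact hinj b (mem_thru.1 hb).1 c (mem_thru.1 hc).1 hbc
      have h2 : thru B y ⊆ thru2 B x y := by
        intro b hb
        rw [mem_thru] at hb
        have h3 : φ b ∈ (thru B x).image φ := by
          rw [h1, mem_thru, he]
          exact ⟨hφ1 b hb.1, hgφ b hb.1 y hb.2⟩
        rw [mem_image] at h3
        obtain ⟨c, hc, hc2⟩ := h3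
        have h4 := hinj c (mem_thru.1 hc).1 b hb.1 hc2
        rw [← h4] at hb ⊢
        exact mem_thru2.2 ⟨hb.1, (mem_thru.1 hc).2, hb.2⟩
      have h3 := card_le_card h2
      rw [h.rep, h.pair x y hxy] at h3
      omega
    intro x y hxy
    by_contra hne
    by_cases hx : x ∈ H <;> by_cases hy : y ∈ H
    · exact key x hx y hy hne hxy
    · apply hy
      rw [← hgn y hy, ← hxy, hgH x hx]
      exact hg1 x hx
    · apply hx
      rw [← hgn x hx, hxy, hgH y hy]
      exact hg1 y hy
    · rw [hgn x hx, hgn y hy] at hxy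
      exact hne hxy
  let g : Perm V := Equiv.ofBijective g1 ⟨hginj, Finite.injective_iff_surjective.1 hginj⟩
  have hgg : ∀ x, g x = g1 x := fun x => rfl
  refine ⟨g, fun x hx => by rw [hgg, hgn x hx], ?_⟩
  have hφim : ∀ b ∈ B, b.image g = φ b := by
    intro b hb
    apply eq_of_subset_of_card_le
    · intro x hx
      rw [mem_image] at hx
      obtain ⟨y, hy, rfl⟩ := hx
      exact hgφ b hb y hy
    · rw [card_image_of_injective _ g.injective, h.size b hb, h'.size _ (hφ1 b hb)]
  symm
  apply eq_of_subset_of_card_le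
  · intro c hc
    rw [mem_image] at hc
    obtain ⟨b, hb, rfl⟩ := hc
    rw [hφim b hb]
    exact hφ1 b hb
  · rw [card_image_of_injective _ (Finset.image_injective g.injective), h.card, h'.card]

/-- The partner of a block. -/
theorem exists_partner (hl : 1 ≤ lam) {a z : ℝ} (hz : 2 ≤ z) (hza : z * z = a)
    (hak : lam * a = k) (hlt : ((B' \ B).card : ℝ) < 1 + z * (a - z)) {T : Finset V}
    (hT : T ∈ B' \ B) : ∃ m ∈ B \ B', lam * (a - z) < ((m ∩ T).card : ℝ) := by
  have hne : (B \ B').Nonempty := by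
    rw [← card_pos, sdiff_card h h']
    exact card_pos.2 ⟨T, hT⟩
  obtain ⟨m, hm, hmax⟩ := exists_max_image (B \ B') (fun b => (b ∩ T).card) hne
  refine ⟨m, hm, ?_⟩
  by_contra hcon
  push Not at hcon
  have := bound12 h h' hl hT hm hmax hz hza hak hcon
  linarith

/-- Two symmetric designs which differ in few blocks are images of one another under a permutation
moving few points. -/
theorem design_gap (hl : 1 ≤ lam) {a z : ℝ} (hz3 : 3 * (lam : ℝ) ≤ z) (hza : z * z = a)
    (hak : lam * a = k) (hlt : ((B' \ B).card : ℝ) < 1 + z * (a - z)) :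
    ∃ g : Perm V, ((univ.filter fun x => g x ≠ x).card : ℝ) < z + lam + 1 ∧
      B' = B.image fun b => b.image g := by
  classical
  have hl1 : (1 : ℝ) ≤ lam := by exact_mod_cast hl
  have hl0 : (0 : ℝ) < lam := by linarith
  have hz3' : 3 ≤ z := by linarith
  have hlt' : ((B \ B').card : ℝ) < 1 + z * (a - z) := by
    rw [sdiff_card h h']
    exact hlt
  set H : Finset V := univ.filter fun x => a - z < (thru (B' \ B) x).card with hHdef
  have hmemH : ∀ x, x ∈ H ↔ a - z < (thru (B' \ B) x).card := by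
    intro x
    simp [hHdef]
  have hHc : (H.card : ℝ) < z + lam + 1 := by
    by_contra hcon
    push Not at hcon
    set κ := ⌈z + lam + 1⌉₊ with hκ
    have hkH : κ ≤ H.card := Nat.ceil_le.2 hcon
    have hk1 : z + lam + 1 ≤ κ := Nat.le_ceil _
    have hk2 : (κ : ℝ) < z + lam + 2 := by
      have := Nat.ceil_lt_add_one (show 0 ≤ z + lam + 1 by linarith)
      linarith
    obtain ⟨K, hK1, hK2⟩ := exists_subset_card_eq hkH
    have h1 := bonf h' (B := B) K (a - z) (fun p hp => ((hmemH p).1 (hK1 hp)).le)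
    rw [hK2] at h1
    have h2 : ((K.biUnion fun p => thru (B' \ B) p).card : ℝ) ≤ (B' \ B).card := by
      have : (K.biUnion fun p => thru (B' \ B) p).card ≤ (B' \ B).card := by
        apply card_le_card
        intro σ hσ
        rw [mem_biUnion] at hσ
        obtain ⟨p, _, hp⟩ := hσ
        exact (mem_thru.1 hp).1
      exact_mod_cast this
    obtain ⟨e, he⟩ : ∃ e : ℝ, (κ : ℝ) = z + lam + 1 + e := ⟨κ - (z + lam + 1), by ring⟩
    have he0 : 0 ≤ e := by linarith
    have he1 : e ≤ 1 := by linarith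
    have key1 : 0 ≤ (lam + 1 : ℝ) * (a - z) - lam * ((z + lam + 1) * (z + lam) / 2) - 1 := by
      rw [← hza]
      obtain ⟨w, hw⟩ : ∃ w : ℝ, z = 3 * lam + w := ⟨z - 3 * lam, by ring⟩
      obtain ⟨u, hu⟩ : ∃ u : ℝ, (lam : ℝ) = 1 + u := ⟨lam - 1, by ring⟩
      have hw0 : 0 ≤ w := by linarith
      have hu0 : 0 ≤ u := by linarith
      rw [hw, hu]
      nlinarith [mul_nonneg hw0 hu0, mul_nonneg hw0 hw0, mul_nonneg hu0 hu0,
        mul_nonneg (mul_nonneg hw0 hu0) hu0, mul_nonneg (mul_nonneg hw0 hw0) hu0,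
        mul_nonneg (mul_nonneg hu0 hu0) hu0]
    have key2 : 0 ≤ e * ((a - z) - lam * (z + lam + 1)) := by
      apply mul_nonneg he0
      rw [← hza]
      nlinarith [mul_nonneg (sub_nonneg.2 hz3) (sub_nonneg.2 hl1)]
    have key3 : 0 ≤ lam * (e * (1 - e)) := by
      apply mul_nonneg hl0.le
      exact mul_nonneg he0 (by linarith)
    rw [he] at h1
    nlinarith
  -- the numerical conditions
  have hkk : (k : ℝ) = lam * (z * z) := by rw [hza, hak]
  have hc1 : lam + H.card < k := by
    have : ((lam + H.card : ℕ) : ℝ) < k := by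
      push_cast
      rw [hkk]
      nlinarith
    exact_mod_cast this
  have hc2 : lam * (H.card - 1) * (k + lam * (H.card - 1)) < k ^ 2 + lam ^ 2 * (H.card - 1) := by
    set w := H.card - 1 with hw
    have hw1 : (w : ℝ) ≤ z + lam := by
      rcases Nat.eq_zero_or_pos H.card with h0 | h0
      · have : w = 0 := by omega
        rw [this, Nat.cast_zero]
        linarith
      · have : (w : ℝ) = (H.card : ℝ) - 1 := by
          rw [hw, Nat.cast_sub h0, Nat.cast_one]
        linarith
    have hw0 : (0 : ℝ) ≤ w := Nat.cast_nonneg _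
    have hzl : z + lam ≤ (4 / 3) * z := by linarith
    have h1 : (w : ℝ) ≤ (4 / 3) * z := hw1.trans hzl
    have h2 : (w : ℝ) * (z * z + w) < (z * z) ^ 2 := by
      have h3 : (w : ℝ) * (z * z + w) ≤ (4 / 3) * z * (z * z + (4 / 3) * z) := by
        apply mul_le_mul h1 (by linarith) (by positivity) (by positivity)
      have h4 : (4 / 3) * z * (z * z + (4 / 3) * z) < (z * z) ^ 2 := by
        have h5 : (4 / 3) * (z + 4 / 3) < z * z := by nlinarith
        have h6 : 0 < z * z := by positivity
        calc (4 / 3) * z * (z * z + (4 / 3) * z) = (z * z) * ((4 / 3) * (z + 4 / 3)) := by ring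
          _ < (z * z) * (z * z) := by exact mul_lt_mul_of_pos_left h5 h6
          _ = _ := by ring
      linarith
    have h3 : (lam : ℝ) ^ 2 * (w * (z * z + w)) < lam ^ 2 * (z * z) ^ 2 :=
      mul_lt_mul_of_pos_left h2 (by positivity)
    have h4 : ((lam * w * (k + lam * w) : ℕ) : ℝ) < ((k ^ 2 + lam ^ 2 * w : ℕ) : ℝ) := by
      push_cast
      rw [hkk]
      have h5 : (0 : ℝ) ≤ lam ^ 2 * w := by positivity
      nlinarith
    exact_mod_cast h4
  obtain ⟨g, hg1, hg2⟩ := relabel h h' (by omega) hc1 hc2 (by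
    intro b hb
    by_cases hb' : b ∈ B'
    · exact ⟨b, hb', fun x _ => Iff.rfl⟩
    · have hbm : b ∈ B \ B' := mem_sdiff.2 ⟨hb, hb'⟩
      obtain ⟨T, hT, hT2⟩ := exists_partner h' h hl (by linarith) hza hak hlt' hbm
      refine ⟨T, (mem_sdiff.1 hT).1, fun x hx => ?_⟩
      constructor
      · intro hxb
        by_contra hxT
        apply hx
        rw [hmemH]
        have h1 := ineq2 h' h hbm hT hxb hxT
        have h2 : ((T ∩ b).card : ℝ) ≤ lam * (thru (B' \ B) x).card := by exact_mod_cast h1
        exact lt_of_mul_lt_mul_left (hT2.trans_le h2) hl0.le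
      · intro hxT
        by_contra hxb
        apply hx
        rw [hmemH]
        have h1 := ineq2 h h' hT hbm hxT hxb
        rw [inter_comm, thru_sdiff h h'] at h1
        have h2 : ((T ∩ b).card : ℝ) ≤ lam * (thru (B' \ B) x).card := by exact_mod_cast h1
        exact lt_of_mul_lt_mul_left (hT2.trans_le h2) hl0.le)
  refine ⟨g, ?_, hg2⟩
  refine lt_of_le_of_lt ?_ hHc
  have : (univ.filter fun x => g x ≠ x) ⊆ H := by
    intro x hx
    simp only [mem_filter, mem_univ, true_and] at hx
    by_contra hxH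
    exact hx (hg1 x hxH)
  exact_mod_cast card_le_card this

end relabel

end Pool.Agent.N606.ST.Sym
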