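import Pool.Agent.N606.ST.SymDefs
import Pool.Agent.N606.ST.Sym2
import Pool.Agent.N606.ST.HallPlane
import Pool.Agent.N345.Sym.Basic

/-!
# Symmetric designs: basic facts and the gap theorem
-/

set_option autoImplicit false

namespace Pool.Agent.N606.ST.Sym

open Finset Equiv

variable {V : Type} [Fintype V] [DecidableEq V] {k lam : ℕ} {B : Finset (Finset V)}

/-- The basic facts. -/
theorem SymDesign.sd (h : SymDesign k lam B) (hl : 1 ≤ lam) (hk : 2 ≤ k) : SD k lam B := by
  classical
  obtain ⟨h1, h2, h3, h4⟩ := h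
  set v := Fintype.card V with hv
  have e : V ≃ Fin v := Fintype.equivFinOfCardEq rfl
  have f : Fin v ≃ B := (Fintype.equivFinOfCardEq (by rw [Fintype.card_coe, h1])).symm
  set A : Fin v → Finset (Fin v) := fun i => (f i : Finset V).map e.toEmbedding with hA
  have hmem : ∀ i (x : V), e x ∈ A i ↔ x ∈ (f i : Finset V) := by
    intro i x
    simp [hA]
  have hcount : ∀ (P : Finset V → Prop) [DecidablePred P] (Q : Fin v → Prop) [DecidablePred Q],
      (∀ i, Q i ↔ P (f i : Finset V)) → (univ.filter Q).card = (B.filter P).card := by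
    intro P _ Q _ hPQ
    refine card_bij (fun i _ => (f i : Finset V)) ?_ ?_ ?_
    · intro i hi
      rw [mem_filter] at hi ⊢
      exact ⟨(f i).2, (hPQ i).1 hi.2⟩
    · intro i _ j _ hij
      exact f.injective (Subtype.ext hij)
    · intro b hb
      rw [mem_filter] at hb
      refine ⟨f.symm ⟨b, hb.1⟩, ?_, by simp⟩
      rw [mem_filter, hPQ]
      simp [hb.2]
  have hd : Pool.Agent.N345.Sym.Des v k lam A := by
    refine ⟨hk, h2, ?_, ?_⟩
    · intro i
      simp only [hA, card_map]
      exact h3 _ (f i).2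
    · intro x y hxy
      obtain ⟨x', rfl⟩ := e.surjective x
      obtain ⟨y', rfl⟩ := e.surjective y
      rw [← h4 x' y' (fun he => hxy (by rw [he]))]
      apply hcount (fun b => x' ∈ b ∧ y' ∈ b)
      intro i
      rw [hmem, hmem]
  refine ⟨h3, ?_, ?_, ?_, h1⟩
  · intro x
    rw [← hd.rep hl (e x)]
    symm
    apply hcount (fun b => x ∈ b)
    intro i
    rw [hmem]
  · intro x y hxy
    exact h4 x y hxy
  · intro b hb c hc hbc
    have h5 : f.symm ⟨b, hb⟩ ≠ f.symm ⟨c, hc⟩ := by
      intro he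
      have := f.symm.injective he
      exact hbc (congrArg Subtype.val this)
    rw [← hd.inter hl h5]
    have h6 : A (f.symm ⟨b, hb⟩) ∩ A (f.symm ⟨c, hc⟩) = (b ∩ c).map e.toEmbedding := by
      simp only [hA, Equiv.apply_symm_apply]
      rw [map_inter]
    rw [h6, card_map]

/-- The image of a design. -/
theorem SymDesign.image (h : SymDesign k lam B) (g : Perm V) :
    SymDesign k lam (B.image fun b => b.image g) := by
  obtain ⟨h1, h2, h3, h4⟩ := h
  have hinj : Function.Injective fun b : Finset V => b.image g :=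
    Finset.image_injective g.injective
  refine ⟨?_, h2, ?_, ?_⟩
  · rw [card_image_of_injective _ hinj, h1]
  · intro c hc
    rw [mem_image] at hc
    obtain ⟨b, hb, rfl⟩ := hc
    rw [card_image_of_injective _ g.injective, h3 b hb]
  · intro x y hxy
    rw [← h4 (g.symm x) (g.symm y) (fun he => hxy (g.symm.injective he))]
    have hmem : ∀ (c : Finset V) (z : V), z ∈ c.image g ↔ g.symm z ∈ c := by
      intro c z
      rw [mem_image]
      constructor
      · rintro ⟨w, hw, rfl⟩
        simpa using hw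
      · intro hz
        exact ⟨_, hz, by simp⟩
    symm
    refine card_bij (fun b _ => b.image g) ?_ ?_ ?_
    · intro b hb
      rw [mem_filter] at hb ⊢
      rw [hmem, hmem]
      exact ⟨mem_image_of_mem _ hb.1, hb.2⟩
    · intro b _ c _ hbc
      exact hinj hbc
    · intro c hc
      rw [mem_filter, mem_image] at hc
      obtain ⟨⟨b, hb, rfl⟩, h5⟩ := hc
      rw [hmem, hmem] at h5
      exact ⟨b, mem_filter.2 ⟨hb, h5⟩, rfl⟩

variable {B' : Finset (Finset V)}

/-- The gap theorem. -/
theorem gap (h : SymDesign k lam B) (h' : SymDesign k lam B') (hl : 1 ≤ lam)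
    (hk : 9 * lam ^ 3 ≤ k)
    (hlt : ((B' \ B).card : ℝ) < 1 + Real.sqrt (k / lam) * (k / lam - Real.sqrt (k / lam))) :
    ∃ g : Perm V, ((univ.filter fun x => g x ≠ x).card : ℝ) < Real.sqrt (k / lam) + lam + 1 ∧
      B' = B.image fun b => b.image g := by
  have hl3 : 1 ≤ lam ^ 3 := Nat.one_le_pow _ _ hl
  have hk2 : 2 ≤ k := by omega
  have hl0 : (0 : ℝ) < lam := by exact_mod_cast hl
  have ha0 : (0 : ℝ) ≤ (k : ℝ) / lam := by positivity
  refine design_gap (h.sd hl hk2) (h'.sd hl hk2) hl (a := (k : ℝ) / lam)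
    (z := Real.sqrt ((k : ℝ) / lam)) ?_ (Real.mul_self_sqrt ha0) ?_ hlt
  · apply Real.le_sqrt_of_sq_le
    rw [le_div_iff₀ hl0]
    have h1 : ((9 * lam ^ 3 : ℕ) : ℝ) ≤ k := by exact_mod_cast hk
    push_cast at h1
    nlinarith
  · field_simp

/-- Permutations that map most blocks to blocks. -/
theorem near (h : SymDesign k lam B) (hl : 1 ≤ lam) (hk : 9 * lam ^ 3 ≤ k) (g : Perm V)
    (hlt : ((B.filter fun b => b.image g ∉ B).card : ℝ) <
      1 + Real.sqrt (k / lam) * (k / lam - Real.sqrt (k / lam))) :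
    ∃ s : Perm V, (∀ b ∈ B, b.image s ∈ B) ∧
      ((univ.filter fun x => g x ≠ s x).card : ℝ) < Real.sqrt (k / lam) + lam + 1 := by
  classical
  have h1 : ((B.image fun b => b.image g) \ B) =
      (B.filter fun b => b.image g ∉ B).image fun b => b.image g := by
    ext c
    simp only [mem_sdiff, mem_image, mem_filter]
    constructor
    · rintro ⟨⟨b, hb, rfl⟩, hc⟩
      exact ⟨b, ⟨hb, hc⟩, rfl⟩
    · rintro ⟨b, ⟨hb, hc⟩, rfl⟩
      exact ⟨⟨b, hb, rfl⟩, hc⟩
  have h2 : (((B.image fun b => b.image g) \ B).card : ℝ) <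
      1 + Real.sqrt (k / lam) * (k / lam - Real.sqrt (k / lam)) := by
    rw [h1, card_image_of_injective _ (Finset.image_injective g.injective)]
    exact hlt
  obtain ⟨f, hf1, hf2⟩ := gap h (h.image g) hl hk h2
  refine ⟨g.trans f.symm, ?_, ?_⟩
  · intro b hb
    have h3 : b.image g ∈ B.image fun b => b.image f := by
      rw [← hf2]
      exact mem_image_of_mem _ hb
    rw [mem_image] at h3
    obtain ⟨c, hc, hc2⟩ := h3
    have h4 : b.image (g.trans f.symm) = c := by
      ext x
      rw [mem_image]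
      constructor
      · rintro ⟨y, hy, rfl⟩
        have h5 : g y ∈ c.image f := by
          rw [hc2]
          exact mem_image_of_mem _ hy
        rw [mem_image] at h5
        obtain ⟨z, hz, hz2⟩ := h5
        rw [Equiv.trans_apply, ← hz2, Equiv.symm_apply_apply]
        exact hz
      · intro hx
        have h5 : f x ∈ b.image g := by
          rw [← hc2]
          exact mem_image_of_mem _ hx
        rw [mem_image] at h5
        obtain ⟨z, hz, hz2⟩ := h5
        exact ⟨z, hz, by rw [Equiv.trans_apply, hz2, Equiv.symm_apply_apply]⟩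
    rw [h4]
    exact hc
  · refine lt_of_le_of_lt ?_ hf1
    have h3 : (univ.filter fun x => g x ≠ (g.trans f.symm) x).card ≤
        (univ.filter fun x => f x ≠ x).card := by
      refine card_le_card_of_injOn (fun x => f.symm (g x)) ?_ ?_
      · intro x hx
        simp only [coe_filter, mem_univ, true_and, Set.mem_ofPred_eq] at hx ⊢
        rw [Equiv.apply_symm_apply]
        exact hx
      · intro x _ y _ hxy
        exact g.injective (f.symm.injective hxy)
    exact_mod_cast h3

omit [DecidableEq V] in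
/-- Planes are symmetric designs. -/
theorem symDesign_of_plane [DecidableEq V] {n : ℕ} (hn : 1 ≤ n) (h : ST.Plane n B) :
    SymDesign (n + 1) 1 B := by
  refine ⟨?_, ?_, h.2.1, ?_⟩
  · rw [h.card_eq hn, h.1]
  · rw [h.1]
    nlinarith
  · intro x y hxy
    obtain ⟨b, ⟨h1, h2, h3⟩, h4⟩ := h.2.2 x y hxy
    rw [card_eq_one]
    refine ⟨b, ?_⟩
    ext c
    rw [mem_filter, mem_singleton]
    constructor
    · intro hc
      exact h4 c ⟨hc.1, hc.2.1, hc.2.2⟩
    · rintro rfl
      exact ⟨h1, h2, h3⟩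

/-- Two close designs with `lam = 1`. -/
theorem exists_close {q : ℕ} (hq : IsPrimePow q) :
    ∃ (V : Type) (_ : Fintype V) (_ : DecidableEq V) (B B' : Finset (Finset V)),
      SymDesign (q ^ 2 + 1) 1 B ∧ SymDesign (q ^ 2 + 1) 1 B' ∧ (B' \ B).card = q ^ 3 + q ^ 2 ∧
      ∀ g : Perm V, (B' = B.image fun b => b.image g) →
        q ^ 2 - q ≤ (univ.filter fun x => g x ≠ x).card := by
  obtain ⟨V, hV, hV2, B, B', h1, h2, h3, h4⟩ := ST.exists_close_planes hq
  have hq1 : 1 ≤ q ^ 2 := Nat.one_le_pow _ _ hq.pos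
  exact ⟨V, hV, hV2, B, B', symDesign_of_plane hq1 h1, symDesign_of_plane hq1 h2, h3, h4⟩

end Pool.Agent.N606.ST.Sym
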