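import Mathlib

/-!
# Symmetric designs
-/

set_option autoImplicit false

namespace Pool.Agent.N606.ST.Sym

open Finset

/-- `B` is a symmetric `(v, k, lam)`-design on the point set `V`, where `v` is the number of
points: there are `v > k` blocks, each has `k` points, and any two points are in exactly `lam`
of them. -/
def SymDesign {V : Type} [Fintype V] [DecidableEq V] (k lam : ℕ) (B : Finset (Finset V)) : Prop :=
  B.card = Fintype.card V ∧ k < Fintype.card V ∧ (∀ b ∈ B, b.card = k) ∧
    ∀ x y : V, x ≠ y → (B.filter fun b => x ∈ b ∧ y ∈ b).card = lam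

end Pool.Agent.N606.ST.Sym
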