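import Pool.Agent.N606.ST.Ninth

/-!
# Products of the members of two sharply 2-transitive sets in a third one
-/

set_option autoImplicit false

namespace Pool.Agent.N606.ST

open Equiv Finset

open scoped Classical

set_option linter.unusedSectionVars false

variable {Ω : Type} [Fintype Ω]

/-- The pairs in `S₂ × S₁` whose product is not in `S₃`. -/
noncomputable def bad3 (S₂ S₁ S₃ : Finset (Perm Ω)) : Finset (Perm Ω × Perm Ω) :=
  (S₂ ×ˢ S₁).filter fun p => p.1 * p.2 ∉ S₃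

/-- the number of `x ∈ S₁` with `s x ∉ S₃` -/
noncomputable def lb (S₁ S₃ : Finset (Perm Ω)) (s : Perm Ω) : ℕ :=
  (S₁.filter fun x => s * x ∉ S₃).card

/-- the number of `s ∈ S₂` with `s x ∉ S₃` -/
noncomputable def rb (S₂ S₃ : Finset (Perm Ω)) (x : Perm Ω) : ℕ :=
  (S₂.filter fun s => s * x ∉ S₃).card

variable (S₁ S₂ S₃ : Finset (Perm Ω))

theorem wt_eq (g : Perm Ω) : wt S₁ g = lb S₁ S₁ g := by
  unfold wt lb
  symm
  refine card_bij (fun x _ => g * x) ?_ ?_ ?_
  · intro x hx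
    rw [mem_filter] at hx
    rw [mem_sdiff, mem_lmul, inv_mul_cancel_left]
    exact hx
  · intro x _ y _ h
    exact mul_left_cancel h
  · intro y hy
    rw [mem_sdiff, mem_lmul] at hy
    refine ⟨g⁻¹ * y, ?_, by simp⟩
    rw [mem_filter, mul_inv_cancel_left]
    exact hy

theorem sum_lb : ∑ s ∈ S₂, lb S₁ S₃ s = (bad3 S₂ S₁ S₃).card := by
  unfold bad3 lb
  rw [card_filter, sum_product]
  apply sum_congr rfl
  intro s _
  rw [card_filter]

theorem sum_rb : ∑ x ∈ S₁, rb S₂ S₃ x = (bad3 S₂ S₁ S₃).card := by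
  unfold bad3 rb
  rw [card_filter, sum_product_right]
  apply sum_congr rfl
  intro s _
  rw [card_filter]

theorem card_pos_lb (s : Perm Ω) :
    (S₁.filter fun x => s * x ∈ S₃).card + lb S₁ S₃ s = S₁.card := by
  unfold lb
  exact card_filter_add_card_filter_not _

theorem card_pos_rb (x : Perm Ω) :
    (S₂.filter fun s => s * x ∈ S₃).card + rb S₂ S₃ x = S₂.card := by
  unfold rb
  exact card_filter_add_card_filter_not _

/-- The members of `S₃` that are not in `s S₁`. -/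
theorem lb_symm (h : S₁.card = S₃.card) (s : Perm Ω) :
    (S₃.filter fun w => s⁻¹ * w ∉ S₁).card = lb S₁ S₃ s := by
  have h1 := card_pos_lb S₁ S₃ s
  have h2 := card_pos_lb S₃ S₁ s⁻¹
  have h3 : (S₁.filter fun x => s * x ∈ S₃).card = (S₃.filter fun w => s⁻¹ * w ∈ S₁).card := by
    refine card_bij (fun x _ => s * x) ?_ ?_ ?_
    · intro x hx
      rw [mem_filter] at hx ⊢
      rw [inv_mul_cancel_left]
      exact ⟨hx.2, hx.1⟩
    · intro x _ y _ h
      exact mul_left_cancel h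
    · intro y hy
      rw [mem_filter] at hy
      refine ⟨s⁻¹ * y, ?_, by simp⟩
      rw [mem_filter, mul_inv_cancel_left]
      exact ⟨hy.2, hy.1⟩
  change lb S₃ S₁ s⁻¹ = _
  omega

theorem rb_symm (h : S₂.card = S₃.card) (x : Perm Ω) :
    (S₃.filter fun w => w * x⁻¹ ∉ S₂).card = rb S₂ S₃ x := by
  have h1 := card_pos_rb S₂ S₃ x
  have h2 := card_pos_rb S₃ S₂ x⁻¹
  have h3 : (S₂.filter fun s => s * x ∈ S₃).card = (S₃.filter fun w => w * x⁻¹ ∈ S₂).card := by
    refine card_bij (fun s _ => s * x) ?_ ?_ ?_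
    · intro s hs
      rw [mem_filter] at hs ⊢
      rw [mul_inv_cancel_right]
      exact ⟨hs.2, hs.1⟩
    · intro s _ y _ h
      exact mul_right_cancel h
    · intro y hy
      rw [mem_filter] at hy
      refine ⟨y * x⁻¹, ?_, by simp⟩
      rw [mem_filter, inv_mul_cancel_right]
      exact ⟨hy.2, hy.1⟩
  change rb S₃ S₂ x⁻¹ = _
  omega

theorem wt_le_lb (h : S₁.card = S₃.card) (s g : Perm Ω) :
    wt S₁ g ≤ lb S₁ S₃ s + lb S₁ S₃ (s * g) := by
  rw [wt_eq, ← lb_symm S₁ S₃ h s]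
  have h1 : (S₁.filter fun x => g * x ∉ S₁) ⊆ ((S₃.filter fun w => s⁻¹ * w ∉ S₁).image
      fun w => g⁻¹ * (s⁻¹ * w)) ∪ (S₁.filter fun x => (s * g) * x ∉ S₃) := by
    intro x hx
    rw [mem_filter] at hx
    rw [mem_union, mem_image, mem_filter]
    by_cases h2 : (s * g) * x ∈ S₃
    · refine Or.inl ⟨(s * g) * x, ?_, by simp [mul_assoc]⟩
      rw [mem_filter, mul_assoc, inv_mul_cancel_left, ← mul_assoc]
      exact ⟨h2, hx.2⟩
    · exact Or.inr ⟨hx.1, h2⟩
  refine (card_le_card h1).trans ((card_union_le _ _).trans ?_)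
  exact Nat.add_le_add card_image_le (le_refl _)

theorem rwt_le_rb (h : S₂.card = S₃.card) (x g : Perm Ω) :
    rb S₂ S₂ g ≤ rb S₂ S₃ x + rb S₂ S₃ (g * x) := by
  rw [← rb_symm S₂ S₃ h x]
  have h1 : (S₂.filter fun s => s * g ∉ S₂) ⊆ ((S₃.filter fun w => w * x⁻¹ ∉ S₂).image
      fun w => w * x⁻¹ * g⁻¹) ∪ (S₂.filter fun s => s * (g * x) ∉ S₃) := by
    intro s hs
    rw [mem_filter] at hs
    rw [mem_union, mem_image, mem_filter]
    by_cases h2 : s * (g * x) ∈ S₃
    · refine Or.inl ⟨s * (g * x), ?_, by simp [← mul_assoc]⟩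
      rw [mem_filter, ← mul_assoc, mul_inv_cancel_right, mul_assoc]
      exact ⟨h2, hs.2⟩
    · exact Or.inr ⟨hs.1, h2⟩
  refine (card_le_card h1).trans ((card_union_le _ _).trans ?_)
  exact Nat.add_le_add card_image_le (le_refl _)

theorem ineqL (h1 : S₁.card = S₃.card) (g : Perm Ω) :
    wt S₁ g * (S₂.filter fun s => s * g ∈ S₂).card ≤ 2 * (bad3 S₂ S₁ S₃).card := by
  have h3 : ∀ s ∈ S₂.filter fun s => s * g ∈ S₂, wt S₁ g ≤ lb S₁ S₃ s + lb S₁ S₃ (s * g) :=
    fun s _ => wt_le_lb S₁ S₃ h1 s g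
  have h4 := card_nsmul_le_sum _ _ _ h3
  rw [smul_eq_mul, sum_add_distrib] at h4
  have h5 : ∑ s ∈ S₂.filter (fun s => s * g ∈ S₂), lb S₁ S₃ s ≤ ∑ s ∈ S₂, lb S₁ S₃ s :=
    sum_le_sum_of_subset (filter_subset _ _)
  have h6 : ∑ s ∈ S₂.filter (fun s => s * g ∈ S₂), lb S₁ S₃ (s * g) ≤ ∑ s ∈ S₂, lb S₁ S₃ s := by
    have h7 : ∑ s ∈ S₂.filter (fun s => s * g ∈ S₂), lb S₁ S₃ (s * g) =
        ∑ y ∈ (S₂.filter (fun s => s * g ∈ S₂)).image (fun s => s * g), lb S₁ S₃ y := by
      rw [sum_image]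
      intro x _ y _ hxy
      exact mul_right_cancel hxy
    rw [h7]
    apply sum_le_sum_of_subset
    intro y hy
    rw [mem_image] at hy
    obtain ⟨x, hx, rfl⟩ := hy
    exact (mem_filter.1 hx).2
  rw [sum_lb S₁ S₂ S₃] at h5 h6
  rw [mul_comm]
  omega

theorem ineqR (h2 : S₂.card = S₃.card) (g : Perm Ω) :
    rb S₂ S₂ g * (S₁.filter fun x => g * x ∈ S₁).card ≤ 2 * (bad3 S₂ S₁ S₃).card := by
  have h3 : ∀ x ∈ S₁.filter fun x => g * x ∈ S₁, rb S₂ S₂ g ≤ rb S₂ S₃ x + rb S₂ S₃ (g * x) :=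
    fun x _ => rwt_le_rb S₂ S₃ h2 x g
  have h4 := card_nsmul_le_sum _ _ _ h3
  rw [smul_eq_mul, sum_add_distrib] at h4
  have h5 : ∑ x ∈ S₁.filter (fun x => g * x ∈ S₁), rb S₂ S₃ x ≤ ∑ x ∈ S₁, rb S₂ S₃ x :=
    sum_le_sum_of_subset (filter_subset _ _)
  have h6 : ∑ x ∈ S₁.filter (fun x => g * x ∈ S₁), rb S₂ S₃ (g * x) ≤ ∑ x ∈ S₁, rb S₂ S₃ x := by
    have h7 : ∑ x ∈ S₁.filter (fun x => g * x ∈ S₁), rb S₂ S₃ (g * x) =
        ∑ y ∈ (S₁.filter (fun x => g * x ∈ S₁)).image (fun x => g * x), rb S₂ S₃ y := by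
      rw [sum_image]
      intro x _ y _ hxy
      exact mul_left_cancel hxy
    rw [h7]
    apply sum_le_sum_of_subset
    intro y hy
    rw [mem_image] at hy
    obtain ⟨x, hx, rfl⟩ := hy
    exact (mem_filter.1 hx).2
  rw [sum_rb S₁ S₂ S₃] at h5 h6
  rw [mul_comm]
  omega

/-- A set of permutations all of whose members map `S` mostly to itself is small. -/
theorem card_small {S Gf : Finset (Perm Ω)}
    (h : ∀ g ∈ Gf, 2 * S.card + 1 ≤ 3 * (S.filter fun x => g * x ∈ S).card)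
    (hpos : 0 < S.card) : 2 * Gf.card < 3 * S.card := by
  set N := S.card with hN
  have h4 : ∑ g ∈ Gf, (S.filter fun x => g * x ∈ S).card ≤ N * N := by
    have h5 : ∑ g ∈ Gf, (S.filter fun x => g * x ∈ S).card ≤
        ∑ g : Perm Ω, (S.filter fun x => g * x ∈ S).card :=
      sum_le_sum_of_subset (subset_univ _)
    have h6 : ∑ g : Perm Ω, (S.filter fun x => g * x ∈ S).card = N * N := by
      simp only [card_filter]
      rw [sum_comm]
      have h8 : ∀ x ∈ S, ∑ g : Perm Ω, (if g * x ∈ S then 1 else 0) = N := by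
        intro x _
        rw [← card_filter, hN]
        refine card_bij (fun g _ => g * x) ?_ ?_ ?_
        · intro g hg
          rw [mem_filter] at hg
          exact hg.2
        · intro g _ k _ hgk
          exact mul_right_cancel hgk
        · intro y hy
          refine ⟨y * x⁻¹, ?_, by simp⟩
          rw [mem_filter, inv_mul_cancel_right]
          exact ⟨mem_univ _, hy⟩
      rw [sum_congr rfl h8, sum_const, smul_eq_mul]
    omega
  have h6 := card_nsmul_le_sum _ _ _ h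
  rw [smul_eq_mul, ← mul_sum] at h6
  have h7 : Gf.card * (2 * N + 1) ≤ 3 * (N * N) := h6.trans (by omega)
  by_contra hcon
  push Not at hcon
  nlinarith

/-- If fewer than a ninth of the products of a member of `S₂` and a member of `S₁` are not in `S₃`,
where all three sets are sharply 2-transitive, the degree is a prime power. -/
theorem isPrimePow_of_few_bad3 (hS₁ : Sharp (S₁ : Set (Perm Ω))) (hS₂ : Sharp (S₂ : Set (Perm Ω)))
    (hS₃ : Sharp (S₃ : Set (Perm Ω))) (hn : 2 ≤ Fintype.card Ω)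
    (hb : 9 * (bad3 S₂ S₁ S₃).card < S₁.card ^ 2) : IsPrimePow (Fintype.card Ω) := by
  have hc13 : S₁.card = S₃.card := (card_eq hS₁ hn).trans (card_eq hS₃ hn).symm
  have hc23 : S₂.card = S₃.card := (card_eq hS₂ hn).trans (card_eq hS₃ hn).symm
  set N := S₁.card with hN
  have hNc : N = Fintype.card Ω * (Fintype.card Ω - 1) := card_eq hS₁ hn
  have hN2 : S₂.card = N := by omega
  have hNpos : 0 < N := by
    rw [hNc]
    exact Nat.mul_pos (by omega) (by omega)
  -- the two inequalities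
  have hL : ∀ g, ∃ u, N = rb S₂ S₂ g + u ∧ wt S₁ g * u ≤ 2 * (bad3 S₂ S₁ S₃).card := by
    intro g
    have h1 := card_pos_rb S₂ S₂ g
    exact ⟨(S₂.filter fun s => s * g ∈ S₂).card, by omega, ineqL S₁ S₂ S₃ hc13 g⟩
  have hR : ∀ g, ∃ u, N = wt S₁ g + u ∧ rb S₂ S₂ g * u ≤ 2 * (bad3 S₂ S₁ S₃).card := by
    intro g
    have h1 := card_pos_lb S₁ S₁ g
    rw [← wt_eq] at h1
    exact ⟨(S₁.filter fun x => g * x ∈ S₁).card, by omega, ineqR S₁ S₂ S₃ hc23 g⟩
  -- no weight lies in the middle third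
  have hgap : ∀ g, N ≤ 3 * wt S₁ g → 2 * N < 3 * wt S₁ g ∧ 2 * N < 3 * rb S₂ S₂ g := by
    intro g hg
    obtain ⟨u, hu1, hu2⟩ := hL g
    obtain ⟨v, hv1, hv2⟩ := hR g
    zify at *
    set a : ℤ := (wt S₁ g : ℤ)
    set b : ℤ := (rb S₂ S₂ g : ℤ)
    have ha0 : 0 ≤ a := Int.natCast_nonneg _
    have hb0 : 0 ≤ b := Int.natCast_nonneg _
    have hu0 : (0 : ℤ) ≤ u := Int.natCast_nonneg _
    have hv0 : (0 : ℤ) ≤ v := Int.natCast_nonneg _
    have hu' : (u : ℤ) = N - b := by linarith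
    have hv' : (v : ℤ) = N - a := by linarith
    rw [hu'] at hu2 hu0
    rw [hv'] at hv2 hv0
    have key : 2 * (N : ℤ) < 3 * b := by
      by_contra hcon
      push Not at hcon
      nlinarith
    have key2 : 2 * (N : ℤ) < 3 * a := by
      by_contra hcon
      push Not at hcon
      nlinarith
    exact ⟨key2, key⟩
  let G : Subgroup (Perm Ω) :=
    { carrier := {g | 3 * wt S₁ g < N}
      mul_mem' := by
        intro g h hg hh
        simp only [Set.mem_ofPred_eq] at hg hh ⊢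
        by_contra hcon
        push Not at hcon
        have h1 := (hgap (g * h) hcon).1
        have h2 := wt_mul S₁ g h
        omega
      one_mem' := by
        simp only [Set.mem_ofPred_eq]
        rw [wt_one]
        omega
      inv_mem' := by
        intro g hg
        simp only [Set.mem_ofPred_eq] at hg ⊢
        rwa [wt_inv] }
  have hmemG : ∀ g, g ∈ G ↔ 3 * wt S₁ g < N := fun g => Iff.rfl
  set Gf : Finset (Perm Ω) := univ.filter fun g => g ∈ G with hGf
  have hmemGf : ∀ g, g ∈ Gf ↔ g ∈ G := by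
    intro g
    rw [hGf, mem_filter]
    exact ⟨fun h => h.2, fun h => ⟨mem_univ _, h⟩⟩
  have hsmall : 2 * Gf.card < 3 * N := by
    apply card_small (S := S₁) _ hNpos
    intro g hg
    rw [hmemGf, hmemG] at hg
    have h1 := card_pos_lb S₁ S₁ g
    rw [← wt_eq] at h1
    omega
  -- some translate of `S₁` lies mostly in `G`
  obtain ⟨x, hx, hxA⟩ : ∃ x ∈ S₁, 3 * (S₁.filter fun y => y * x⁻¹ ∉ G).card < N := by
    by_contra hcon
    push Not at hcon
    have h1 : N * N ≤ 3 * ∑ x ∈ S₁, (S₁.filter fun y => y * x⁻¹ ∉ G).card := by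
      have := card_nsmul_le_sum _ _ _ hcon
      rwa [smul_eq_mul, ← mul_sum] at this
    have h2 : ∀ x ∈ S₁, (S₁.filter fun y => y * x⁻¹ ∉ G).card * (2 * N) ≤
        3 * ∑ y ∈ S₁, (rb S₂ S₃ x + rb S₂ S₃ y) := by
      intro x _
      have h3 : ∀ y ∈ S₁.filter fun y => y * x⁻¹ ∉ G, 2 * N ≤ 3 * (rb S₂ S₃ x + rb S₂ S₃ y) := by
        intro y hy
        rw [mem_filter, hmemG] at hy
        have h4 := (hgap (y * x⁻¹) (by omega)).2
        have h5 := rwt_le_rb S₂ S₃ hc23 x (y * x⁻¹)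
        rw [inv_mul_cancel_right] at h5
        omega
      have h4 := card_nsmul_le_sum _ _ _ h3
      rw [smul_eq_mul] at h4
      refine h4.trans ?_
      rw [mul_sum]
      exact sum_le_sum_of_subset (filter_subset _ _)
    have h3 := sum_le_sum h2
    rw [← sum_mul, ← mul_sum] at h3
    have h4 : ∑ x ∈ S₁, ∑ y ∈ S₁, (rb S₂ S₃ x + rb S₂ S₃ y) =
        2 * (N * (bad3 S₂ S₁ S₃).card) := by
      simp only [sum_add_distrib, sum_const, smul_eq_mul, ← mul_sum]
      rw [sum_rb]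
      ring
    rw [h4] at h3
    have h5 : N ^ 2 = N * N := sq N
    set W := ∑ x ∈ S₁, (S₁.filter fun y => y * x⁻¹ ∉ G).card
    have h6 : W * N ≤ (3 * (bad3 S₂ S₁ S₃).card) * N := by nlinarith
    have h7 : W ≤ 3 * (bad3 S₂ S₁ S₃).card := Nat.le_of_mul_le_mul_right h6 hNpos
    omega
  set A : Finset (Perm Ω) := S₁.filter fun y => y * x⁻¹ ∈ G with hA
  have hAc : A.card + (S₁.filter fun y => y * x⁻¹ ∉ G).card = N := by
    rw [hA]
    exact card_filter_add_card_filter_not _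
  -- `G` is transitive on the ordered pairs
  have hoff : (univ : Finset Ω).offDiag.card = N := by
    rw [offDiag_card, card_univ, hNc, Nat.mul_sub_one]
  have htrans : ∀ a b c d : Ω, a ≠ b → c ≠ d → ∃ g ∈ G, g a = c ∧ g b = d := by
    intro a b c d hab hcd
    have hpairs : ∀ u v : Ω, u ≠ v →
        (A.image fun y : Perm Ω => (y (x⁻¹ u), y (x⁻¹ v))) ⊆ (univ : Finset Ω).offDiag ∧
          (A.image fun y : Perm Ω => (y (x⁻¹ u), y (x⁻¹ v))).card = A.card := by
      intro u v huv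
      constructor
      · intro p hp
        rw [mem_image] at hp
        obtain ⟨s, _, rfl⟩ := hp
        rw [mem_offDiag]
        exact ⟨mem_univ _, mem_univ _, fun h => huv (x⁻¹.injective (s.injective h))⟩
      · apply card_image_of_injOn
        intro s hs s' hs' hss
        have hs1 : s ∈ A := by exact_mod_cast hs
        have hs2 : s' ∈ A := by exact_mod_cast hs'
        rw [hA, mem_filter] at hs1 hs2
        exact hS₁.eq hs1.1 hs2.1 (fun h => huv (x⁻¹.injective h)) (congrArg Prod.fst hss)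
          (congrArg Prod.snd hss)
    obtain ⟨hA1, hA2⟩ := hpairs a b hab
    obtain ⟨hB1, hB2⟩ := hpairs c d hcd
    have hint : ((A.image fun y : Perm Ω => (y (x⁻¹ a), y (x⁻¹ b))) ∩
        (A.image fun y : Perm Ω => (y (x⁻¹ c), y (x⁻¹ d)))).Nonempty := by
      by_contra hcon
      rw [not_nonempty_iff_eq_empty, ← disjoint_iff_inter_eq_empty] at hcon
      have h6 := card_le_card (union_subset hA1 hB1)
      rw [card_union_of_disjoint hcon, hA2, hB2, hoff] at h6
      omega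
    obtain ⟨p, hp⟩ := hint
    rw [mem_inter, mem_image, mem_image] at hp
    obtain ⟨⟨s, hs, hs2⟩, s', hs', hs2'⟩ := hp
    rw [hA, mem_filter] at hs hs'
    have e1 : s (x⁻¹ a) = s' (x⁻¹ c) := by
      rw [← hs2'] at hs2
      exact congrArg Prod.fst hs2
    have e2 : s (x⁻¹ b) = s' (x⁻¹ d) := by
      rw [← hs2'] at hs2
      exact congrArg Prod.snd hs2
    refine ⟨(s' * x⁻¹)⁻¹ * (s * x⁻¹), G.mul_mem (G.inv_mem hs'.2) hs.2, ?_, ?_⟩
    · rw [Perm.mul_apply, Perm.inv_eq_iff_eq, Perm.mul_apply, Perm.mul_apply]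
      exact e1
    · rw [Perm.mul_apply, Perm.inv_eq_iff_eq, Perm.mul_apply, Perm.mul_apply]
      exact e2
  -- only the identity of `G` has two fixed points
  have hfix : ∀ k ∈ G, ∀ a b : Ω, a ≠ b → k a = a → k b = b → k = 1 := by
    intro k hk a b hab ha hb'
    by_contra hk1
    have h1 : ∀ p ∈ (univ : Finset Ω).offDiag, ∃ g ∈ G, g a = p.1 ∧ g b = p.2 := by
      intro p hp
      rw [mem_offDiag] at hp
      exact htrans a b p.1 p.2 hab hp.2.2
    choose! f hf1 hf2 hf3 using h1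
    have hfinj : Set.InjOn f ((univ : Finset Ω).offDiag : Set (Ω × Ω)) := by
      intro p hp p' hp' hpp
      apply Prod.ext
      · rw [← hf2 p hp, hpp, hf2 p' hp']
      · rw [← hf3 p hp, hpp, hf3 p' hp']
    have h5 : Disjoint ((univ : Finset Ω).offDiag.image f)
        ((univ : Finset Ω).offDiag.image fun p => f p * k) := by
      rw [Finset.disjoint_left]
      intro s hs hs2
      rw [mem_image] at hs hs2
      obtain ⟨p, hp, rfl⟩ := hs
      obtain ⟨p', hp', h6⟩ := hs2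
      have e1 : p'.1 = p.1 := by
        rw [← hf2 p hp, ← h6, Perm.mul_apply, ha, hf2 p' hp']
      have e2 : p'.2 = p.2 := by
        rw [← hf3 p hp, ← h6, Perm.mul_apply, hb', hf3 p' hp']
      have e3 : p' = p := Prod.ext e1 e2
      rw [e3] at h6
      exact hk1 (mul_eq_left.1 h6)
    have h6 : ((univ : Finset Ω).offDiag.image f) ∪
        ((univ : Finset Ω).offDiag.image fun p => f p * k) ⊆ Gf := by
      intro g hg
      rw [hmemGf]
      rw [mem_union, mem_image, mem_image] at hg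
      rcases hg with ⟨p, hp, rfl⟩ | ⟨p, hp, rfl⟩
      · exact hf1 p hp
      · exact G.mul_mem (hf1 p hp) hk
    have h7 := card_le_card h6
    rw [card_union_of_disjoint h5, card_image_of_injOn hfinj, card_image_of_injOn, hoff] at h7
    · omega
    · intro p hp p' hp' hpp
      exact hfinj hp hp' (mul_right_cancel hpp)
  have h5 : Sharp (G : Set (Perm Ω)) := by
    intro a b c d hab hcd
    obtain ⟨g, hg, hg1, hg2⟩ := htrans a b c d hab hcd
    refine ⟨g, ⟨hg, hg1, hg2⟩, ?_⟩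
    rintro τ ⟨hτ, hτ1, hτ2⟩
    have h6 : g⁻¹ * τ = 1 := by
      refine hfix _ (G.mul_mem (G.inv_mem hg) hτ) a b hab ?_ ?_
      · rw [Perm.mul_apply, hτ1, ← hg1]
        exact g.symm_apply_apply a
      · rw [Perm.mul_apply, hτ2, ← hg2]
        exact g.symm_apply_apply b
    rw [inv_mul_eq_one] at h6
    exact h6.symm
  exact isPrimePow_of_group h5 hn

end Pool.Agent.N606.ST
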